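import Pool.Agent.V7H15.Tw.ReadGi2

/-!
# Circuits that may read all input bits arbitrarily often
-/

set_option autoImplicit false

namespace Pool.Agent.V7H15.Tw

open Finset

theorem log_bound3 : ∀ L ≥ 200, (25000 * L ^ 4) ^ 4 ≤ 2 ^ L := by
  intro L hL
  induction L, hL using Nat.le_induction with
  | base => norm_num
  | succ L hL ih =>
    have h1 : 200 * (L + 1) ≤ 201 * L := by omega
    have h2 : (200 * (L + 1)) ^ 16 ≤ (201 * L) ^ 16 := Nat.pow_le_pow_left h1 16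
    have h3 : (201 : ℕ) ^ 16 ≤ 2 * 200 ^ 16 := by norm_num
    have h4 : 200 ^ 16 * (L + 1) ^ 16 ≤ 200 ^ 16 * (2 * L ^ 16) := by
      calc 200 ^ 16 * (L + 1) ^ 16 = (200 * (L + 1)) ^ 16 := by rw [mul_pow]
        _ ≤ (201 * L) ^ 16 := h2
        _ = 201 ^ 16 * L ^ 16 := by rw [mul_pow]
        _ ≤ (2 * 200 ^ 16) * L ^ 16 := Nat.mul_le_mul_right _ h3
        _ = 200 ^ 16 * (2 * L ^ 16) := by ring
    have h5 : (L + 1) ^ 16 ≤ 2 * L ^ 16 := Nat.le_of_mul_le_mul_left h4 (by positivity)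
    calc (25000 * (L + 1) ^ 4) ^ 4 = 25000 ^ 4 * (L + 1) ^ 16 := by rw [mul_pow, ← pow_mul]
      _ ≤ 25000 ^ 4 * (2 * L ^ 16) := Nat.mul_le_mul_left _ h5
      _ = 2 * (25000 * L ^ 4) ^ 4 := by rw [mul_pow 25000 (L ^ 4) 4, ← pow_mul L]; ring
      _ ≤ 2 * 2 ^ L := Nat.mul_le_mul_left 2 ih
      _ = 2 ^ (L + 1) := by rw [pow_succ']

/-- The choice of the parameter. -/
theorem choose_k {n m : ℕ} (hm : 0 < m) (hn : 2 ^ (200 * m) ≤ n) :
    ∃ k x, 0 < k ∧ 16 * k ≤ x ∧ (65536 ^ m) ^ k ≤ n ∧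
      Nat.log 2 n ≤ 16 * (m * (k + 1)) ∧ ((25000 * x ^ 4) ^ 4) ^ m ≤ n := by
  have hn0 : n ≠ 0 := by
    rintro rfl
    have : 0 < 2 ^ (200 * m) := by positivity
    omega
  have h16 : (65536 : ℕ) ^ m = 2 ^ (16 * m) := by rw [pow_mul]; norm_num
  have hb : 1 < (65536 : ℕ) ^ m := Nat.one_lt_pow (by omega) (by norm_num)
  have hLn : 2 ^ Nat.log 2 n ≤ n := Nat.pow_log_le_self 2 hn0
  have hkn : (65536 ^ m) ^ Nat.log (65536 ^ m) n ≤ n := Nat.pow_log_le_self _ hn0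
  have h200 : 200 * m ≤ Nat.log 2 n := Nat.le_log_of_pow_le (by norm_num) hn
  refine ⟨Nat.log (65536 ^ m) n, Nat.log 2 n / m, ?_, ?_, hkn, ?_, ?_⟩
  · apply Nat.log_pos hb
    rw [h16]
    exact le_trans (Nat.pow_le_pow_right (by norm_num) (by omega)) hn
  · rw [Nat.le_div_iff_mul_le hm]
    apply Nat.le_log_of_pow_le (by norm_num)
    refine le_trans (le_of_eq ?_) hkn
    rw [h16, ← pow_mul]
    congr 1
    ring
  · have h1 : n < (65536 ^ m) ^ (Nat.log (65536 ^ m) n + 1) := Nat.lt_pow_succ_log_self hb n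
    have h3 : n < 2 ^ (16 * (m * (Nat.log (65536 ^ m) n + 1))) := by
      refine lt_of_lt_of_eq h1 ?_
      rw [h16, ← pow_mul]
      congr 1
      ring
    exact ((Nat.pow_lt_pow_iff_right (by norm_num)).1 (hLn.trans_lt h3)).le
  · have h4 : 200 ≤ Nat.log 2 n / m := by
      rw [Nat.le_div_iff_mul_le hm]
      exact h200
    calc ((25000 * (Nat.log 2 n / m) ^ 4) ^ 4) ^ m ≤ (2 ^ (Nat.log 2 n / m)) ^ m :=
          Nat.pow_le_pow_left (log_bound3 _ h4) m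
      _ = 2 ^ (Nat.log 2 n / m * m) := by rw [← pow_mul]
      _ ≤ 2 ^ Nat.log 2 n := Nat.pow_le_pow_right (by norm_num) (Nat.div_mul_le_self _ _)
      _ ≤ n := hLn

/-- Few bits are read at many places. -/
theorem few_heavy {n : ℕ} {Y : Type} [Fintype Y] (ℓ : Y → Bool × Pr n) (k L m s : ℕ)
    (hn : 5 ≤ n) (hLk : L ≤ 16 * (m * (k + 1)))
    (hs : 80 * m * (Fintype.card Y + s) < n ^ 2 * L) (b : Bool) :
    Fintype.card (Pr n) ≤ 2 * {e : Pr n | {y | ℓ y = (b, e)}.ncard ≤ k}.ncard := by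
  classical
  have hE : 2 * Fintype.card (Pr n) + n = n ^ 2 := card_pr n
  set E := Fintype.card (Pr n) with hE'
  have h2 : {e : Pr n | {y | ℓ y = (b, e)}.ncard ≤ k}.ncard =
      (univ.filter (fun e : Pr n => {y | ℓ y = (b, e)}.ncard ≤ k)).card := by
    rw [← Set.ncard_coe_finset]
    congr 1
    ext x
    simp
  rw [h2]
  have h3 := Finset.card_filter_add_card_filter_not (s := (univ : Finset (Pr n)))
    (p := fun e => {y | ℓ y = (b, e)}.ncard ≤ k)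
  rw [Finset.card_univ, ← hE'] at h3
  -- the heavy bits
  obtain ⟨W, hW⟩ : ∃ W : Finset (Pr n), W = univ.filter (fun e : Pr n =>
    ¬ {y | ℓ y = (b, e)}.ncard ≤ k) := ⟨_, rfl⟩
  rw [← hW] at h3
  have h4 : W.card * (k + 1) ≤ Fintype.card Y := by
    have h5 : W.card • (k + 1) ≤
        ∑ e ∈ W, (univ.filter (fun y : Y => ℓ y = (b, e))).card := by
      apply Finset.card_nsmul_le_sum
      intro e he
      rw [hW, mem_filter] at he
      have h6 := he.2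
      rw [Set.ncard_eq_toFinset_card'] at h6
      have h7 : ({y | ℓ y = (b, e)} : Set Y).toFinset =
          univ.filter (fun y : Y => ℓ y = (b, e)) := by
        ext y
        simp
      rw [h7] at h6
      omega
    rw [smul_eq_mul] at h5
    refine h5.trans ?_
    rw [← Finset.card_biUnion]
    · exact Finset.card_le_univ _
    · intro e _ e' _ hee
      rw [Function.onFun, Finset.disjoint_left]
      intro y hy hy'
      have h8 := (mem_filter.1 hy).2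
      have h9 := (mem_filter.1 hy').2
      rw [h8] at h9
      exact hee (Prod.ext_iff.1 h9).2
  have h5 : L * (5 * W.card) < L * n ^ 2 := by
    have h6 : L * (80 * W.card) ≤ 16 * (m * (k + 1)) * (80 * W.card) :=
      Nat.mul_le_mul_right _ hLk
    have h7 : 16 * (m * (k + 1)) * (80 * W.card) = 16 * (80 * m * (W.card * (k + 1))) := by ring
    have h8 : 80 * m * (W.card * (k + 1)) ≤ 80 * m * (Fintype.card Y + s) :=
      Nat.mul_le_mul_left _ (by omega)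
    have h9 : L * (80 * W.card) = 16 * (L * (5 * W.card)) := by ring
    have h10 : n ^ 2 * L = L * n ^ 2 := by ring
    omega
  have h6 : 5 * W.card < n ^ 2 := Nat.lt_of_mul_lt_mul_left h5
  have h7 : 5 * n ≤ n ^ 2 := by rw [pow_two]; exact Nat.mul_le_mul_right n hn
  omega

/-- **Circuits that read the bits of graphs arbitrarily often.** -/
theorem any_read {n s m : ℕ} {Y V : Type} [Fintype Y] [Fintype V] {H : SimpleGraph V} {T : ℕ}
    (hm : 0 < m) (hn : 2 ^ (200 * m) ≤ n) (C : Circuit Y s) (out : Y ⊕ Fin s)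
    (ℓ : Y → Bool × Pr n)
    (hC : ∀ z : Bool × Pr n → Bool, Nonempty (fstG z ≃g sndG z) ↔
      ∃ v, C.Run (fun y => z (ℓ y)) v ∧ v out = true)
    (f : Y ⊕ Fin s → V) (hf : Placed C H T f)
    (hs : 80 * m * (Fintype.card Y + s) < n ^ 2 * Nat.log 2 n) :
    (∀ w, Halves H w → n ^ (8 * m) ≤ n * (T * w) ^ (4 * m)) ∧
    ∃ K, (∀ w, Halves H w → n ^ 2 ≤ K * w) ∧
      ∀ h : ℕ, n * (h ^ 3 * T ^ 2 * Fintype.card V) ^ (2 * m) ≤ n ^ (8 * m) →
        4 * K ^ 2 * h ^ 3 * Fintype.card V < n ^ 4 := by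
  obtain ⟨k, x, hk, hkx, hkn, hLk, hxn⟩ := choose_k hm hn
  have hn30 : 2 ^ 30 ≤ n := le_trans (Nat.pow_le_pow_right (by norm_num) (by omega)) hn
  have hn5 : 5 ≤ n := le_trans (by norm_num) hn30
  have h16 : 16 ^ k ≤ n := by
    refine le_trans (Nat.pow_le_pow_left ?_ k) hkn
    calc 16 ≤ 65536 ^ 1 := by norm_num
      _ ≤ 65536 ^ m := Nat.pow_le_pow_right (by norm_num) hm
  have hw : ∀ w, Halves H w → n ^ 2 ≤ 2 * 10 ^ 4 * k ^ 2 * 4 ^ k * T * w := by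
    intro w hw
    have h1 := iso_read2 hn30 k hk h16 C out ℓ
      (few_heavy ℓ k _ m s hn5 hLk hs) hC f hf w hw
    calc n ^ 2 ≤ 2 * 10 ^ 4 * (k ^ 2 * 4 ^ k * (T * w)) := h1
      _ = 2 * 10 ^ 4 * k ^ 2 * 4 ^ k * T * w := by ring
  have hnpos : 0 < n := by omega
  have h4k : ((4 ^ k) ^ 8) ^ m ≤ n := by
    refine le_trans (le_of_eq ?_) hkn
    have h4 : (65536 : ℕ) = 4 ^ 8 := by norm_num
    rw [h4, ← pow_mul, ← pow_mul, ← pow_mul, ← pow_mul]
    congr 1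
    ring
  refine ⟨fun w hHw => ?_, 2 * 10 ^ 4 * k ^ 2 * 4 ^ k * T, hw, fun h hh => ?_⟩
  · have h1 := hw w hHw
    have h2 : (n ^ 2) ^ (8 * m) ≤ (2 * 10 ^ 4 * k ^ 2 * 4 ^ k * T * w) ^ (8 * m) :=
      Nat.pow_le_pow_left h1 _
    have h3 : (2 * 10 ^ 4 * k ^ 2 * 4 ^ k * T * w) ^ (8 * m) =
        (256 * 10 ^ 32 * k ^ 16) ^ m * ((4 ^ k) ^ 8) ^ m * ((T * w) ^ (4 * m)) ^ 2 := by
      rw [pow_mul, ← pow_mul (T * w), mul_comm (4 * m) 2, ← mul_assoc, pow_mul (T * w),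
        ← mul_pow, ← mul_pow]
      congr 1
      ring
    have h5 : (256 * 10 ^ 32 * k ^ 16) ^ m ≤ n := by
      refine le_trans (Nat.pow_le_pow_left ?_ m) hxn
      calc 256 * 10 ^ 32 * k ^ 16 ≤ (25000 ^ 4 * 16 ^ 16) * k ^ 16 :=
            Nat.mul_le_mul_right _ (by norm_num)
        _ = 25000 ^ 4 * (16 * k) ^ 16 := by ring
        _ ≤ 25000 ^ 4 * x ^ 16 := Nat.mul_le_mul_left _ (Nat.pow_le_pow_left hkx 16)
        _ = (25000 * x ^ 4) ^ 4 := by ring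
    have h6 : (n ^ (8 * m)) ^ 2 ≤ (n * (T * w) ^ (4 * m)) ^ 2 := by
      calc (n ^ (8 * m)) ^ 2 = (n ^ 2) ^ (8 * m) := by rw [← pow_mul, ← pow_mul, mul_comm]
        _ ≤ (256 * 10 ^ 32 * k ^ 16) ^ m * ((4 ^ k) ^ 8) ^ m * ((T * w) ^ (4 * m)) ^ 2 :=
            h2.trans h3.le
        _ ≤ n * n * ((T * w) ^ (4 * m)) ^ 2 :=
            Nat.mul_le_mul_right _ (Nat.mul_le_mul h5 h4k)
        _ = (n * (T * w) ^ (4 * m)) ^ 2 := by rw [mul_pow n, pow_two n]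
    exact (Nat.pow_le_pow_iff_left (by norm_num)).1 h6
  · have h1 : 4 * (2 * 10 ^ 4 * k ^ 2 * 4 ^ k * T) ^ 2 * h ^ 3 * Fintype.card V =
        (16 * 10 ^ 8 * k ^ 4) * (4 ^ k) ^ 2 * (h ^ 3 * T ^ 2 * Fintype.card V) := by ring
    rw [h1]
    obtain ⟨Q, hQ⟩ : ∃ Q, Q = h ^ 3 * T ^ 2 * Fintype.card V := ⟨_, rfl⟩
    rw [← hQ] at hh ⊢
    rcases Nat.eq_zero_or_pos Q with hQ0 | hQ0
    · rw [hQ0, mul_zero]
      positivity
    have h2 : (16 * 10 ^ 8 * k ^ 4) ^ 4 < (25000 * x ^ 4) ^ 4 := by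
      apply Nat.pow_lt_pow_left _ (by norm_num)
      calc 16 * 10 ^ 8 * k ^ 4 < 25000 * 16 ^ 4 * k ^ 4 :=
            Nat.mul_lt_mul_of_pos_right (by norm_num) (by positivity)
        _ = 25000 * (16 * k) ^ 4 := by ring
        _ ≤ 25000 * x ^ 4 := Nat.mul_le_mul_left _ (Nat.pow_le_pow_left hkx 4)
    have h3 : ((16 * 10 ^ 8 * k ^ 4) ^ 4) ^ m < n :=
      (Nat.pow_lt_pow_left h2 (by omega)).trans_le hxn
    have h4 : ((16 * 10 ^ 8 * k ^ 4) * (4 ^ k) ^ 2 * Q) ^ (4 * m) < (n ^ 4) ^ (4 * m) := by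
      calc ((16 * 10 ^ 8 * k ^ 4) * (4 ^ k) ^ 2 * Q) ^ (4 * m) =
          ((16 * 10 ^ 8 * k ^ 4) ^ 4) ^ m * (((4 ^ k) ^ 8) ^ m * (Q ^ (2 * m)) ^ 2) := by
            rw [pow_mul, ← pow_mul Q, show 2 * m * 2 = 4 * m by ring, pow_mul Q,
              ← mul_pow, ← mul_pow]
            congr 1
            ring
        _ ≤ ((16 * 10 ^ 8 * k ^ 4) ^ 4) ^ m * (n * (Q ^ (2 * m)) ^ 2) :=
            Nat.mul_le_mul_left _ (Nat.mul_le_mul_right _ h4k)
        _ < n * (n * (Q ^ (2 * m)) ^ 2) := Nat.mul_lt_mul_of_pos_right h3 (by positivity)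
        _ = (n * Q ^ (2 * m)) ^ 2 := by ring
        _ ≤ (n ^ (8 * m)) ^ 2 := Nat.pow_le_pow_left hh 2
        _ = (n ^ 4) ^ (4 * m) := by
            rw [← pow_mul, ← pow_mul]
            congr 1
            ring
    exact lt_of_pow_lt_pow_left₀ (4 * m) (by positivity) h4

end Pool.Agent.V7H15.Tw
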