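import Mathlib

/-!
# Random placements
-/

set_option autoImplicit false

namespace Pool.Agent.V7H15.Tw

open Finset

/-- If each `place ω i` is uniformly distributed over `T`, some `ω` has at least the average number
of `i` with `place ω i ∈ S`. -/
theorem exists_place {Ω I T : Type} [Fintype Ω] [Nonempty Ω] [Fintype I] [Fintype T]
    [DecidableEq T] (place : Ω → I → T)
    (hequi : ∀ i q q', (univ.filter (fun ω => place ω i = q)).card =
      (univ.filter (fun ω => place ω i = q')).card) (S : Finset T) :
    ∃ ω, Fintype.card I * S.card ≤
      (univ.filter (fun i => place ω i ∈ S)).card * Fintype.card T := by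
  classical
  by_contra hcon
  push Not at hcon
  -- each `i` contributes `|S| |Ω| / |T|`
  have h1 : ∀ i, (univ.filter (fun ω => place ω i ∈ S)).card * Fintype.card T =
      S.card * Fintype.card Ω := by
    intro i
    rcases isEmpty_or_nonempty T with hT | ⟨⟨q0⟩⟩
    · exact (hT.false (place (Classical.arbitrary Ω) i)).elim
    have h2 : ∀ A : Finset T, (univ.filter (fun ω => place ω i ∈ A)).card =
        A.card * (univ.filter (fun ω => place ω i = q0)).card := by
      intro A
      rw [Finset.card_eq_sum_card_fiberwise (f := fun ω => place ω i) (t := A)]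
      · rw [Finset.sum_const_nat (m := (univ.filter (fun ω => place ω i = q0)).card)]
        intro q hq
        rw [hequi i q0 q]
        congr 1
        ext ω
        simp only [mem_filter, mem_univ, true_and]
        constructor
        · exact fun h => h.2
        · exact fun h => ⟨h ▸ hq, h⟩
      · intro ω hω
        simpa using hω
    have h3 := h2 univ
    simp only [mem_univ, filter_true] at h3
    rw [h2 S]
    rw [Finset.card_univ, Finset.card_univ] at h3
    rw [h3]
    ring
  have h4 : (∑ ω : Ω, (univ.filter (fun i => place ω i ∈ S)).card) * Fintype.card T =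
      Fintype.card I * S.card * Fintype.card Ω := by
    have h5 : ∑ ω : Ω, (univ.filter (fun i => place ω i ∈ S)).card =
        ∑ i : I, (univ.filter (fun ω => place ω i ∈ S)).card := by
      simp only [Finset.card_filter]
      rw [Finset.sum_comm]
    rw [h5, Finset.sum_mul]
    simp only [h1]
    rw [Finset.sum_const, Finset.card_univ, smul_eq_mul]
    ring
  have h6 : (∑ ω : Ω, (univ.filter (fun i => place ω i ∈ S)).card) * Fintype.card T <
      ∑ ω : Ω, Fintype.card I * S.card := by
    rw [Finset.sum_mul]
    exact Finset.sum_lt_sum_of_nonempty univ_nonempty (fun ω _ => hcon ω)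
  rw [h4, Finset.sum_const, Finset.card_univ, smul_eq_mul] at h6
  have h7 : Fintype.card I * S.card * Fintype.card Ω = Fintype.card Ω * (Fintype.card I * S.card) := by
    ring
  omega

/-- The images of a tuple under a random bijection are uniformly distributed. -/
theorem equi_embed {V : Type} {n m : ℕ} [Fintype V] [DecidableEq V] (P : Fin m ↪ V)
    (q q' : Fin m ↪ Fin n) :
    (univ.filter (fun ρ : V ≃ Fin n => P.trans ρ.toEmbedding = q)).card =
      (univ.filter (fun ρ : V ≃ Fin n => P.trans ρ.toEmbedding = q')).card := by
  classical
  have : MulAction.IsMultiplyPretransitive (Equiv.Perm (Fin n)) (Fin n) m :=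
    Equiv.Perm.isMultiplyPretransitive (Fin n) m
  obtain ⟨τ, hτ⟩ := MulAction.exists_smul_eq (Equiv.Perm (Fin n)) q q'
  have hτ' : ∀ i, τ (q i) = q' i := fun i => by
    rw [← hτ]; rfl
  refine Finset.card_bij (fun ρ _ => ρ.trans τ) ?_ ?_ ?_
  · intro ρ hρ
    simp only [mem_filter, mem_univ, true_and] at hρ ⊢
    ext i
    have := DFunLike.congr_fun hρ i
    simp only [Function.Embedding.trans_apply, Equiv.coe_toEmbedding] at this
    simp only [Function.Embedding.trans_apply, Equiv.coe_toEmbedding, Equiv.trans_apply, this, hτ']
  · intro ρ _ ρ' _ h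
    ext v
    have := congrArg (fun e : V ≃ Fin n => e v) h
    simp only [Equiv.trans_apply, EmbeddingLike.apply_eq_iff_eq] at this
    rw [this]
  · intro ρ hρ
    refine ⟨ρ.trans τ.symm, ?_, ?_⟩
    · simp only [mem_filter, mem_univ, true_and] at hρ ⊢
      ext i
      have := DFunLike.congr_fun hρ i
      simp only [Function.Embedding.trans_apply, Equiv.coe_toEmbedding] at this
      simp only [Function.Embedding.trans_apply, Equiv.coe_toEmbedding, Equiv.trans_apply, this,
        ← hτ', Equiv.symm_apply_apply]
    · ext v
      simp

end Pool.Agent.V7H15.Tw
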