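import Mathlib

/-!
# Graphs given by adjacency bits
-/

set_option autoImplicit false

namespace Pool.Agent.V7H15.Tw

/-- The pairs `i < j` of vertices. -/
abbrev Pr (n : ℕ) : Type := {p : Fin n × Fin n // p.1 < p.2}

/-- The graph on `Fin n` given by its adjacency bits. -/
def graphOf {n : ℕ} (z : Pr n → Bool) : SimpleGraph (Fin n) :=
  SimpleGraph.fromRel (fun i j : Fin n => ∃ h : i < j, z ⟨(i, j), h⟩ = true)

end Pool.Agent.V7H15.Tw
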