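import Mathlib

/-!
# Boolean circuits with guess gates, and their tree decompositions
-/

set_option autoImplicit false

namespace Pool.Agent.V7H15.Tw

/-- The kinds of gates: conjunctions and sums modulo two (of any number of gates, each of which may
be negated), and guess gates, whose value is free. -/
inductive Kind
  | and
  | xor
  | guess

/-- A circuit whose input gates are the elements of `X`, one for each variable, and which has `s`
further gates. The wire `(p, b)` in `wires g` leads from `p` to the gate `g`; it carries the value of
`p`, negated if `b` is true. The gate `g` negates its result if `neg g` is true. Every kind of gate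
takes any number of wires. -/
structure Circuit (X : Type) (s : ℕ) where
  kind : Fin s → Kind
  neg : Fin s → Bool
  wires : Fin s → Finset ((X ⊕ Fin s) × Bool)
  acyclic : ∀ g h : Fin s, ∀ b : Bool, (Sum.inr h, b) ∈ wires g → h < g

variable {X : Type} {s : ℕ}

/-- The value of the gate `g`, given the values of the gates before it. -/
def Circuit.Rule (C : Circuit X s) (v : X ⊕ Fin s → Bool) (g : Fin s) : Prop :=
  match C.kind g with
  | .and => v (.inr g) = xor (C.neg g) (decide (∀ p ∈ C.wires g, xor (v p.1) p.2 = true))
  | .xor => v (.inr g) = xor (C.neg g)
      (decide (Odd ((C.wires g).filter (fun p => xor (v p.1) p.2 = true)).card))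
  | .guess => True

/-- `v` assigns values to all gates in accordance with the input `z`: input gates have the values
given by `z`, conjunctions and sums are computed, guess gates have any value. -/
def Circuit.Run (C : Circuit X s) (z : X → Bool) (v : X ⊕ Fin s → Bool) : Prop :=
  (∀ x, v (.inl x) = z x) ∧ ∀ g, C.Rule v g

/-- There is a wire from `p` to `q`. -/
def Circuit.Wire (C : Circuit X s) (p q : X ⊕ Fin s) : Prop :=
  ∃ g : Fin s, q = .inr g ∧ ∃ b : Bool, (p, b) ∈ C.wires g

/-- A tree decomposition of the graph of the wires of `C`: a finite tree with a set of gates at each
node, such that every gate occurs, both ends of every wire occur together, and the nodes at which a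
given gate occurs are connected. -/
structure TreeDecomposition (C : Circuit X s) where
  ι : Type
  fin : Fintype ι
  tree : SimpleGraph ι
  isTree : tree.IsTree
  bag : ι → Finset (X ⊕ Fin s)
  cover : ∀ p, ∃ i, p ∈ bag i
  wire : ∀ p q, C.Wire p q → ∃ i, p ∈ bag i ∧ q ∈ bag i
  conn : ∀ p, (tree.induce {i | p ∈ bag i}).Preconnected

end Pool.Agent.V7H15.Tw
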