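import Mathlib

/-!
# Colouring parts so that many pairs of variables are on different sides
-/

set_option autoImplicit false

namespace Pool.Agent.V7H15.Tw

open Finset

theorem card_colorings {K : Type} [Fintype K] [DecidableEq K] (A B : Finset K)
    (hAB : Disjoint A B) (k : ℕ) (hA : A.card ≤ k) (hB : B.card ≤ k) :
    (univ : Finset (K → Bool)).card ≤ 4 ^ k * (univ.filter (fun g : K → Bool =>
      (∀ κ ∈ A, g κ = true) ∧ ∀ κ ∈ B, g κ = false)).card := by
  classical
  let φ : (K → Bool) → (K → Bool) := fun g κ =>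
    if κ ∈ A then true else if κ ∈ B then false else g κ
  apply Finset.card_le_mul_card_image_of_maps_to (f := φ)
  · intro g _
    rw [mem_filter]
    refine ⟨mem_univ _, ?_, ?_⟩
    · intro κ hκ
      simp only [φ, if_pos hκ]
    · intro κ hκ
      have : κ ∉ A := fun h => Finset.disjoint_left.1 hAB h hκ
      simp only [φ, if_neg this, if_pos hκ]
  · intro g0 _
    have h1 : Fintype.card ((A ∪ B : Finset K) → Bool) ≤ 4 ^ k := by
      rw [Fintype.card_fun, Fintype.card_bool, Fintype.card_coe]
      calc 2 ^ (A ∪ B).card ≤ 2 ^ (2 * k) := by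
            apply Nat.pow_le_pow_right (by norm_num)
            have := Finset.card_union_le A B
            omega
        _ = 4 ^ k := by rw [pow_mul]; norm_num
    refine le_trans ?_ h1
    rw [← Finset.card_univ]
    apply Finset.card_le_card_of_injOn (fun g : K → Bool => fun κ : (A ∪ B : Finset K) => g κ.1)
      (fun _ _ => mem_coe.2 (mem_univ _))
    intro g hg g' hg' h
    rw [mem_coe, mem_filter] at hg hg'
    funext κ
    by_cases hκ : κ ∈ A ∪ B
    · exact congrFun h ⟨κ, hκ⟩
    · rw [mem_union, not_or] at hκ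
      have h2 := congrFun (hg.2.trans hg'.2.symm) κ
      simp only [φ, if_neg hκ.1, if_neg hκ.2] at h2
      exact h2

theorem coloring {X K : Type} [Fintype K] [DecidableEq K] (k : ℕ) (X0 X1 : Finset X)
    (occ : X → Finset K) (h0 : ∀ x ∈ X0, (occ x).card ≤ k) (h1 : ∀ x ∈ X1, (occ x).card ≤ k)
    (D : ℕ) (hD : D ≤ ((X0 ×ˢ X1).filter (fun q => Disjoint (occ q.1) (occ q.2))).card) :
    ∃ (g : K → Bool) (L R : Finset X), L ⊆ X0 ∧ R ⊆ X1 ∧ (∀ x ∈ L, ∀ κ ∈ occ x, g κ = true) ∧
      (∀ x ∈ R, ∀ κ ∈ occ x, g κ = false) ∧ D ≤ 4 ^ k * (L.card * R.card) := by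
  classical
  by_contra hcon
  push Not at hcon
  let L : (K → Bool) → Finset X := fun g => X0.filter (fun x => ∀ κ ∈ occ x, g κ = true)
  let R : (K → Bool) → Finset X := fun g => X1.filter (fun x => ∀ κ ∈ occ x, g κ = false)
  have hlt : ∀ g : K → Bool, 4 ^ k * ((L g).card * (R g).card) < D := by
    intro g
    exact hcon g (L g) (R g) (Finset.filter_subset _ _) (Finset.filter_subset _ _)
      (fun x hx => (mem_filter.1 hx).2) (fun x hx => (mem_filter.1 hx).2)
  let P := X0 ×ˢ X1
  let good : (K → Bool) → X × X → Prop := fun g q =>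
    (∀ κ ∈ occ q.1, g κ = true) ∧ ∀ κ ∈ occ q.2, g κ = false
  have hprod : ∀ g, (L g).card * (R g).card = (P.filter (good g)).card := by
    intro g
    rw [← Finset.card_product]
    congr 1
    ext q
    simp only [L, R, P, good, mem_product, mem_filter]
    tauto
  have hsum1 : ∑ g : K → Bool, 4 ^ k * ((L g).card * (R g).card) <
      ∑ _g : K → Bool, D := by
    apply Finset.sum_lt_sum_of_nonempty
    · exact ⟨fun _ => true, mem_univ _⟩
    · exact fun g _ => hlt g
  have hsum2 : ∑ g : K → Bool, (P.filter (good g)).card =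
      ∑ q ∈ P, (univ.filter (fun g : K → Bool => good g q)).card := by
    simp only [Finset.card_filter]
    exact Finset.sum_comm
  have hsum3 : ((P.filter (fun q => Disjoint (occ q.1) (occ q.2))).card) *
      (univ : Finset (K → Bool)).card ≤
      4 ^ k * ∑ q ∈ P, (univ.filter (fun g : K → Bool => good g q)).card := by
    rw [Finset.mul_sum]
    calc ((P.filter (fun q => Disjoint (occ q.1) (occ q.2))).card) *
          (univ : Finset (K → Bool)).card =
          ∑ q ∈ P.filter (fun q => Disjoint (occ q.1) (occ q.2)),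
            (univ : Finset (K → Bool)).card := by
          rw [Finset.sum_const, smul_eq_mul]
      _ ≤ ∑ q ∈ P.filter (fun q => Disjoint (occ q.1) (occ q.2)),
            4 ^ k * (univ.filter (fun g : K → Bool => good g q)).card := by
          apply Finset.sum_le_sum
          intro q hq
          rw [mem_filter, mem_product] at hq
          exact card_colorings _ _ hq.2 k (h0 _ hq.1.1) (h1 _ hq.1.2)
      _ ≤ ∑ q ∈ P, 4 ^ k * (univ.filter (fun g : K → Bool => good g q)).card :=
          Finset.sum_le_sum_of_subset (Finset.filter_subset _ _)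
  have hfin : (univ : Finset (K → Bool)).card * D ≤
      ∑ g : K → Bool, 4 ^ k * ((L g).card * (R g).card) := by
    calc (univ : Finset (K → Bool)).card * D ≤ (univ : Finset (K → Bool)).card *
          ((P.filter (fun q => Disjoint (occ q.1) (occ q.2))).card) := Nat.mul_le_mul_left _ hD
      _ ≤ 4 ^ k * ∑ q ∈ P, (univ.filter (fun g : K → Bool => good g q)).card := by
          rw [mul_comm]; exact hsum3
      _ = ∑ g : K → Bool, 4 ^ k * ((L g).card * (R g).card) := by
          rw [← hsum2, Finset.mul_sum]
          exact Finset.sum_congr rfl fun g _ => by rw [hprod g]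
  rw [Finset.sum_const, smul_eq_mul] at hsum1
  omega

end Pool.Agent.V7H15.Tw
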