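import Pool.Agent.V7H15.Tw.Circuit

/-!
# Tree decompositions, complete minors, and circuits placed on graphs
-/

set_option autoImplicit false

namespace Pool.Agent.V7H15.Tw

/-- The complete graph with `h` vertices is a minor of `G`: there are `h` pairwise disjoint
connected sets of vertices, and an edge of `G` between any two of them. -/
def CliqueMinor {V : Type} (G : SimpleGraph V) (h : ℕ) : Prop :=
  ∃ B : Fin h → Set V, (∀ i, (G.induce (B i)).Connected) ∧
    ∀ i j, i ≠ j → Disjoint (B i) (B j) ∧ ∃ x ∈ B i, ∃ y ∈ B j, G.Adj x y

/-- A tree decomposition of the graph `G`: a finite tree with a set of vertices at each node, such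
that every vertex occurs, the ends of every edge occur together, and the nodes at which a given
vertex occurs are connected. -/
structure TreeDec {V : Type} (G : SimpleGraph V) where
  ι : Type
  fin : Fintype ι
  tree : SimpleGraph ι
  isTree : tree.IsTree
  bag : ι → Finset V
  cover : ∀ v, ∃ i, v ∈ bag i
  edge : ∀ u v, G.Adj u v → ∃ i, u ∈ bag i ∧ v ∈ bag i
  conn : ∀ v, (tree.induce {i | v ∈ bag i}).Preconnected

/-- The gates of `C`, input gates included, are placed at the vertices of `H`, at most `T` at each
vertex, such that every wire joins gates at the same vertex or at adjacent vertices. -/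
def Placed {Y : Type} {s : ℕ} (C : Circuit Y s) {V : Type} (H : SimpleGraph V) (T : ℕ)
    (f : Y ⊕ Fin s → V) : Prop :=
  (∀ v, {p | f p = v}.ncard ≤ T) ∧ ∀ p q, C.Wire p q → f p = f q ∨ H.Adj (f p) (f q)

end Pool.Agent.V7H15.Tw
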