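import Pool.Agent.V7H15.Tw.Mix

/-!
# Balanced separations from tree decompositions
-/

set_option autoImplicit false

namespace Pool.Agent.V7H15.Tw

open Finset

section tree

variable {ι : Type} (T : SimpleGraph ι)

/-- The graph without the edges at `t`. -/
def del (t : ι) : SimpleGraph ι where
  Adj i j := T.Adj i j ∧ i ≠ t ∧ j ≠ t
  symm := ⟨fun _ _ h => ⟨h.1.symm, h.2.2, h.2.1⟩⟩
  loopless := ⟨fun i h => T.loopless.irrefl i h.1⟩

variable {T}

/-- A node `u` adjacent to `t` on the way to `i`. -/
theorem exists_first (hT : T.Connected) {t i : ι} (hi : i ≠ t) :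
    ∃ u, T.Adj t u ∧ (del T t).Reachable u i := by
  obtain ⟨p, hp⟩ := (hT t i).exists_isPath
  cases p with
  | nil => exact absurd rfl hi
  | @cons _ u _ h q =>
    refine ⟨u, h, ?_⟩
    rw [SimpleGraph.Walk.cons_isPath_iff] at hp
    obtain ⟨hq, ht⟩ := hp
    clear h hi
    induction q with
    | nil => exact SimpleGraph.Reachable.refl _
    | @cons a b c hab r ih =>
      have h1 : a ≠ t := by
        rintro rfl
        exact ht (SimpleGraph.Walk.start_mem_support _)
      have h2 : b ≠ t := by
        rintro rfl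
        apply ht
        rw [SimpleGraph.Walk.support_cons]
        exact List.mem_cons_of_mem _ (SimpleGraph.Walk.start_mem_support _)
      have h3 : (del T t).Adj a b := ⟨hab, h1, h2⟩
      rw [SimpleGraph.Walk.cons_isPath_iff] at hq
      rw [SimpleGraph.Walk.support_cons, List.mem_cons, not_or] at ht
      exact h3.reachable.trans (ih hq.1 ht.2)

/-- Nodes of a connected set that avoids `t` are connected without `t`. -/
theorem reach_of_conn {N : Set ι} (hN : (T.induce N).Preconnected) {t i j : ι}
    (ht : t ∉ N) (hi : i ∈ N) (hj : j ∈ N) : (del T t).Reachable i j := by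
  have h := hN ⟨i, hi⟩ ⟨j, hj⟩
  let f : T.induce N →g del T t :=
    { toFun := fun x => x.1
      map_rel' := by
        intro a b hab
        refine ⟨hab, ?_, ?_⟩
        · rintro h1
          exact ht (h1 ▸ a.2)
        · rintro h1
          exact ht (h1 ▸ b.2) }
  exact h.map f

/-- In a tree, the two sides of an edge are separated. -/
theorem no_both (hT : T.IsTree) {N : Set ι} (hN : (T.induce N).Preconnected) {t u i j : ι}
    (htu : T.Adj t u) (ht : t ∉ N) (hi : i ∈ N) (hj : j ∈ N)
    (h1 : (del T t).Reachable u i) (h2 : (del T u).Reachable t j) : False := by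
  have hb := SimpleGraph.isAcyclic_iff_forall_adj_isBridge.1 hT.isAcyclic htu
  rw [SimpleGraph.isBridge_iff] at hb
  apply hb
  have m1 : del T t ≤ T.deleteEdges {s(t, u)} := by
    intro a b hab
    obtain ⟨h3, h4, h5⟩ := hab
    rw [SimpleGraph.deleteEdges_adj]
    refine ⟨h3, ?_⟩
    intro h6
    rw [Set.mem_singleton_iff, Sym2.eq_iff] at h6
    rcases h6 with ⟨h6, -⟩ | ⟨-, h6⟩
    · exact h4 h6
    · exact h5 h6
  have m2 : del T u ≤ T.deleteEdges {s(t, u)} := by
    intro a b hab
    obtain ⟨h3, h4, h5⟩ := hab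
    rw [SimpleGraph.deleteEdges_adj]
    refine ⟨h3, ?_⟩
    intro h6
    rw [Set.mem_singleton_iff, Sym2.eq_iff] at h6
    rcases h6 with ⟨-, h6⟩ | ⟨h6, -⟩
    · exact h5 h6
    · exact h4 h6
  have h3 := (reach_of_conn hN ht hi hj).mono m1
  exact ((h2.mono m2).trans h3.symm).trans (h1.mono m1).symm

end tree

section

variable {X : Type} {s : ℕ} {C : Circuit X s} (D : TreeDecomposition C)

/-- the nodes of a gate -/
def TreeDecomposition.nodes (p : X ⊕ Fin s) : Set D.ι := {i | p ∈ D.bag i}

open Classical in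
/-- the terminals on the side of `i` -/
noncomputable def TreeDecomposition.sideOf (S : Finset (X ⊕ Fin s)) (t i : D.ι) :
    Finset (X ⊕ Fin s) :=
  S.filter (fun p => p ∉ D.bag t ∧ ∃ j, p ∈ D.bag j ∧ (del D.tree t).Reachable i j)

theorem mem_sideOf (S : Finset (X ⊕ Fin s)) (t i : D.ι) (p : X ⊕ Fin s) :
    p ∈ D.sideOf S t i ↔ p ∈ S ∧ p ∉ D.bag t ∧
      ∃ j, p ∈ D.bag j ∧ (del D.tree t).Reachable i j := by
  simp only [TreeDecomposition.sideOf, mem_filter]

/-- A node such that no side contains more than half of the terminals. -/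
theorem exists_centre (S : Finset (X ⊕ Fin s)) :
    ∃ t : D.ι, ∀ i, i ≠ t → 2 * (D.sideOf S t i).card ≤ S.card := by
  classical
  have := D.fin
  by_contra hcon
  push Not at hcon
  have hconn := D.isTree.connected
  have h1 : ∀ t : D.ι, ∃ u, D.tree.Adj t u ∧ S.card < 2 * (D.sideOf S t u).card := by
    intro t
    obtain ⟨i, hit, hi⟩ := hcon t
    obtain ⟨u, hu1, hu2⟩ := exists_first hconn hit
    refine ⟨u, hu1, ?_⟩
    have : D.sideOf S t u = D.sideOf S t i := by
      ext p
      simp only [mem_sideOf]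
      refine and_congr_right fun _ => and_congr_right fun _ => ?_
      constructor
      · rintro ⟨j, hj1, hj2⟩
        exact ⟨j, hj1, hu2.symm.trans hj2⟩
      · rintro ⟨j, hj1, hj2⟩
        exact ⟨j, hj1, hu2.trans hj2⟩
    rw [this]
    exact hi
  choose f hf1 hf2 using h1
  have : DecidableRel D.tree.Adj := Classical.decRel _
  have hcard := D.isTree.card_edgeFinset
  have hmaps : ∀ t ∈ (Finset.univ : Finset D.ι), s(t, f t) ∈ D.tree.edgeFinset := by
    intro t _
    rw [SimpleGraph.mem_edgeFinset]
    exact hf1 t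
  have hlt : D.tree.edgeFinset.card < (Finset.univ : Finset D.ι).card := by
    rw [Finset.card_univ]
    omega
  obtain ⟨t, -, u, -, htu, he⟩ := Finset.exists_ne_map_eq_of_card_lt_of_maps_to hlt hmaps
  rw [Sym2.eq_iff] at he
  rcases he with ⟨h, -⟩ | ⟨h1, h2⟩
  · exact htu h
  · have hu := hf2 u
    rw [← h1] at hu
    have ht := hf2 t
    rw [h2] at ht
    -- the two sides have a common terminal
    have hne : (D.sideOf S t u ∩ D.sideOf S u t).Nonempty := by
      rw [← Finset.card_pos]
      have h3 := Finset.card_union_add_card_inter (D.sideOf S t u) (D.sideOf S u t)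
      have h4 : (D.sideOf S t u ∪ D.sideOf S u t).card ≤ S.card := by
        apply Finset.card_le_card
        intro p hp
        rw [mem_union] at hp
        rcases hp with hp | hp
        · exact ((mem_sideOf D _ _ _ _).1 hp).1
        · exact ((mem_sideOf D _ _ _ _).1 hp).1
      omega
    obtain ⟨p, hp⟩ := hne
    rw [mem_inter] at hp
    simp only [mem_sideOf] at hp
    obtain ⟨⟨-, h5, j, h6, h7⟩, -, -, j', h9, h10⟩ := hp
    have hadj : D.tree.Adj t u := h2 ▸ hf1 t
    exact no_both D.isTree (D.conn p) hadj h5 h6 h9 h7 h10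

/-- Choosing a union of parts of a suitable size. -/
theorem exists_union {K : Type} [Fintype K] [DecidableEq K] (W : K → ℕ) (h a : ℕ)
    (hW : ∀ κ, 2 * W κ ≤ h) (ha : a ≤ ∑ κ, W κ) :
    ∃ A : Finset K, a ≤ ∑ κ ∈ A, W κ ∧ (2 * ∑ κ ∈ A, W κ ≤ 2 * a + h) := by
  classical
  let P : Finset (Finset K) := Finset.univ.filter (fun A => a ≤ ∑ κ ∈ A, W κ)
  have hP : P.Nonempty := ⟨Finset.univ, by simp [P, ha]⟩
  obtain ⟨A, hA1, hA2⟩ := Finset.exists_min_image P Finset.card hP
  have hA : a ≤ ∑ κ ∈ A, W κ := by simpa [P] using hA1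
  refine ⟨A, hA, ?_⟩
  rcases A.eq_empty_or_nonempty with rfl | ⟨κ, hκ⟩
  · simp
  · have h1 : ¬ a ≤ ∑ x ∈ A.erase κ, W x := by
      intro h2
      have h3 := hA2 (A.erase κ) (by simp [P, h2])
      have h4 := Finset.card_erase_lt_of_mem hκ
      omega
    have h5 := Finset.sum_erase_add A W hκ
    have h6 := hW κ
    omega

open Classical in
/-- **Balanced separations.** -/
theorem exists_separation (S : Finset (X ⊕ Fin s)) (w a : ℕ)
    (hw : ∀ i, (D.bag i).card ≤ w) (ha : 4 * a + 2 * w ≤ S.card) :
    ∃ (M : Finset (X ⊕ Fin s)) (c : X ⊕ Fin s → Bool), C.Separates M c ∧ M.card ≤ w ∧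
      (∃ i, M = D.bag i) ∧
      a ≤ {p ∈ S | p ∉ M ∧ c p = true}.card ∧ a ≤ {p ∈ S | p ∉ M ∧ c p = false}.card := by
  classical
  have := D.fin
  obtain ⟨t, ht⟩ := exists_centre D S
  set M := D.bag t with hM
  choose nd hnd using D.cover
  let comp : X ⊕ Fin s → (del D.tree t).ConnectedComponent :=
    fun p => (del D.tree t).connectedComponentMk (nd p)
  have : Fintype (del D.tree t).ConnectedComponent := Fintype.ofFinite _
  let W : (del D.tree t).ConnectedComponent → ℕ := fun κ => {p ∈ S | p ∉ M ∧ comp p = κ}.card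
  have hW : ∀ κ, 2 * W κ ≤ S.card := by
    intro κ
    rcases Finset.eq_empty_or_nonempty {p ∈ S | p ∉ M ∧ comp p = κ} with h | ⟨q, hq⟩
    · simp [W, h]
    · rw [mem_filter] at hq
      obtain ⟨hq1, hq2, hq3⟩ := hq
      have hnt : nd q ≠ t := by
        intro h
        apply hq2
        rw [hM, ← h]
        exact hnd q
      refine le_trans ?_ (ht (nd q) hnt)
      apply Nat.mul_le_mul_left
      apply Finset.card_le_card
      intro p hp
      rw [mem_filter] at hp
      rw [mem_sideOf]
      refine ⟨hp.1, hp.2.1, nd p, hnd p, ?_⟩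
      have h3 : comp q = comp p := hq3.trans hp.2.2.symm
      exact SimpleGraph.ConnectedComponent.exact h3
  have hsum : ∀ A : Finset (del D.tree t).ConnectedComponent,
      ∑ κ ∈ A, W κ = {p ∈ S | p ∉ M ∧ comp p ∈ A}.card := by
    intro A
    rw [Finset.card_eq_sum_card_fiberwise (f := comp) (t := A)]
    · refine Finset.sum_congr rfl fun κ hκ => ?_
      simp only [W]
      congr 1
      ext p
      simp only [mem_filter]
      constructor
      · rintro ⟨h1, h2, h3⟩
        exact ⟨⟨h1, h2, h3 ▸ hκ⟩, h3⟩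
      · rintro ⟨⟨h1, h2, -⟩, h3⟩
        exact ⟨h1, h2, h3⟩
    · intro p hp
      exact (mem_filter.1 hp).2.2
  have htot : S.card ≤ (∑ κ, W κ) + w := by
    rw [hsum Finset.univ]
    have h1 : S ⊆ {p ∈ S | p ∉ M ∧ comp p ∈ (Finset.univ : Finset _)} ∪ M := by
      intro p hp
      rw [mem_union, mem_filter]
      by_cases h : p ∈ M
      · exact Or.inr h
      · exact Or.inl ⟨hp, h, Finset.mem_univ _⟩
    exact (Finset.card_le_card h1).trans ((Finset.card_union_le _ _).trans
      (Nat.add_le_add_left (hw t) _))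
  obtain ⟨A, hA1, hA2⟩ := exists_union W S.card a hW (by omega)
  refine ⟨M, fun p => decide (comp p ∈ A), ?_, hw t, ⟨t, rfl⟩, ?_, ?_⟩
  · intro p q hpq hp hq
    obtain ⟨i, hi1, hi2⟩ := D.wire p q hpq
    have : comp p = comp q := by
      apply SimpleGraph.ConnectedComponent.sound
      have h1 : (del D.tree t).Reachable (nd p) i :=
        reach_of_conn (D.conn p) hp (hnd p) hi1
      have h2 : (del D.tree t).Reachable (nd q) i :=
        reach_of_conn (D.conn q) hq (hnd q) hi2
      exact h1.trans h2.symm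
    simp only [this]
  · rw [hsum] at hA1
    simpa using hA1
  · rw [hsum] at hA1 hA2
    rw [hsum Finset.univ] at htot
    have h3 : {p ∈ S | p ∉ M ∧ comp p ∈ (Finset.univ : Finset _)}.card =
        {p ∈ S | p ∉ M ∧ comp p ∈ A}.card +
          {p ∈ S | p ∉ M ∧ decide (comp p ∈ A) = false}.card := by
      rw [← Finset.card_union_of_disjoint]
      · congr 1
        ext p
        simp only [mem_filter, mem_union, Finset.mem_univ, and_true, decide_eq_false_iff_not]
        tauto
      · rw [Finset.disjoint_left]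
        intro p hp hq
        rw [mem_filter] at hp hq
        have := hq.2.2
        rw [decide_eq_false_iff_not] at this
        exact this hp.2.2
    change a ≤ {p ∈ S | p ∉ M ∧ decide (comp p ∈ A) = false}.card
    omega

end

end Pool.Agent.V7H15.Tw
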