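import Pool.Agent.V7H15.Tw.Haven
import Pool.Agent.V7H15.Tw.Sep
import Pool.Agent.V7H15.Tw.NetDefs

/-!
# Dividing a graph into many small parts
-/

set_option autoImplicit false

namespace Pool.Agent.V7H15.Tw

open Finset

theorem induce_connected {V : Type} {G : SimpleGraph V} {B : Set V} (hB : Con G B)
    (hne : B.Nonempty) : (G.induce B).Connected := by
  obtain ⟨b, hb⟩ := hne
  have : Nonempty B := ⟨⟨b, hb⟩⟩
  refine SimpleGraph.Connected.mk ?_
  rintro ⟨x, hx⟩ ⟨y, hy⟩
  have key : ∀ y (hy : y ∈ B), Link G B x y → (G.induce B).Reachable ⟨x, hx⟩ ⟨y, hy⟩ := by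
    intro y hy hxy
    have h1 : ∃ hy : y ∈ B, (G.induce B).Reachable ⟨x, hx⟩ ⟨y, hy⟩ := by
      refine hxy.closed (p := fun z => ∃ hz : z ∈ B, (G.induce B).Reachable ⟨x, hx⟩ ⟨z, hz⟩)
        ⟨hx, SimpleGraph.Reachable.refl _⟩ ?_
      rintro u v - hv huv ⟨hu, h2⟩
      refine ⟨hv, h2.trans ?_⟩
      apply SimpleGraph.Adj.reachable
      exact huv
    exact h1.2
  exact key y hy (hB x hx y hy)

/-- Choosing the size of the separator. -/
theorem exists_sqrt (h N : ℕ) (hh : 0 < h) (hN : 0 < N) :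
    ∃ r, h * N ≤ r ^ 2 ∧ (h * r) ^ 2 ≤ 4 * (h ^ 3 * N) := by
  refine ⟨Nat.sqrt (h * N) + 1, ?_, ?_⟩
  · have := Nat.lt_succ_sqrt' (h * N)
    exact this.le
  · have h1 : Nat.sqrt (h * N) ^ 2 ≤ h * N := Nat.sqrt_le' _
    have h2 : 0 < h * N := Nat.mul_pos hh hN
    have h3 : 1 ≤ Nat.sqrt (h * N) := Nat.sqrt_pos.2 h2
    have h4 : (Nat.sqrt (h * N) + 1) ^ 2 ≤ 4 * (h * N) := by nlinarith
    calc (h * (Nat.sqrt (h * N) + 1)) ^ 2 = h ^ 2 * (Nat.sqrt (h * N) + 1) ^ 2 := by ring
      _ ≤ h ^ 2 * (4 * (h * N)) := Nat.mul_le_mul_left _ h4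
      _ = 4 * (h ^ 3 * N) := by ring

section

variable {V : Type} [Fintype V] {H : SimpleGraph V}

/-- For all weights of the vertices, `w` vertices cut the graph into parts of at most half of the
weight. -/
def Halves (H : SimpleGraph V) (w : ℕ) : Prop :=
  ∀ wt : V → ℕ, ∃ M : Finset V, M.card ≤ w ∧
    ∀ B : Finset V, Disjoint B M → Con H (B : Set V) → 2 * ∑ v ∈ B, wt v ≤ ∑ v, wt v

theorem halves_of_minor (h r : ℕ) (hN : h * Fintype.card V ≤ r ^ 2) (hm : ¬ CliqueMinor H h) :
    Halves H (h * r) := by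
  classical
  intro wt
  by_contra hcon
  push Not at hcon
  apply hm
  obtain ⟨D, h1, h2, h3, h4⟩ := exists_minor H wt h r hN hcon
  refine ⟨fun i => (D i : Set V), fun i => ?_, fun i j hij => ⟨?_, ?_⟩⟩
  · exact induce_connected (h2 i) (Finset.coe_nonempty.2 (h1 i))
  · exact Finset.disjoint_coe.2 (h3 i j hij)
  · obtain ⟨x, hx, y, hy, hxy⟩ := h4 i j hij
    exact ⟨x, mem_coe.2 hx, y, mem_coe.2 hy, hxy⟩

open Classical in
/-- The vertices on the side of `i`. -/
noncomputable def TreeDec.sideOf (D : TreeDec H) (t i : D.ι) : Finset V :=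
  univ.filter (fun p => p ∉ D.bag t ∧ ∃ j, p ∈ D.bag j ∧ (del D.tree t).Reachable i j)

theorem TreeDec.mem_sideOf (D : TreeDec H) (t i : D.ι) (p : V) :
    p ∈ D.sideOf t i ↔ p ∉ D.bag t ∧ ∃ j, p ∈ D.bag j ∧ (del D.tree t).Reachable i j := by
  simp only [TreeDec.sideOf, mem_filter, mem_univ, true_and]

/-- A node such that no side contains more than half of the weight. -/
theorem TreeDec.exists_centre (D : TreeDec H) (wt : V → ℕ) (hne : Nonempty V) :
    ∃ t : D.ι, ∀ i, i ≠ t → 2 * ∑ v ∈ D.sideOf t i, wt v ≤ ∑ v, wt v := by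
  classical
  have := D.fin
  by_contra hcon
  push Not at hcon
  have hconn := D.isTree.connected
  have h1 : ∀ t : D.ι, ∃ u, D.tree.Adj t u ∧
      ∑ v, wt v < 2 * ∑ v ∈ D.sideOf t u, wt v := by
    intro t
    obtain ⟨i, hit, hi⟩ := hcon t
    obtain ⟨u, hu1, hu2⟩ := exists_first hconn hit
    refine ⟨u, hu1, ?_⟩
    have : D.sideOf t u = D.sideOf t i := by
      ext p
      simp only [TreeDec.mem_sideOf]
      refine and_congr_right fun _ => ?_
      constructor
      · rintro ⟨j, hj1, hj2⟩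
        exact ⟨j, hj1, hu2.symm.trans hj2⟩
      · rintro ⟨j, hj1, hj2⟩
        exact ⟨j, hj1, hu2.trans hj2⟩
    rw [this]
    exact hi
  choose f hf1 hf2 using h1
  have : DecidableRel D.tree.Adj := Classical.decRel _
  have hcard := D.isTree.card_edgeFinset
  have hmaps : ∀ t ∈ (Finset.univ : Finset D.ι), s(t, f t) ∈ D.tree.edgeFinset := by
    intro t _
    rw [SimpleGraph.mem_edgeFinset]
    exact hf1 t
  obtain ⟨i0, -⟩ := D.cover (Classical.choice hne)
  have hpos : 0 < Fintype.card D.ι := Fintype.card_pos_iff.2 ⟨i0⟩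
  have hlt : D.tree.edgeFinset.card < (Finset.univ : Finset D.ι).card := by
    rw [Finset.card_univ]
    omega
  obtain ⟨t, -, u, -, htu, he⟩ := Finset.exists_ne_map_eq_of_card_lt_of_maps_to hlt hmaps
  rw [Sym2.eq_iff] at he
  rcases he with ⟨h, -⟩ | ⟨h1, h2⟩
  · exact htu h
  · have hu := hf2 u
    rw [← h1] at hu
    have ht := hf2 t
    rw [h2] at ht
    have hne : ∃ z, z ∈ D.sideOf t u ∧ z ∈ D.sideOf u t := big_meet ht hu
    obtain ⟨p, hp1, hp2⟩ := hne
    rw [TreeDec.mem_sideOf] at hp1 hp2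
    obtain ⟨h5, j, h6, h7⟩ := hp1
    obtain ⟨-, j', h9, h10⟩ := hp2
    have hadj : D.tree.Adj t u := h2 ▸ hf1 t
    exact no_both D.isTree (D.conn p) hadj h5 h6 h9 h7 h10

theorem halves_of_dec (D : TreeDec H) (w : ℕ) (hw : ∀ i, (D.bag i).card ≤ w)
    (hne : Nonempty V) : Halves H w := by
  classical
  intro wt
  obtain ⟨t, ht⟩ := D.exists_centre wt hne
  refine ⟨D.bag t, hw t, ?_⟩
  intro B hB hcon
  rcases B.eq_empty_or_nonempty with rfl | ⟨v0, hv0⟩
  · simp
  · have hBt : ∀ v ∈ B, v ∉ D.bag t := fun v hv => Finset.disjoint_left.1 hB hv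
    obtain ⟨i0, hi0⟩ := D.cover v0
    have hne : i0 ≠ t := by
      rintro rfl
      exact hBt v0 hv0 hi0
    refine le_trans (Nat.mul_le_mul_left 2 (Finset.sum_le_sum_of_subset ?_)) (ht i0 hne)
    intro v hv
    rw [TreeDec.mem_sideOf]
    refine (hcon v0 (mem_coe.2 hv0) v (mem_coe.2 hv)).closed
      (p := fun z => z ∉ D.bag t ∧ ∃ j, z ∈ D.bag j ∧ (del D.tree t).Reachable i0 j)
      ⟨hBt v0 hv0, i0, hi0, SimpleGraph.Reachable.refl _⟩ ?_
    rintro x y hx hy hxy ⟨h1, j, h2, h3⟩
    obtain ⟨i, hix, hiy⟩ := D.edge x y hxy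
    have h4 : y ∉ D.bag t := hBt y (mem_coe.1 hy)
    refine ⟨h4, i, hiy, h3.trans ?_⟩
    exact reach_of_conn (D.conn x) h1 h2 hix

/-- The graph without the edges at `M`. -/
def cut (H : SimpleGraph V) (M : Finset V) : SimpleGraph V where
  Adj p q := H.Adj p q ∧ p ∉ M ∧ q ∉ M
  symm := ⟨fun _ _ h => ⟨h.1.symm, h.2.2, h.2.1⟩⟩
  loopless := ⟨fun p h => H.loopless.irrefl p h.1⟩

open Classical in
/-- The part with the given name. -/
noncomputable def part' (H : SimpleGraph V) (M : Finset V) (κ : (cut H M).ConnectedComponent) :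
    Finset V :=
  univ.filter (fun v => v ∉ M ∧ (cut H M).connectedComponentMk v = κ)

theorem mem_part' {M : Finset V} {κ : (cut H M).ConnectedComponent} {v : V} :
    v ∈ part' H M κ ↔ v ∉ M ∧ (cut H M).connectedComponentMk v = κ := by
  simp only [part', mem_filter, mem_univ, true_and]

theorem part'_con (M : Finset V) (κ : (cut H M).ConnectedComponent) :
    Con H (part' H M κ : Set V) := by
  intro x hx y hy
  rw [mem_coe, mem_part'] at hx hy
  have hxy : (cut H M).Reachable x y := SimpleGraph.ConnectedComponent.exact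
    (hx.2.trans hy.2.symm)
  obtain ⟨p⟩ := hxy
  have key : ∀ u v (q : (cut H M).Walk u v), (cut H M).connectedComponentMk u = κ → u ∉ M →
      Link H (part' H M κ : Set V) u v := by
    intro u v q
    induction q with
    | nil => exact fun _ _ => Relation.ReflTransGen.refl
    | @cons u v w huv q ih =>
      intro hu hu'
      have hv : (cut H M).connectedComponentMk v = κ := by
        rw [← hu]
        exact (SimpleGraph.ConnectedComponent.sound huv.reachable).symm
      refine (Link.single huv.1 ?_ ?_).trans' (ih hv huv.2.2)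
      · exact mem_coe.2 (mem_part'.2 ⟨hu', hu⟩)
      · exact mem_coe.2 (mem_part'.2 ⟨huv.2.2, hv⟩)
  exact key x y p hx.2 hx.1

theorem part'_disjoint (M : Finset V) (κ : (cut H M).ConnectedComponent) :
    Disjoint (part' H M κ) M := by
  rw [Finset.disjoint_left]
  intro v hv
  exact (mem_part'.1 hv).1

/-- A connected set outside `M` lies in one part. -/
theorem con_part' {M B : Finset V} (hB : Con H (B : Set V)) (hBM : Disjoint B M) {v : V}
    (hv : v ∈ B) : B ⊆ part' H M ((cut H M).connectedComponentMk v) := by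
  intro u hu
  rw [mem_part']
  refine ⟨Finset.disjoint_left.1 hBM hu, ?_⟩
  refine (hB v (mem_coe.2 hv) u (mem_coe.2 hu)).closed
    (p := fun z => (cut H M).connectedComponentMk z = (cut H M).connectedComponentMk v) rfl ?_
  intro x y hx hy hxy h
  rw [← h]
  apply SimpleGraph.ConnectedComponent.sound
  apply SimpleGraph.Adj.reachable
  exact ⟨hxy.symm, Finset.disjoint_left.1 hBM (mem_coe.1 hy),
    Finset.disjoint_left.1 hBM (mem_coe.1 hx)⟩

theorem sum_part' (wt : V → ℕ) (M : Finset V) (A : Finset (cut H M).ConnectedComponent) :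
    ∑ κ ∈ A, ∑ v ∈ part' H M κ, wt v ≤ ∑ v, wt v := by
  classical
  rw [← Finset.sum_biUnion]
  · exact Finset.sum_le_sum_of_subset (Finset.subset_univ _)
  · intro κ _ κ' _ hκ
    rw [Function.onFun, Finset.disjoint_left]
    intro v hv hv'
    exact hκ ((mem_part'.1 hv).2.symm.trans (mem_part'.1 hv').2)

/-- **Division into small parts.** -/
theorem divide {w : ℕ} (hH : Halves H w) (wt : V → ℕ) (j : ℕ) :
    ∃ M : Finset V, M.card + w ≤ 2 ^ (j + 1) * w ∧
      ∀ B : Finset V, Disjoint B M → Con H (B : Set V) →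
        2 ^ j * ∑ v ∈ B, wt v ≤ ∑ v, wt v := by
  classical
  induction j with
  | zero =>
    refine ⟨∅, by simp; omega, ?_⟩
    intro B _ _
    rw [pow_zero, one_mul]
    exact Finset.sum_le_sum_of_subset (Finset.subset_univ _)
  | succ j ih =>
    obtain ⟨M, hM1, hM2⟩ := ih
    have : Fintype (cut H M).ConnectedComponent := Fintype.ofFinite _
    let heavy : Finset (cut H M).ConnectedComponent :=
      univ.filter (fun κ => ∑ v, wt v < 2 ^ (j + 1) * ∑ v ∈ part' H M κ, wt v)
    have hheavy : heavy.card ≤ 2 ^ (j + 1) := by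
      rcases Nat.eq_zero_or_pos (∑ v, wt v) with h0 | h0
      · have : heavy = ∅ := by
          rw [Finset.eq_empty_iff_forall_notMem]
          intro κ hκ
          have h1 := (mem_filter.1 hκ).2
          have h2 : ∑ v ∈ part' H M κ, wt v ≤ ∑ v, wt v :=
            Finset.sum_le_sum_of_subset (Finset.subset_univ _)
          rw [h0] at h1 h2
          have h3 : ∑ v ∈ part' H M κ, wt v = 0 := by omega
          rw [h3] at h1
          omega
        rw [this]
        simp
      · have h1 : heavy.card * ∑ v, wt v ≤ 2 ^ (j + 1) * ∑ v, wt v := by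
          calc heavy.card * ∑ v, wt v = ∑ κ ∈ heavy, ∑ v, wt v := by
                rw [Finset.sum_const, smul_eq_mul]
            _ ≤ ∑ κ ∈ heavy, 2 ^ (j + 1) * ∑ v ∈ part' H M κ, wt v := by
                apply Finset.sum_le_sum
                intro κ hκ
                exact (mem_filter.1 hκ).2.le
            _ = 2 ^ (j + 1) * ∑ κ ∈ heavy, ∑ v ∈ part' H M κ, wt v := by
                rw [Finset.mul_sum]
            _ ≤ 2 ^ (j + 1) * ∑ v, wt v := Nat.mul_le_mul_left _ (sum_part' wt M heavy)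
        exact Nat.le_of_mul_le_mul_right h1 h0
    have hsep : ∀ κ : (cut H M).ConnectedComponent, ∃ N : Finset V, N.card ≤ w ∧
        ∀ B : Finset V, Disjoint B N → Con H (B : Set V) → B ⊆ part' H M κ →
          2 * ∑ v ∈ B, wt v ≤ ∑ v ∈ part' H M κ, wt v := by
      intro κ
      obtain ⟨N, h1, h2⟩ := hH (fun v => if v ∈ part' H M κ then wt v else 0)
      refine ⟨N, h1, fun B h3 h4 h5 => ?_⟩
      have h6 := h2 B h3 h4
      have h8 : ∑ v ∈ B, (if v ∈ part' H M κ then wt v else 0) = ∑ v ∈ B, wt v := by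
        apply Finset.sum_congr rfl
        intro v hv
        rw [if_pos (h5 hv)]
      rw [h8, Finset.sum_ite_mem, Finset.univ_inter] at h6
      exact h6
    choose N hN1 hN2 using hsep
    refine ⟨M ∪ heavy.biUnion N, ?_, ?_⟩
    · have h1 : (heavy.biUnion N).card ≤ heavy.card * w :=
        Finset.card_biUnion_le_card_mul _ _ _ (fun κ _ => hN1 κ)
      have h2 : heavy.card * w ≤ 2 ^ (j + 1) * w := Nat.mul_le_mul_right w hheavy
      have h3 := Finset.card_union_le M (heavy.biUnion N)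
      have h4 : 2 ^ (j + 1 + 1) * w = 2 ^ (j + 1) * w + 2 ^ (j + 1) * w := by ring
      omega
    · intro B hB hcon
      rcases B.eq_empty_or_nonempty with rfl | ⟨v0, hv0⟩
      · simp
      · rw [Finset.disjoint_union_right] at hB
        have hsub := con_part' hcon hB.1 hv0
        set κ := (cut H M).connectedComponentMk v0 with hκ
        by_cases hh : κ ∈ heavy
        · have h1 : Disjoint B (N κ) := by
            refine hB.2.mono_right ?_
            intro v hv
            exact mem_biUnion.2 ⟨κ, hh, hv⟩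
          have h2 := hN2 κ B h1 hcon hsub
          have h3 := hM2 (part' H M κ) (part'_disjoint M κ) (part'_con M κ)
          calc 2 ^ (j + 1) * ∑ v ∈ B, wt v = 2 ^ j * (2 * ∑ v ∈ B, wt v) := by ring
            _ ≤ 2 ^ j * ∑ v ∈ part' H M κ, wt v := Nat.mul_le_mul_left _ h2
            _ ≤ ∑ v, wt v := h3
        · have h1 : 2 ^ (j + 1) * ∑ v ∈ part' H M κ, wt v ≤ ∑ v, wt v := by
            by_contra h2
            exact hh (mem_filter.2 ⟨mem_univ _, not_le.1 h2⟩)
          exact le_trans (Nat.mul_le_mul_left _ (Finset.sum_le_sum_of_subset hsub)) h1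

end

end Pool.Agent.V7H15.Tw
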