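import Pool.Agent.V7H15.Tw.Upper
import Pool.Agent.H545R2.HamCore
import Pool.Agent.V7H15.Tw.Bits

/-!
# Circuits with existential guesses of small treewidth
-/

set_option autoImplicit false

namespace Pool.Agent.V7H15.Tw

open Finset

section run

variable {X : Type} {s : ℕ}

/-- Every input has a run with prescribed values of the guess gates. -/
theorem exists_run' (C : Circuit X s) (z : X → Bool) (a : Fin s → Bool) :
    ∃ v, C.Run z v ∧ ∀ g, C.kind g = .guess → v (.inr g) = a g := by
  classical
  have key : ∀ m ≤ s, ∃ v : X ⊕ Fin s → Bool, (∀ x, v (.inl x) = z x) ∧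
      (∀ g : Fin s, g.val < m → C.Rule v g) ∧
      ∀ g : Fin s, g.val < m → C.kind g = .guess → v (.inr g) = a g := by
    intro m
    induction m with
    | zero =>
      intro _
      exact ⟨Sum.elim z (fun _ => false), fun x => rfl, fun g hg => absurd hg (Nat.not_lt_zero _),
        fun g hg => absurd hg (Nat.not_lt_zero _)⟩
    | succ m ih =>
      intro hm
      obtain ⟨v, hv1, hv2, hv3⟩ := ih (by omega)
      let g0 : Fin s := ⟨m, by omega⟩
      let v' : X ⊕ Fin s → Bool := fun p =>
        if p = .inr g0 then (if C.kind g0 = .guess then a g0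
          else xor (C.neg g0) (agg (C.kind g0) v (C.wires g0))) else v p
      have hinl : ∀ x, v' (.inl x) = v (.inl x) := by
        intro x
        simp only [v', reduceCtorEq, if_false]
      have hne : ∀ g : Fin s, g.val < m → v' (.inr g) = v (.inr g) := by
        intro g hg
        have : g ≠ g0 := by
          rintro rfl
          exact absurd hg (lt_irrefl _)
        simp only [v', Sum.inr.injEq, this, if_false]
      have hsrc : ∀ g : Fin s, g.val ≤ m → ∀ p ∈ C.wires g, v' p.1 = v p.1 := by
        intro g hg p hp
        rcases p with ⟨x | h, b⟩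
        · exact hinl x
        · have h1 := C.acyclic g h b hp
          exact hne h (by have : h.val < g.val := h1; omega)
      refine ⟨v', fun x => (hinl x).trans (hv1 x), ?_, ?_⟩
      · intro g hg
        rw [rule_iff]
        rcases Nat.lt_or_ge g.val m with h1 | h1
        · rcases (rule_iff C v g).1 (hv2 g h1) with h2 | h2
          · exact Or.inl h2
          · right
            rw [hne g h1, h2, agg_congr _ _ _ _ (fun p hp => hsrc g h1.le p hp)]
        · have : g = g0 := Fin.ext (by simp only [g0]; omega)
          subst this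
          by_cases hk : C.kind g0 = .guess
          · exact Or.inl hk
          · right
            rw [agg_congr _ _ _ _ (fun p hp => hsrc g0 le_rfl p hp)]
            simp only [v', if_true, if_neg hk]
      · intro g hg hk
        rcases Nat.lt_or_ge g.val m with h1 | h1
        · rw [hne g h1]
          exact hv3 g h1 hk
        · have : g = g0 := Fin.ext (by simp only [g0]; omega)
          subst this
          simp only [v', if_true, if_pos hk]
  obtain ⟨v, h1, h2, h3⟩ := key s le_rfl
  exact ⟨v, ⟨h1, fun g => h2 g g.isLt⟩, fun g hg => h3 g g.isLt hg⟩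

end run

/-- A numbering that respects a rank function. -/
theorem exists_mono (Γ : Type) [Fintype Γ] (rk : Γ → ℕ) :
    ∃ (s : ℕ) (e : Γ ≃ Fin s), ∀ a b, rk a < rk b → e a < e b := by
  classical
  let e0 := Fintype.equivFin Γ
  let f : Γ → ℕ ×ₗ Fin (Fintype.card Γ) := fun a => toLex (rk a, e0 a)
  have hf : Function.Injective f := by
    intro a b h
    have h1 : (rk a, e0 a) = (rk b, e0 b) := toLex.injective h
    exact e0.injective (Prod.ext_iff.1 h1).2
  let _ : LinearOrder Γ := LinearOrder.lift' f hf
  refine ⟨Fintype.card Γ, (monoEquivOfFin Γ rfl).symm.toEquiv, ?_⟩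
  intro a b hab
  have h1 : a < b := by
    change f a < f b
    rw [Prod.Lex.lt_iff]
    exact Or.inl hab
  exact (monoEquivOfFin Γ rfl).symm.lt_iff_lt.2 h1

/-- A rooted tree given by parents is a tree. -/
theorem isTree_parent {ι : Type} [Fintype ι] (r : ι) (p : ι → ι) (rk : ι → ℕ)
    (h : ∀ i, i ≠ r → rk (p i) < rk i) :
    (SimpleGraph.fromRel (fun i j => i ≠ r ∧ j = p i)).IsTree := by
  classical
  set T := SimpleGraph.fromRel (fun i j => i ≠ r ∧ j = p i) with hT
  have hadj : ∀ i, i ≠ r → T.Adj i (p i) := by
    intro i hi
    rw [hT, SimpleGraph.fromRel_adj]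
    refine ⟨?_, Or.inl ⟨hi, rfl⟩⟩
    intro h1
    have := h i hi
    rw [← h1] at this
    exact absurd this (lt_irrefl _)
  have hreach : ∀ m i, rk i ≤ m → T.Reachable i r := by
    intro m
    induction m with
    | zero =>
      intro i hi
      by_cases h1 : i = r
      · rw [h1]
      · have := h i h1
        omega
    | succ m ih =>
      intro i hi
      by_cases h1 : i = r
      · rw [h1]
      · exact (hadj i h1).reachable.trans (ih (p i) (by have := h i h1; omega))
  have hconn : T.Connected := by
    have : Nonempty ι := ⟨r⟩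
    exact ⟨fun i j => (hreach _ i le_rfl).trans (hreach _ j le_rfl).symm⟩
  rw [SimpleGraph.isTree_iff_connected_and_card]
  refine ⟨hconn, le_antisymm ?_ ?_⟩
  · have h1 : T.edgeSet ⊆ ((univ.erase r).image (fun i => s(i, p i)) : Finset (Sym2 ι)) := by
      intro e
      induction e using Sym2.ind with
      | _ i j =>
        intro he
        rw [SimpleGraph.mem_edgeSet, hT, SimpleGraph.fromRel_adj] at he
        rw [mem_coe, mem_image]
        rcases he.2 with ⟨h1, h2⟩ | ⟨h1, h2⟩
        · exact ⟨i, mem_erase.2 ⟨h1, mem_univ _⟩, by rw [h2]⟩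
        · exact ⟨j, mem_erase.2 ⟨h1, mem_univ _⟩, by rw [h2, Sym2.eq_swap]⟩
    have h2 : Nat.card T.edgeSet ≤ ((univ.erase r).image (fun i => s(i, p i))).card := by
      rw [← Set.ncard_coe_finset]
      exact Set.ncard_le_ncard h1 (Finset.finite_toSet _)
    have h3 : ((univ.erase r).image (fun i => s(i, p i))).card ≤ (univ.erase r).card :=
      Finset.card_image_le
    rw [Finset.card_erase_of_mem (mem_univ r), Finset.card_univ] at h3
    have h4 : 0 < Fintype.card ι := Fintype.card_pos_iff.2 ⟨r⟩
    rw [Nat.card_eq_fintype_card (α := ι)]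
    omega
  · exact hconn.card_vert_le_card_edgeSet_add_one

section circ

variable (X : Type) (N : ℕ)

/-- The gates. -/
inductive Ga : Type
  | guess (i : Fin N)
  | con (x : X) (a : Fin N → Bool)
  | dis (x : X)
  | out

variable {X N}

/-- The rank. -/
def Ga.rk : Ga X N → ℕ
  | .guess _ => 0
  | .con _ _ => 1
  | .dis _ => 2
  | .out => 3

/-- The gates as a sum. -/
def gaEquiv : Ga X N ≃ (Fin N ⊕ X × (Fin N → Bool)) ⊕ (X ⊕ Unit) where
  toFun
    | .guess i => .inl (.inl i)
    | .con x a => .inl (.inr (x, a))
    | .dis x => .inr (.inl x)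
    | .out => .inr (.inr ())
  invFun
    | .inl (.inl i) => .guess i
    | .inl (.inr (x, a)) => .con x a
    | .inr (.inl x) => .dis x
    | .inr (.inr ()) => .out
  left_inv g := by cases g <;> rfl
  right_inv g := by rcases g with (i | ⟨x, a⟩) | (x | _) <;> rfl

instance [Fintype X] [DecidableEq X] : Fintype (Ga X N) := Fintype.ofEquiv _ gaEquiv.symm

variable [Fintype X] [DecidableEq X] {s : ℕ} (e : Ga X N ≃ Fin s)
  (he : ∀ a b, Ga.rk a < Ga.rk b → e a < e b) (P : X → (Fin N → Bool) → Prop)

/-- The wires. -/
noncomputable def gaWires (P : X → (Fin N → Bool) → Prop) : Ga X N → Finset ((X ⊕ Fin s) × Bool) :=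
  open Classical in
  fun g => match g with
  | .guess _ => ∅
  | .con _ a => univ.image (fun i => (.inr (e (.guess i)), !a i))
  | .dis x => {(.inl x, true)} ∪
      (univ.filter (fun a => P x a)).image (fun a => (.inr (e (.con x a)), true))
  | .out => univ.image (fun x => (.inr (e (.dis x)), false))

/-- The circuit: there is an assignment `a` such that `z x` or `P x a` for every `x`. -/
noncomputable def gaCircuit : Circuit X s where
  kind g := match e.symm g with
    | .guess _ => .guess
    | _ => .and
  neg g := match e.symm g with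
    | .dis _ => true
    | _ => false
  wires g := gaWires e P (e.symm g)
  acyclic := by
    classical
    intro g h b hb
    have hlt : ∀ γ : Ga X N, h = e γ → Ga.rk γ < Ga.rk (e.symm g) → h < g := by
      intro γ h1 h2
      have h3 := he _ _ h2
      rw [e.apply_symm_apply] at h3
      rwa [h1]
    cases hg : e.symm g with
    | guess i => rw [hg] at hb; simp [gaWires] at hb
    | con x a =>
      rw [hg] at hb
      simp only [gaWires, mem_image, mem_univ, true_and, Prod.mk.injEq, Sum.inr.injEq] at hb
      obtain ⟨i, h1, -⟩ := hb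
      exact hlt _ h1.symm (by rw [hg]; simp [Ga.rk])
    | dis x =>
      rw [hg] at hb
      simp only [gaWires, mem_union, mem_singleton, Prod.mk.injEq, reduceCtorEq, false_and,
        mem_image, mem_filter, mem_univ, true_and, Sum.inr.injEq, false_or] at hb
      obtain ⟨a, -, h1, -⟩ := hb
      exact hlt _ h1.symm (by rw [hg]; simp [Ga.rk])
    | out =>
      rw [hg] at hb
      simp only [gaWires, mem_image, mem_univ, true_and, Prod.mk.injEq, Sum.inr.injEq] at hb
      obtain ⟨i, h1, -⟩ := hb
      exact hlt _ h1.symm (by rw [hg]; simp [Ga.rk])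

theorem ga_run (z : X → Bool) (v : X ⊕ Fin s → Bool) (hv : (gaCircuit e he P).Run z v) :
    v (.inr (e .out)) = true ↔
      ∀ x, z x = true ∨ P x (fun i => v (.inr (e (.guess i)))) := by
  classical
  obtain ⟨h1, h2⟩ := hv
  have hcon : ∀ x a, v (.inr (e (.con x a))) = true ↔ a = fun i => v (.inr (e (.guess i))) := by
    intro x a
    have h3 := (rule_iff _ _ _).1 (h2 (e (.con x a)))
    simp only [gaCircuit, e.symm_apply_apply, reduceCtorEq, false_or, gaWires, agg,
      Bool.false_xor, mem_image, mem_univ, true_and, forall_exists_index,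
      forall_apply_eq_imp_iff] at h3
    rw [h3, decide_eq_true_eq]
    constructor
    · intro h
      funext i
      have := h i
      cases h4 : a i <;> cases h5 : v (.inr (e (.guess i))) <;> simp_all
    · intro h i
      have h' : a i = v (.inr (e (.guess i))) := by rw [h]
      rw [h']
      cases v (.inr (e (.guess i))) <;> rfl
  have hdis : ∀ x, v (.inr (e (.dis x))) = true ↔
      (z x = true ∨ P x (fun i => v (.inr (e (.guess i))))) := by
    intro x
    have h3 := (rule_iff _ _ _).1 (h2 (e (.dis x)))
    simp only [gaCircuit, e.symm_apply_apply, reduceCtorEq, false_or, gaWires, agg,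
      Bool.true_xor] at h3
    rw [h3]
    simp only [Bool.not_eq_true', decide_eq_false_iff_not]
    push Not
    constructor
    · rintro ⟨q, hq, hq'⟩
      rw [mem_union, mem_singleton, mem_image] at hq
      rcases hq with rfl | ⟨a, ha, rfl⟩
      · left
        simp only [h1] at hq'
        cases hz : z x <;> simp_all
      · right
        simp only [mem_filter, mem_univ, true_and] at ha
        have h4 : v (.inr (e (.con x a))) = true := by
          cases h5 : v (.inr (e (.con x a))) <;> simp_all
        rw [hcon] at h4
        rwa [← h4]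
    · rintro (h | h)
      · exact ⟨(.inl x, true), by simp, by simp [h1, h]⟩
      · refine ⟨(.inr (e (.con x _)), true), mem_union_right _ (mem_image.2
          ⟨_, mem_filter.2 ⟨mem_univ _, h⟩, rfl⟩), ?_⟩
        rw [(hcon x _).2 rfl]
        simp
  have h3 := (rule_iff _ _ _).1 (h2 (e .out))
  simp only [gaCircuit, e.symm_apply_apply, reduceCtorEq, false_or, gaWires, agg,
    Bool.false_xor, mem_image, mem_univ, true_and, forall_exists_index,
    forall_apply_eq_imp_iff, Bool.xor_false] at h3
  rw [h3, decide_eq_true_eq]
  exact forall_congr' fun x => hdis x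

/-- The parent of a node. -/
def par : Option (X × Option (Fin N → Bool)) → Option (X × Option (Fin N → Bool))
  | none => none
  | some (_, none) => none
  | some (x, some _) => some (x, none)

/-- The tree. -/
def tr : SimpleGraph (Option (X × Option (Fin N → Bool))) :=
  SimpleGraph.fromRel (fun i j => i ≠ none ∧ j = par i)

theorem tr_isTree : (tr : SimpleGraph (Option (X × Option (Fin N → Bool)))).IsTree := by
  classical
  apply isTree_parent none par (fun i => match i with
    | none => 0
    | some (_, none) => 1
    | some (_, some _) => 2)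
  rintro (_ | ⟨x, _ | a⟩) h
  · exact absurd rfl h
  · simp [par]
  · simp [par]

/-- The guess gates. -/
def gs : Finset (X ⊕ Fin s) := open Classical in univ.image (fun i => .inr (e (.guess i)))

theorem ga_tree : ∃ D : TreeDecomposition (gaCircuit e he P),
    ∀ i, (D.bag i).card ≤ N + 3 := by
  classical
  let bag : Option (X × Option (Fin N → Bool)) → Finset (X ⊕ Fin s) := fun t =>
    gs e ∪ match t with
    | none => {.inr (e .out)}
    | some (x, none) => {.inr (e .out), .inr (e (.dis x)), .inl x}
    | some (x, some a) => {.inr (e (.dis x)), .inr (e (.con x a))}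
  have hadj1 : ∀ x : X, (tr (N := N)).Adj (some (x, none)) none := by
    intro x
    rw [tr, SimpleGraph.fromRel_adj]
    exact ⟨by simp, Or.inl ⟨by simp, rfl⟩⟩
  have hadj2 : ∀ (x : X) (a : Fin N → Bool), (tr (N := N)).Adj (some (x, some a))
      (some (x, none)) := by
    intro x a
    rw [tr, SimpleGraph.fromRel_adj]
    exact ⟨by simp, Or.inl ⟨by simp, rfl⟩⟩
  -- a set of nodes with a centre is connected
  have hstar : ∀ (S : Set (Option (X × Option (Fin N → Bool)))) (t0 : _) (h0 : t0 ∈ S),
      (∀ t, t ∈ S → t = t0 ∨ (tr (N := N)).Adj t t0) → (tr.induce S).Preconnected := by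
    intro S t0 h0 h
    have h1 : ∀ t : S, (tr.induce S).Reachable t ⟨t0, h0⟩ := by
      rintro ⟨t, ht⟩
      rcases h t ht with rfl | h2
      · exact SimpleGraph.Reachable.refl _
      · have : (tr.induce S).Adj ⟨t, ht⟩ ⟨t0, h0⟩ := h2
        exact this.reachable
    intro a b
    exact (h1 a).trans (h1 b).symm
  have hall : ∀ S : Set (Option (X × Option (Fin N → Bool))), (∀ i, i ∈ S) →
      (tr.induce S).Preconnected := by
    intro S hS
    rintro ⟨i, hi⟩ ⟨j, hj⟩
    let f : (tr : SimpleGraph (Option (X × Option (Fin N → Bool)))) →g tr.induce S :=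
      { toFun := fun i => ⟨i, hS i⟩, map_rel' := fun h => h }
    exact (tr_isTree.connected i j).map f
  have hgs : ∀ g : Ga X N, (∃ i, g = .guess i) → ∀ t, (.inr (e g) : X ⊕ Fin s) ∈ bag t := by
    rintro g ⟨i, rfl⟩ t
    exact mem_union_left _ (mem_image_of_mem _ (mem_univ i))
  have hnogs : ∀ g : Ga X N, (∀ i, g ≠ .guess i) → (.inr (e g) : X ⊕ Fin s) ∉ gs e := by
    intro g hg h
    simp only [gs, mem_image, mem_univ, true_and, Sum.inr.injEq, EmbeddingLike.apply_eq_iff_eq] at h
    obtain ⟨i, h⟩ := h
    exact hg i h.symm
  have hnogs' : ∀ x : X, (.inl x : X ⊕ Fin s) ∉ gs e := by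
    intro x h
    simp [gs] at h
  refine ⟨{ ι := Option (X × Option (Fin N → Bool)), fin := inferInstance, tree := tr,
            isTree := tr_isTree, bag := bag, cover := ?_, wire := ?_, conn := ?_ }, ?_⟩
  · rintro (x | g)
    · exact ⟨some (x, none), by simp [bag]⟩
    · obtain ⟨g, rfl⟩ := e.surjective g
      cases g with
      | guess i => exact ⟨none, hgs (.guess i) ⟨i, rfl⟩ none⟩
      | con x a => exact ⟨some (x, some a), by simp [bag]⟩
      | dis x => exact ⟨some (x, none), by simp [bag]⟩
      | out => exact ⟨none, by simp [bag]⟩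
  · rintro p q ⟨g, rfl, b, hb⟩
    obtain ⟨g, rfl⟩ := e.surjective g
    have hb' : (p, b) ∈ gaWires e P g := by
      simp only [gaCircuit, e.symm_apply_apply] at hb
      exact hb
    cases g with
    | guess i => simp [gaWires] at hb'
    | con x a =>
      simp only [gaWires, mem_image, mem_univ, true_and, Prod.mk.injEq] at hb'
      obtain ⟨i, rfl, -⟩ := hb'
      exact ⟨some (x, some a), hgs (.guess i) ⟨i, rfl⟩ (some (x, some a)), by simp [bag]⟩
    | dis x =>
      simp only [gaWires, mem_union, mem_singleton, Prod.mk.injEq, mem_image, mem_filter,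
        mem_univ, true_and] at hb'
      rcases hb' with ⟨rfl, -⟩ | ⟨a, -, rfl, -⟩
      · exact ⟨some (x, none), by simp [bag], by simp [bag]⟩
      · exact ⟨some (x, some a), by simp [bag], by simp [bag]⟩
    | out =>
      simp only [gaWires, mem_image, mem_univ, true_and, Prod.mk.injEq] at hb'
      obtain ⟨x, rfl, -⟩ := hb'
      exact ⟨some (x, none), by simp [bag], by simp [bag]⟩
  · rintro (x | g)
    · apply hstar _ (some (x, none)) (by simp [bag])
      rintro (_ | ⟨y, _ | a⟩) ht
      · simp [bag, hnogs'] at ht
      · simp only [bag, Set.mem_ofPred_eq, mem_union, hnogs', mem_insert, reduceCtorEq,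
          mem_singleton, false_or, Sum.inl.injEq] at ht
        left; rw [ht]
      · simp [bag, hnogs'] at ht
    · obtain ⟨g, rfl⟩ := e.surjective g
      cases g with
      | guess i => exact hall _ (fun t => hgs _ ⟨i, rfl⟩ t)
      | con x a =>
        have h0 := hnogs (.con x a) (by simp)
        apply hstar _ (some (x, some a)) (by simp [bag])
        rintro (_ | ⟨y, _ | a'⟩) ht
        · simp [bag, h0] at ht
        · simp [bag, h0] at ht
        · simp only [bag, Set.mem_ofPred_eq, mem_union, h0, mem_insert, Sum.inr.injEq,
            EmbeddingLike.apply_eq_iff_eq, reduceCtorEq, mem_singleton, false_or,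
            Ga.con.injEq] at ht
          left; rw [ht.1, ht.2]
      | dis x =>
        have h0 := hnogs (.dis x) (by simp)
        apply hstar _ (some (x, none)) (by simp [bag])
        rintro (_ | ⟨y, _ | a'⟩) ht
        · simp [bag, h0] at ht
        · simp only [bag, Set.mem_ofPred_eq, mem_union, h0, mem_insert, Sum.inr.injEq,
            EmbeddingLike.apply_eq_iff_eq, reduceCtorEq, mem_singleton, false_or, or_false,
            Ga.dis.injEq] at ht
          left; rw [ht]
        · simp only [bag, Set.mem_ofPred_eq, mem_union, h0, mem_insert, Sum.inr.injEq,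
            EmbeddingLike.apply_eq_iff_eq, reduceCtorEq, mem_singleton, false_or, or_false,
            Ga.dis.injEq] at ht
          right; rw [ht]; exact hadj2 _ _
      | out =>
        have h0 := hnogs (.out) (by simp)
        apply hstar _ none (by simp [bag])
        rintro (_ | ⟨y, _ | a'⟩) ht
        · exact Or.inl rfl
        · exact Or.inr (hadj1 _)
        · simp [bag, h0] at ht
  · intro t
    have h1 : (gs e : Finset (X ⊕ Fin s)).card ≤ N := by
      refine (Finset.card_image_le).trans ?_
      rw [Finset.card_univ, Fintype.card_fin]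
    refine (Finset.card_union_le _ _).trans ?_
    rcases t with _ | ⟨y, _ | a'⟩
    · simp only [card_singleton]
      omega
    · have := Finset.card_le_three (a := (.inr (e .out) : X ⊕ Fin s)) (b := .inr (e (.dis y)))
        (c := .inl y)
      simp only
      omega
    · have := Finset.card_le_two (a := (.inr (e (.dis y)) : X ⊕ Fin s)) (b := .inr (e (.con y a')))
      simp only
      omega

end circ

/-- **Upper bound with existential guesses.** -/
theorem upper_exists {X W : Type} [Fintype X] [DecidableEq X] [Fintype W] [Nonempty W] (N : ℕ)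
    (hN : Fintype.card W ≤ 2 ^ N) (P : X → W → Prop) :
    ∃ (s : ℕ) (C : Circuit X s) (out : X ⊕ Fin s),
      (∀ z : X → Bool, (∃ w, ∀ x, z x = true ∨ P x w) ↔ ∃ v, C.Run z v ∧ v out = true) ∧
      ∃ D : TreeDecomposition C, ∀ i, (D.bag i).card ≤ N + 3 := by
  classical
  obtain ⟨φ, hφ⟩ : ∃ φ : (Fin N → Bool) → W, Function.Surjective φ := by
    have h1 : Fintype.card W ≤ Fintype.card (Fin N → Bool) := by
      rw [Fintype.card_fun, Fintype.card_bool, Fintype.card_fin]
      exact hN
    obtain ⟨f⟩ := Function.Embedding.nonempty_of_card_le h1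
    exact ⟨Function.invFun f, Function.invFun_surjective f.injective⟩
  obtain ⟨s, e, he⟩ := exists_mono (Ga X N) Ga.rk
  refine ⟨s, gaCircuit e he (fun x a => P x (φ a)), .inr (e .out), ?_, ga_tree _ _ _⟩
  intro z
  constructor
  · rintro ⟨w, hw⟩
    obtain ⟨a, rfl⟩ := hφ w
    obtain ⟨v, hv1, hv2⟩ := exists_run' (gaCircuit e he (fun x a => P x (φ a))) z
      (fun g => match e.symm g with
        | .guess i => a i
        | _ => false)
    refine ⟨v, hv1, ?_⟩
    rw [ga_run e he _ z v hv1]
    have ha : (fun i => v (.inr (e (.guess i)))) = a := by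
      funext i
      rw [hv2]
      · simp only [e.symm_apply_apply]
      · simp only [gaCircuit, e.symm_apply_apply]
    rw [ha]
    exact hw
  · rintro ⟨v, hv1, hv2⟩
    rw [ga_run e he _ z v hv1] at hv2
    exact ⟨_, hv2⟩

end Pool.Agent.V7H15.Tw
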