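import Pool.Agent.H545R2.HamCore

/-!
# Hamilton paths of parts of a graph
-/

set_option autoImplicit false

namespace Pool.Agent.V7H15.Tw

variable {V : Type} {G : SimpleGraph V}

/-- There is a path in `G` from `u` to `v` whose vertices are the elements of `S`. -/
def HP (G : SimpleGraph V) (S : Set V) (u v : V) : Prop :=
  ∃ L : List V, L.head? = some u ∧ L.getLast? = some v ∧ L.Nodup ∧ (∀ x, x ∈ L ↔ x ∈ S) ∧
    L.IsChain G.Adj

theorem HP.single (u : V) : HP G {u} u u :=
  ⟨[u], rfl, rfl, List.nodup_singleton u, fun x => by simp, List.isChain_singleton u⟩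

theorem HP.symm {S : Set V} {u v : V} (h : HP G S u v) : HP G S v u := by
  obtain ⟨L, h1, h2, h3, h4, h5⟩ := h
  refine ⟨L.reverse, by simpa using h2, by simpa using h1, List.nodup_reverse.2 h3,
    fun x => by rw [List.mem_reverse]; exact h4 x, ?_⟩
  rw [List.isChain_reverse]
  exact h5.imp fun a b hab => hab.symm

theorem HP.congr {S T : Set V} {u v : V} (h : HP G S u v) (hST : ∀ x, x ∈ S ↔ x ∈ T) :
    HP G T u v := by
  obtain ⟨L, h1, h2, h3, h4, h5⟩ := h
  exact ⟨L, h1, h2, h3, fun x => (h4 x).trans (hST x), h5⟩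

theorem HP.append {S T : Set V} {u v u' v' : V} (h : HP G S u v) (h' : HP G T u' v')
    (hadj : G.Adj v u') (hd : ∀ x, x ∈ S → x ∉ T) : HP G (S ∪ T) u v' := by
  obtain ⟨L, h1, h2, h3, h4, h5⟩ := h
  obtain ⟨L', h1', h2', h3', h4', h5'⟩ := h'
  refine ⟨L ++ L', ?_, ?_, ?_, ?_, ?_⟩
  · rw [List.head?_append, h1]; rfl
  · rw [List.getLast?_append, h2']; rfl
  · rw [List.nodup_append']
    refine ⟨h3, h3', ?_⟩
    intro x hx hx'
    exact hd x ((h4 x).1 hx) ((h4' x).1 hx')
  · intro x
    rw [List.mem_append, h4, h4']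
    rfl
  · rw [List.isChain_append]
    refine ⟨h5, h5', ?_⟩
    intro x hx y hy
    rw [h2] at hx
    rw [h1'] at hy
    simp only [Option.mem_def, Option.some.injEq] at hx hy
    subst hx; subst hy
    exact hadj

theorem HP.snoc {S : Set V} {u v w : V} (h : HP G S u v) (hadj : G.Adj v w) (hw : w ∉ S) :
    HP G (S ∪ {w}) u w :=
  h.append (HP.single w) hadj (fun x hx hxw => hw (by rw [← Set.mem_singleton_iff.1 hxw]; exact hx))

/-- A Hamilton path with adjacent ends gives a Hamilton cycle. -/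
theorem HP.ham [Fintype V] [DecidableEq V] {S : Set V} {u v : V} (h : HP G S u v)
    (hS : ∀ x, x ∈ S) (hadj : G.Adj v u) (hcard : 3 ≤ Fintype.card V) : G.IsHamiltonian := by
  obtain ⟨L, h1, h2, h3, h4, h5⟩ := h
  have hmem : ∀ x, x ∈ L := fun x => (h4 x).2 (hS x)
  refine Pool.Agent.H545R2.isHamiltonian_of_list L h3 hmem ?_ h5 ?_
  · have h6 : L.toFinset = Finset.univ := by
      ext x; simp [hmem x]
    have h7 := List.toFinset_card_of_nodup h3
    rw [h6, Finset.card_univ] at h7
    omega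
  · intro x hx y hy
    rw [h2] at hx
    rw [h1] at hy
    simp only [Option.mem_def, Option.some.injEq] at hx hy
    subst hx; subst hy
    exact hadj

/-- Appending consecutive blocks. -/
theorem HP.extend (B : ℕ → Set V) (a pre : ℕ → V) (lo hi : ℕ)
    (hB : ∀ l, lo ≤ l → l < hi → HP G (B l) (a l) (pre (l + 1)))
    (hadj : ∀ l, lo ≤ l → l < hi → G.Adj (pre l) (a l)) {S0 : Set V} {u : V}
    (hd0 : ∀ l, lo ≤ l → l < hi → ∀ x, x ∈ S0 → x ∉ B l)
    (hd : ∀ l l', lo ≤ l → l < l' → l' < hi → ∀ x, x ∈ B l → x ∉ B l')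
    (h0 : HP G S0 u (pre lo)) (hle : lo ≤ hi) :
    HP G (S0 ∪ {v | ∃ l, lo ≤ l ∧ l < hi ∧ v ∈ B l}) u (pre hi) := by
  induction hi, hle using Nat.le_induction with
  | base =>
    refine h0.congr fun x => ?_
    constructor
    · exact fun h => Or.inl h
    · rintro (h | ⟨l, h1, h2, -⟩)
      · exact h
      · omega
  | succ m hm ih =>
    have ih' := ih (fun l h1 h2 => hB l h1 (by omega)) (fun l h1 h2 => hadj l h1 (by omega))
      (fun l h1 h2 => hd0 l h1 (by omega)) (fun l l' h1 h2 h3 => hd l l' h1 h2 (by omega))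
    have h1 := ih'.append (hB m hm (by omega)) (hadj m hm (by omega)) (by
      rintro x (hx | ⟨l, h1, h2, h3⟩)
      · exact hd0 m hm (by omega) x hx
      · exact hd l m h1 h2 (by omega) x h3)
    refine h1.congr fun x => ?_
    constructor
    · rintro ((h | ⟨l, h1, h2, h3⟩) | h)
      · exact Or.inl h
      · exact Or.inr ⟨l, h1, by omega, h3⟩
      · exact Or.inr ⟨m, hm, by omega, h⟩
    · rintro (h | ⟨l, h1, h2, h3⟩)
      · exact Or.inl (Or.inl h)
      · rcases Nat.lt_or_ge l m with h4 | h4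
        · exact Or.inl (Or.inr ⟨l, h1, h4, h3⟩)
        · have : l = m := by omega
          subst this
          exact Or.inr h3

end Pool.Agent.V7H15.Tw
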