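import Pool.Agent.V7H70.Ham.Cyc
import Pool.Agent.V7H15.Tw.Path

/-!
# A graph that has a Hamilton cycle if and only if two relations intersect

For relations `x`, `y` between `Fin k` and `Fin k` the graph `Gr x y` has `15 k + 2 + p` vertices. It
contains the edge `a i - c j` if `x i j`, the edge `b i - d j` if `y i j`, and other edges that do
not depend on `x` and `y`. It has a Hamilton cycle if and only if `x i j` and `y i j` for some
`i` and `j`.
-/

set_option autoImplicit false

namespace Pool.Agent.V7H15.Tw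

open Pool.Agent.V7H70.Ham (U exists_other)

/-- The vertices. -/
inductive Vx (k p : ℕ) : Type
  | g (i : Fin k) (r : Fin 9)
  | a (i : Fin k)
  | b (i : Fin k)
  | z (i : Fin k)
  | c (i : Fin k)
  | d (i : Fin k)
  | w (i : Fin k)
  | q (r : Fin p)
  | ys
  | yt
  deriving DecidableEq

/-- edges of the gadget -/
def gad (r r' : Fin 9) : Prop :=
  r'.val = r.val + 1 ∨ (r.val = 8 ∧ r'.val = 3) ∨ (r.val = 5 ∧ r'.val = 0)

variable {k p : ℕ}

/-- The edges, directed. -/
def E (x y : Fin k → Fin k → Prop) : Vx k p → Vx k p → Prop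
  | .g i r, .g i' r' => i = i' ∧ gad r r'
  | .a i, .g i' r => i = i' ∧ r.val = 0
  | .g i r, .b i' => i = i' ∧ r.val = 8
  | .b i, .z i' => i = i'
  | .z i, .a i' => i.val + 1 = i'.val
  | .z i, .yt => i.val + 1 = k
  | .ys, .g _ r => r.val = 6
  | .yt, .g _ r => r.val = 2
  | .ys, .q r => r.val = 0
  | .q r, .q r' => r.val + 1 = r'.val
  | .q r, .a i => r.val + 1 = p ∧ i.val = 0
  | .c j, .d j' => j = j'
  | .d j, .w j' => j = j'
  | .w j, .c j' => j'.val = (j.val + 1) % k
  | .a i, .c j => x i j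
  | .b i, .d j => y i j
  | _, _ => False

/-- The graph. -/
def Gr (x y : Fin k → Fin k → Prop) : SimpleGraph (Vx k p) := SimpleGraph.fromRel (E x y)

theorem adj_or {x y : Fin k → Fin k → Prop} {u v : Vx k p} (h : (Gr x y).Adj u v) :
    E x y u v ∨ E x y v u := by
  rw [Gr, SimpleGraph.fromRel_adj] at h
  exact h.2

section sound

variable {x y : Fin k → Fin k → Prop} {σ : Equiv.Perm (Vx k p)}

/-- Every vertex is used in the graph. -/
theorem U.E (hadj : ∀ v, (Gr x y).Adj v (σ v)) {u v : Vx k p} (h : U σ u v) :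
    E x y u v ∨ E x y v u := by
  rcases h with h | h
  · exact adj_or (h ▸ hadj u)
  · exact (adj_or (h ▸ hadj v)).symm

theorem sound (hk : 0 < k) (hp : 0 < p) (hadj : ∀ v, (Gr x y).Adj v (σ v))
    (hσ : ∀ v, σ (σ v) ≠ v)
    (conn : ∀ X : Set (Vx k p), X.Nonempty → (∀ v ∈ X, σ v ∈ X) → X = Set.univ) :
    ∃ i j, x i j ∧ y i j := by
  have hU : ∀ {u v : Vx k p}, U σ u v → E x y u v ∨ E x y v u := fun h => U.E hadj h
  -- forced edges
  have hz : ∀ i, U σ (.z i) (.b i) ∧ ∃ v : Vx k p, U σ (.z i) v ∧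
      (v = .yt ∧ i.val + 1 = k ∨ ∃ i' : Fin k, v = .a i' ∧ i.val + 1 = i'.val) := by
    intro i
    by_cases hi : i.val + 1 = k
    · have := Pool.Agent.V7H70.Ham.U.deg_two hσ (v := .z i) (a := .b i) (b := .yt) (by
        intro w hw
        rcases hU hw with h | h <;> cases w <;> simp only [Pool.Agent.V7H15.Tw.E] at h
        · omega
        · exact Or.inr rfl
        · exact Or.inl (by rw [h]))
      exact ⟨this.1, .yt, this.2, Or.inl ⟨rfl, hi⟩⟩
    · have hlt : i.val + 1 < k := by omega
      have := Pool.Agent.V7H70.Ham.U.deg_two hσ (v := .z i) (a := .b i) (b := .a ⟨i.val + 1, hlt⟩) (by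
        intro w hw
        rcases hU hw with h | h <;> cases w <;> simp only [Pool.Agent.V7H15.Tw.E] at h
        · right; congr 1; exact Fin.ext h.symm
        · omega
        · exact Or.inl (by rw [h]))
      exact ⟨this.1, _, this.2, Or.inr ⟨_, rfl, rfl⟩⟩
  have hw : ∀ j, U σ (.w j) (.d j) ∧ ∃ j' : Fin k, U σ (.w j) (.c j') ∧
      j'.val = (j.val + 1) % k := by
    intro j
    have := Pool.Agent.V7H70.Ham.U.deg_two hσ (v := .w j) (a := .d j) (b := .c ⟨(j.val + 1) % k, Nat.mod_lt _ hk⟩) (by
      intro w hw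
      rcases hU hw with h | h <;> cases w <;> simp only [Pool.Agent.V7H15.Tw.E] at h
      · right; congr 1; exact Fin.ext h
      · exact Or.inl (by rw [h]))
    exact ⟨this.1, _, this.2, rfl⟩
  have hq0 : U σ (.q ⟨0, hp⟩) .ys := by
    by_cases hp1 : p = 1
    · refine (Pool.Agent.V7H70.Ham.U.deg_two hσ (v := .q ⟨0, hp⟩) (a := .ys) (b := .a ⟨0, hk⟩) ?_).1
      intro w hw
      rcases hU hw with h | h <;> cases w <;> simp only [Pool.Agent.V7H15.Tw.E] at h
      · right; congr 1; exact Fin.ext h.2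
      · rename_i r
        have := r.isLt
        omega
      · omega
      · exact Or.inl rfl
    · refine (Pool.Agent.V7H70.Ham.U.deg_two hσ (v := .q ⟨0, hp⟩) (a := .ys) (b := .q ⟨1, by omega⟩) ?_).1
      intro w hw
      rcases hU hw with h | h <;> cases w <;> simp only [Pool.Agent.V7H15.Tw.E] at h
      · omega
      · right; congr 1; exact Fin.ext h.symm
      · omega
      · exact Or.inl rfl
  have hqa : U σ (.q ⟨p - 1, by omega⟩) (.a ⟨0, hk⟩) := by
    by_cases hp1 : p = 1
    · refine (Pool.Agent.V7H70.Ham.U.deg_two hσ (v := .q ⟨p - 1, by omega⟩) (a := .ys) (b := .a ⟨0, hk⟩) ?_).2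
      intro w hw
      rcases hU hw with h | h <;> cases w <;> simp only [Pool.Agent.V7H15.Tw.E] at h
      · right; congr 1; exact Fin.ext h.2
      · rename_i r
        have := r.isLt
        omega
      · omega
      · exact Or.inl rfl
    · refine (Pool.Agent.V7H70.Ham.U.deg_two hσ (v := .q ⟨p - 1, by omega⟩) (a := .q ⟨p - 2, by omega⟩)
        (b := .a ⟨0, hk⟩) ?_).2
      intro w hw
      rcases hU hw with h | h <;> cases w <;> simp only [Pool.Agent.V7H15.Tw.E] at h
      · right; congr 1; exact Fin.ext h.2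
      · rename_i r
        have := r.isLt
        omega
      · left; congr 1; apply Fin.ext; simp only; omega
      · omega
  -- the predecessor of `a i`
  have hpre : ∀ i : Fin k, ∃ v : Vx k p, U σ (.a i) v ∧ (∀ r, v ≠ .g i r) ∧ ∀ j, v ≠ .c j := by
    intro i
    by_cases hi : i.val = 0
    · have : i = ⟨0, hk⟩ := Fin.ext hi
      subst this
      exact ⟨_, hqa.symm, by simp, by simp⟩
    · obtain ⟨v, hv, h1 | ⟨i', h1, h2⟩⟩ := (hz ⟨i.val - 1, by omega⟩).2
      · exfalso
        have := h1.2
        have h3 := i.isLt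
        simp only at this
        omega
      · have : i' = i := Fin.ext (by simp only at h2; omega)
        subst this
        subst h1
        exact ⟨_, hv.symm, by simp, by simp⟩
  -- the selected unit
  obtain ⟨v, hv1, hv2⟩ := exists_other hσ hq0.symm
  obtain ⟨i, hi⟩ : ∃ i, v = .g i 6 := by
    rcases hU hv2 with h | h <;> cases v <;> simp only [Pool.Agent.V7H15.Tw.E] at h
    · rename_i i r
      exact ⟨i, by congr 1; exact Fin.ext h⟩
    · exact absurd (by congr 1; exact Fin.ext h) hv1
  subst hi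
  -- the gadget lemma for all units
  have hgad : ∀ l : Fin k, (U σ (.g l 0) (.a l) ∧ U σ (.g l 8) (.b l) ∧
      ¬ U σ (.g l 6) .ys) ∨ (¬ U σ (.g l 0) (.a l) ∧ ¬ U σ (.g l 8) (.b l) ∧
      U σ (.g l 6) .ys) := by
    intro l
    have hext : ∀ (r : Fin 9) (v : Vx k p), U σ (.g l r) v → (∀ r', v ≠ .g l r') →
        (r.val = 0 ∧ v = .a l) ∨ (r.val = 8 ∧ v = .b l) ∨ (r.val = 6 ∧ v = .ys) ∨
          (r.val = 2 ∧ v = .yt) := by
      intro r v hv hne
      rcases hU hv with h | h <;> cases v <;> simp only [Pool.Agent.V7H15.Tw.E] at h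
      · obtain ⟨rfl, -⟩ := h
        exact absurd rfl (hne _)
      · obtain ⟨rfl, h⟩ := h
        exact Or.inr (Or.inl ⟨h, rfl⟩)
      · obtain ⟨rfl, -⟩ := h
        exact absurd rfl (hne _)
      · obtain ⟨rfl, h⟩ := h
        exact Or.inl ⟨h, rfl⟩
      · exact Or.inr (Or.inr (Or.inl ⟨h, rfl⟩))
      · exact Or.inr (Or.inr (Or.inr ⟨h, rfl⟩))
    have hint : ∀ (r r' : Fin 9), U σ (.g l r) (.g l r') → gad r r' ∨ gad r' r := by
      intro r r' h
      rcases hU h with h | h <;> simp only [Pool.Agent.V7H15.Tw.E] at h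
      · exact Or.inl h.2
      · exact Or.inr h.2
    have hcase : ∀ (r : Fin 9) (v : Vx k p), U σ (.g l r) v →
        (∃ r', v = .g l r' ∧ (gad r r' ∨ gad r' r)) ∨ (∀ r', v ≠ .g l r') := by
      intro r v hv
      by_cases h : ∃ r', v = .g l r'
      · obtain ⟨r', rfl⟩ := h
        exact Or.inl ⟨r', rfl, hint r r' hv⟩
      · push Not at h
        exact Or.inr h
    have hfin : ∀ (r r' : Fin 9), (gad r r' ∨ gad r' r) → 
        (r = 0 → r' = 1 ∨ r' = 5) ∧ (r = 1 → r' = 0 ∨ r' = 2) ∧ (r = 2 → r' = 1 ∨ r' = 3) ∧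
        (r = 3 → r' = 4 ∨ r' = 2 ∨ r' = 8) ∧ (r = 4 → r' = 3 ∨ r' = 5) ∧
        (r = 5 → r' = 4 ∨ r' = 6 ∨ r' = 0) ∧ (r = 6 → r' = 7 ∨ r' = 5) ∧
        (r = 7 → r' = 6 ∨ r' = 8) ∧ (r = 8 → r' = 7 ∨ r' = 3) := by
      simp only [gad]
      decide
    have key := Pool.Agent.V7H70.Ham.gadget hσ conn (fun r => Vx.g l r)
      (fun r r' h => by injection h) (fun v => ∀ r', v ≠ .g l r') (fun w hw g => hw g)
      ⟨.ys, fun r => by simp⟩
      (fun v hv => by
        rcases hcase 0 v hv with ⟨r', rfl, h⟩ | h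
        · rcases (hfin _ _ h).1 rfl with h | h <;> simp [h]
        · exact Or.inr (Or.inr h))
      (fun v hv => by
        rcases hcase 1 v hv with ⟨r', rfl, h⟩ | h
        · rcases (hfin _ _ h).2.1 rfl with h | h <;> simp [h]
        · have := hext 1 v hv h
          simp at this)
      (fun v hv => by
        rcases hcase 2 v hv with ⟨r', rfl, h⟩ | h
        · rcases (hfin _ _ h).2.2.1 rfl with h | h <;> simp [h]
        · exact Or.inr (Or.inr h))
      (fun v hv => by
        rcases hcase 3 v hv with ⟨r', rfl, h⟩ | h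
        · rcases (hfin _ _ h).2.2.2.1 rfl with h | h | h <;> simp [h]
        · have := hext 3 v hv h
          simp at this)
      (fun v hv => by
        rcases hcase 4 v hv with ⟨r', rfl, h⟩ | h
        · rcases (hfin _ _ h).2.2.2.2.1 rfl with h | h <;> simp [h]
        · have := hext 4 v hv h
          simp at this)
      (fun v hv => by
        rcases hcase 5 v hv with ⟨r', rfl, h⟩ | h
        · rcases (hfin _ _ h).2.2.2.2.2.1 rfl with h | h | h <;> simp [h]
        · have := hext 5 v hv h
          simp at this)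
      (fun v hv => by
        rcases hcase 6 v hv with ⟨r', rfl, h⟩ | h
        · rcases (hfin _ _ h).2.2.2.2.2.2.1 rfl with h | h <;> simp [h]
        · exact Or.inr (Or.inr h))
      (fun v hv => by
        rcases hcase 7 v hv with ⟨r', rfl, h⟩ | h
        · rcases (hfin _ _ h).2.2.2.2.2.2.2.1 rfl with h | h <;> simp [h]
        · have := hext 7 v hv h
          simp at this)
      (fun v hv => by
        rcases hcase 8 v hv with ⟨r', rfl, h⟩ | h
        · rcases (hfin _ _ h).2.2.2.2.2.2.2.2 rfl with h | h <;> simp [h]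
        · exact Or.inr (Or.inr h))
    rcases key with ⟨⟨v0, h1, h2, -⟩, ⟨v8, h3, h4, -⟩, -, h6⟩ | ⟨⟨v6, h1, h2, -⟩, -, h5, h6⟩
    · left
      have e0 : v0 = .a l := by
        rcases hext 0 v0 h2 h1 with h | h | h | h
        · exact h.2
        · exact absurd h.1 (by decide)
        · exact absurd h.1 (by decide)
        · exact absurd h.1 (by decide)
      have e8 : v8 = .b l := by
        rcases hext 8 v8 h4 h3 with h | h | h | h
        · exact absurd h.1 (by decide)
        · exact h.2
        · exact absurd h.1 (by decide)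
        · exact absurd h.1 (by decide)
      subst e0
      subst e8
      exact ⟨h2, h4, fun h => h6 _ h (by simp)⟩
    · right
      have e6 : v6 = .ys := by
        rcases hext 6 v6 h2 h1 with h | h | h | h
        · exact absurd h.1 (by decide)
        · exact absurd h.1 (by decide)
        · exact h.2
        · exact absurd h.1 (by decide)
      subst e6
      exact ⟨fun h => h5 _ h (by simp), fun h => h6 _ h (by simp), h2⟩
  have hsel : ¬ U σ (.g i 0) (.a i) ∧ ¬ U σ (.g i 8) (.b i) := by
    rcases hgad i with h | h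
    · exact absurd hv2.symm h.2.2
    · exact ⟨h.1, h.2.1⟩
  have hrest : ∀ l, l ≠ i → U σ (.g l 0) (.a l) ∧ U σ (.g l 8) (.b l) := by
    intro l hl
    rcases hgad l with h | h
    · exact ⟨h.1, h.2.1⟩
    · exfalso
      rcases Pool.Agent.V7H70.Ham.U.two hq0.symm hv2 (Ne.symm hv1) h.2.2.symm with h' | h'
      · exact absurd h' (by simp)
      · apply hl
        injection h'
  -- the vertex `a i`
  obtain ⟨j, hj1, hj2⟩ : ∃ j, U σ (.a i) (.c j) ∧ x i j := by
    obtain ⟨v, hv, hvg, hvc⟩ := hpre i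
    obtain ⟨u, hu1, hu2⟩ := exists_other hσ hv
    -- the neighbours of `a i`
    have hnb : ∀ u : Vx k p, U σ (.a i) u → u = .g i 0 ∨ (∃ j, u = .c j ∧ x i j) ∨
        (u = .q ⟨p - 1, by omega⟩ ∧ i.val = 0) ∨ ∃ l : Fin k, u = .z l ∧ l.val + 1 = i.val := by
      intro u hu
      rcases hU hu with h | h <;> cases u <;> simp only [Pool.Agent.V7H15.Tw.E] at h
      · obtain ⟨rfl, h⟩ := h
        left; congr 1; exact Fin.ext h
      · exact Or.inr (Or.inl ⟨_, rfl, h⟩)
      · exact Or.inr (Or.inr (Or.inr ⟨_, rfl, h⟩))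
      · right; right; left
        refine ⟨?_, h.2⟩
        congr 1; apply Fin.ext; simp only; omega
    have hspine : ∀ u u' : Vx k p,
        ((u = .q ⟨p - 1, by omega⟩ ∧ i.val = 0) ∨ ∃ l : Fin k, u = .z l ∧ l.val + 1 = i.val) →
        ((u' = .q ⟨p - 1, by omega⟩ ∧ i.val = 0) ∨ ∃ l : Fin k, u' = .z l ∧ l.val + 1 = i.val) →
        u = u' := by
      rintro u u' (⟨h1, h2⟩ | ⟨l, h1, h2⟩) (⟨h3, h4⟩ | ⟨l', h3, h4⟩)
      · rw [h1, h3]
      · omega
      · omega
      · have : l = l' := Fin.ext (by omega)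
        rw [h1, h3, this]
    have hvs : (v = .q ⟨p - 1, by omega⟩ ∧ i.val = 0) ∨
        ∃ l : Fin k, v = .z l ∧ l.val + 1 = i.val := by
      rcases hnb v hv with h | ⟨j, h, -⟩ | h
      · exact absurd h (hvg 0)
      · exact absurd h (hvc j)
      · exact h
    rcases hnb u hu2 with h | ⟨j, h, h'⟩ | h
    · exact absurd (h ▸ hu2).symm hsel.1
    · exact ⟨j, h ▸ hu2, h'⟩
    · exact absurd (hspine u v h hvs) hu1
  refine ⟨i, j, hj2, ?_⟩
  -- the vertex `c j`
  have hwc : ∃ l, U σ (.c j) (.w l) := by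
    -- the predecessor of `j`
    by_cases hj : j.val = 0
    · obtain ⟨j', h1, h2⟩ := (hw ⟨k - 1, by omega⟩).2
      have : j' = j := by
        apply Fin.ext
        rw [h2, hj]
        simp only
        rw [Nat.sub_add_cancel hk, Nat.mod_self]
      exact ⟨_, (this ▸ h1).symm⟩
    · obtain ⟨j', h1, h2⟩ := (hw ⟨j.val - 1, by omega⟩).2
      have : j' = j := by
        apply Fin.ext
        rw [h2]
        simp only
        rw [Nat.sub_add_cancel (by omega)]
        exact Nat.mod_eq_of_lt j.isLt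
      exact ⟨_, (this ▸ h1).symm⟩
  obtain ⟨l, hl⟩ := hwc
  have hcd : ¬ U σ (.c j) (.d j) := by
    intro h
    rcases Pool.Agent.V7H70.Ham.U.two hj1.symm hl (by simp) h with h' | h'
    · exact absurd h' (by simp)
    · exact absurd h' (by simp)
  -- the vertex `d j`
  obtain ⟨u, hu1, hu2⟩ := exists_other hσ (hw j).1.symm
  have hu : ∃ m, u = .b m ∧ y m j := by
    rcases hU hu2 with h | h <;> cases u <;> simp only [Pool.Agent.V7H15.Tw.E] at h
    · subst h
      exact absurd rfl hu1
    · exact ⟨_, rfl, h⟩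
    · subst h
      exact absurd hu2.symm hcd
  obtain ⟨m, rfl, hm⟩ := hu
  by_cases hmi : m = i
  · rw [← hmi]; exact hm
  · exfalso
    rcases Pool.Agent.V7H70.Ham.U.two (hz m).1.symm (hrest m hmi).2.symm (by simp) hu2.symm with h' | h'
    · exact absurd h' (by simp)
    · exact absurd h' (by simp)

end sound

section complete

variable {x y : Fin k → Fin k → Prop}

theorem adj_of {u v : Vx k p} (hne : u ≠ v) (h : E x y u v) : (Gr x y).Adj u v := by
  rw [Gr, SimpleGraph.fromRel_adj]
  exact ⟨hne, Or.inl h⟩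

theorem e_ag (l : Fin k) : (Gr (p := p) x y).Adj (.a l) (.g l 0) := adj_of (by simp) ⟨rfl, rfl⟩

theorem e_gb (l : Fin k) : (Gr (p := p) x y).Adj (.g l 8) (.b l) := adj_of (by simp) ⟨rfl, rfl⟩

theorem e_bz (l : Fin k) : (Gr (p := p) x y).Adj (.b l) (.z l) := adj_of (by simp) rfl

theorem e_cd (l : Fin k) : (Gr (p := p) x y).Adj (.c l) (.d l) := adj_of (by simp) rfl

theorem e_dw (l : Fin k) : (Gr (p := p) x y).Adj (.d l) (.w l) := adj_of (by simp) rfl

theorem e_za {l l' : Fin k} (h : l.val + 1 = l'.val) : (Gr (p := p) x y).Adj (.z l) (.a l') :=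
  adj_of (by simp) h

theorem e_zt {l : Fin k} (h : l.val + 1 = k) : (Gr (p := p) x y).Adj (.z l) .yt :=
  adj_of (by simp) h

theorem e_sg (l : Fin k) : (Gr (p := p) x y).Adj .ys (.g l 6) := adj_of (by simp) rfl

theorem e_tg (l : Fin k) : (Gr (p := p) x y).Adj .yt (.g l 2) := adj_of (by simp) rfl

theorem e_sq {r : Fin p} (h : r.val = 0) : (Gr (k := k) x y).Adj .ys (.q r) :=
  adj_of (by simp) h

theorem e_qq {r r' : Fin p} (h : r.val + 1 = r'.val) : (Gr (k := k) x y).Adj (.q r) (.q r') :=
  adj_of (by rintro h'; injection h' with h'; omega) h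

theorem e_qa {r : Fin p} {l : Fin k} (h : r.val + 1 = p) (h' : l.val = 0) :
    (Gr x y).Adj (.q r) (.a l) := adj_of (by simp) ⟨h, h'⟩

theorem e_wc {l l' : Fin k} (h : l'.val = (l.val + 1) % k) :
    (Gr (p := p) x y).Adj (.w l) (.c l') := adj_of (by simp) h

theorem e_ac {i j : Fin k} (h : x i j) : (Gr (p := p) x y).Adj (.a i) (.c j) :=
  adj_of (by simp) h

theorem e_bd {i j : Fin k} (h : y i j) : (Gr (p := p) x y).Adj (.b i) (.d j) :=
  adj_of (by simp) h

/-- A path of explicit vertices. -/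
theorem hp_list {V : Type} {G : SimpleGraph V} (L : List V) (u v : V) (S : Set V)
    (h1 : L.head? = some u) (h2 : L.getLast? = some v) (h3 : L.Nodup)
    (h4 : ∀ x, x ∈ L ↔ x ∈ S) (h5 : L.IsChain G.Adj) : HP G S u v := ⟨L, h1, h2, h3, h4, h5⟩

/-- the row of a unit -/
theorem row (l : Fin k) : HP (Gr (p := p) x y) {v | ∃ r, v = .g l r} (.g l 0) (.g l 8) := by
  refine hp_list ((List.finRange 9).map (fun r => Vx.g l r)) _ _ _ rfl rfl ?_ ?_ ?_
  · rw [List.nodup_map_iff (fun r r' h => by injection h)]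
    decide
  · intro v
    simp only [List.mem_map, List.mem_finRange, true_and, Set.mem_ofPred_eq]
    constructor
    · rintro ⟨r, rfl⟩; exact ⟨r, rfl⟩
    · rintro ⟨r, rfl⟩; exact ⟨r, rfl⟩
  · rw [List.isChain_map]
    have : (List.finRange 9).IsChain (fun r r' : Fin 9 => gad r r' ∧ r ≠ r') := by
      simp only [gad]
      decide
    refine this.imp fun r r' h => adj_of (fun h' => h.2 (by injection h')) ⟨rfl, h.1⟩

/-- the check of a unit -/
theorem check (l : Fin k) : HP (Gr (p := p) x y) {v | ∃ r, v = .g l r} (.g l 6) (.g l 2) := by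
  refine hp_list (([6, 7, 8, 3, 4, 5, 0, 1, 2] : List (Fin 9)).map (fun r => Vx.g l r))
    _ _ _ rfl rfl ?_ ?_ ?_
  · rw [List.nodup_map_iff (fun r r' h => by injection h)]
    decide
  · intro v
    have : ∀ r : Fin 9, r ∈ ([6, 7, 8, 3, 4, 5, 0, 1, 2] : List (Fin 9)) := by decide
    simp only [List.mem_map, Set.mem_ofPred_eq]
    constructor
    · rintro ⟨r, -, rfl⟩; exact ⟨r, rfl⟩
    · rintro ⟨r, rfl⟩; exact ⟨r, this r, rfl⟩
  · rw [List.isChain_map]
    have : ([6, 7, 8, 3, 4, 5, 0, 1, 2] : List (Fin 9)).IsChain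
        (fun r r' : Fin 9 => gad r r' ∧ r ≠ r') := by
      simp only [gad]
      decide
    refine this.imp fun r r' h => adj_of (fun h' => h.2 (by injection h')) ⟨rfl, h.1⟩

/-- a block of the upper chain -/
theorem block (l : Fin k) : HP (Gr (p := p) x y)
    {v | v = .a l ∨ (∃ r, v = .g l r) ∨ v = .b l ∨ v = .z l} (.a l) (.z l) := by
  have h1 := (((HP.single (G := Gr (p := p) x y) (Vx.a l)).append (row l)
    (e_ag l) (by
      rintro v hv ⟨r, hr⟩
      rw [Set.mem_singleton_iff.1 hv] at hr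
      exact absurd hr (by simp))).snoc (w := .b l) (e_gb l) (by
      rintro (h | ⟨r, h⟩)
      · exact absurd h (by simp)
      · exact absurd h (by simp))).snoc (w := .z l) (e_bz l) (by
      rintro ((h | ⟨r, h⟩) | h)
      · exact absurd h (by simp)
      · exact absurd h (by simp)
      · exact absurd h (by simp))
  refine h1.congr fun v => ?_
  simp only [Set.mem_union, Set.mem_singleton_iff, Set.mem_ofPred_eq, or_assoc]

/-- a block of the lower chain -/
theorem block' (l : Fin k) : HP (Gr (p := p) x y)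
    {v | v = .c l ∨ v = .d l ∨ v = .w l} (.c l) (.w l) := by
  have h1 := ((HP.single (G := Gr (p := p) x y) (Vx.c l)).snoc (w := .d l)
    (e_cd l) (by
      intro h
      exact absurd (Set.mem_singleton_iff.1 h) (by simp))).snoc (w := .w l)
      (e_dw l) (by
      rintro (h | h)
      · exact absurd h (by simp)
      · exact absurd h (by simp))
  refine h1.congr fun v => ?_
  simp only [Set.mem_union, Set.mem_singleton_iff, Set.mem_ofPred_eq, or_assoc]

/-- the padding -/
theorem pad (hp : 0 < p) : HP (Gr (k := k) x y) {v | ∃ r : Fin p, v = .q r}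
    (.q ⟨0, hp⟩) (.q ⟨p - 1, by omega⟩) := by
  have key : ∀ m, (hm : m < p) → HP (Gr (k := k) x y) {v | ∃ r : Fin p, r.val ≤ m ∧ v = .q r}
      (.q ⟨0, hp⟩) (.q ⟨m, hm⟩) := by
    intro m
    induction m with
    | zero =>
      intro hm
      refine (HP.single (G := Gr (k := k) x y) (Vx.q ⟨0, hp⟩)).congr fun v => ?_
      rw [Set.mem_singleton_iff]
      constructor
      · rintro rfl; exact ⟨_, le_rfl, rfl⟩
      · rintro ⟨r, hr, rfl⟩
        congr 1
        apply Fin.ext
        simp only
        omega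
    | succ m ih =>
      intro hm
      have h1 := (ih (by omega)).snoc (w := .q ⟨m + 1, hm⟩) (e_qq rfl) (by
        rintro ⟨r, hr, h⟩
        injection h with h
        rw [← h] at hr
        simp only at hr
        omega)
      refine h1.congr fun v => ?_
      constructor
      · rintro (⟨r, hr, rfl⟩ | h)
        · exact ⟨r, by omega, rfl⟩
        · exact ⟨_, le_rfl, h⟩
      · rintro ⟨r, hr, rfl⟩
        rcases Nat.lt_or_ge m r.val with h | h
        · right
          rw [Set.mem_singleton_iff]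
          congr 1
          apply Fin.ext
          simp only
          omega
        · exact Or.inl ⟨r, h, rfl⟩
  refine (key (p - 1) (by omega)).congr fun v => ?_
  constructor
  · rintro ⟨r, -, rfl⟩; exact ⟨r, rfl⟩
  · rintro ⟨r, rfl⟩; exact ⟨r, by omega, rfl⟩

/-- the vertices of an upper block -/
def inU (l : ℕ) : Vx k p → Prop
  | .a m => m.val = l
  | .g m _ => m.val = l
  | .b m => m.val = l
  | .z m => m.val = l
  | _ => False

/-- the vertices of a lower block -/
def inV (l : ℕ) : Vx k p → Prop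
  | .c m => m.val = l
  | .d m => m.val = l
  | .w m => m.val = l
  | _ => False

/-- total index -/
def fi (hk : 0 < k) (l : ℕ) : Fin k := ⟨l % k, Nat.mod_lt _ hk⟩

theorem fi_eq (hk : 0 < k) {l : ℕ} (h : l < k) : fi hk l = ⟨l, h⟩ := by
  apply Fin.ext
  simp only [fi]
  exact Nat.mod_eq_of_lt h

theorem hpU (hk : 0 < k) {l : ℕ} (h : l < k) :
    HP (Gr (p := p) x y) {v | inU l v} (.a (fi hk l)) (.z (fi hk l)) := by
  rw [fi_eq hk h]
  refine (block ⟨l, h⟩).congr fun v => ?_
  cases v <;> simp [inU, Fin.ext_iff]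

theorem hpV (hk : 0 < k) {l : ℕ} (h : l < k) :
    HP (Gr (p := p) x y) {v | inV l v} (.c (fi hk l)) (.w (fi hk l)) := by
  rw [fi_eq hk h]
  refine (block' ⟨l, h⟩).congr fun v => ?_
  cases v <;> simp [inV, Fin.ext_iff]

/-- the lower path -/
theorem lower (hk : 0 < k) (j : Fin k) :
    HP (Gr (p := p) x y) {v | ∃ l, l < k ∧ inV l v} (.c j) (.d j) := by
  let pre : ℕ → Vx k p := fun l => .w (fi hk (l + (k - 1)))
  have hpre : ∀ l, pre (l + 1) = .w (fi hk l) := by
    intro l
    simp only [pre]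
    congr 1
    apply Fin.ext
    simp only [fi]
    rw [show l + 1 + (k - 1) = l + k by omega, Nat.add_mod_right]
  have hpre0 : pre k = pre 0 := by
    simp only [pre]
    congr 1
    apply Fin.ext
    simp only [fi]
    rw [add_comm, Nat.add_mod_right, zero_add]
  have hadj : ∀ l, l < k → (Gr (p := p) x y).Adj (pre l) (.c (fi hk l)) := by
    intro l hl
    apply e_wc
    simp only [fi]
    rw [Nat.mod_eq_of_lt hl, Nat.mod_add_mod, show l + (k - 1) + 1 = l + k by omega,
      Nat.add_mod_right, Nat.mod_eq_of_lt hl]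
  have hj : fi hk j.val = j := fi_eq hk j.isLt
  have s0 : HP (Gr (p := p) x y) ({Vx.d j} ∪ {Vx.w j}) (.d j) (.w j) :=
    (HP.single _).snoc (e_dw j) (fun h => absurd (Set.mem_singleton_iff.1 h) (by simp))
  have s0' : HP (Gr (p := p) x y) ({Vx.d j} ∪ {Vx.w j}) (.d j) (pre (j.val + 1)) := by
    rw [hpre, hj]; exact s0
  have s1 := s0'.extend (fun l => {v | inV l v}) (fun l => .c (fi hk l)) pre (j.val + 1) k
    (fun l _ h2 => by rw [hpre]; exact hpV hk h2) (fun l _ h2 => hadj l h2)
    (by
      rintro l h1 h2 v (rfl | rfl) h3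
      · change j.val = l at h3; omega
      · change j.val = l at h3; omega)
    (by
      intro l l' h1 h2 h3 v h4 h5
      cases v <;> simp only [inV, Set.mem_ofPred_eq] at h4 h5 <;> omega) (by omega)
  rw [hpre0] at s1
  have s2 := s1.extend (fun l => {v | inV l v}) (fun l => .c (fi hk l)) pre 0 j.val
    (fun l _ h2 => by rw [hpre]; exact hpV hk (by omega)) (fun l _ h2 => hadj l (by omega))
    (by
      rintro l h1 h2 v ((rfl | rfl) | ⟨m, h3, h4, h5⟩) h6
      · change j.val = l at h6; omega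
      · change j.val = l at h6; omega
      · cases v <;> simp only [inV, Set.mem_ofPred_eq] at h5 h6 <;> omega)
    (by
      intro l l' h1 h2 h3 v h4 h5
      cases v <;> simp only [inV, Set.mem_ofPred_eq] at h4 h5 <;> omega) (by omega)
  have s3 := s2.snoc (w := .c j) (by
      have := hadj j.val j.isLt
      rwa [hj] at this) (by
      rintro (((h | h) | ⟨m, h3, h4, h5⟩) | ⟨m, h3, h4, h5⟩)
      · exact absurd h (by simp)
      · exact absurd h (by simp)
      · change j.val = m at h5; omega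
      · change j.val = m at h5; omega)
  refine s3.symm.congr fun v => ?_
  constructor
  · rintro ((((h | h) | ⟨m, h3, h4, h5⟩) | ⟨m, h3, h4, h5⟩) | h)
    · rw [Set.mem_singleton_iff.1 h]; exact ⟨j.val, j.isLt, rfl⟩
    · rw [Set.mem_singleton_iff.1 h]; exact ⟨j.val, j.isLt, rfl⟩
    · exact ⟨m, h4, h5⟩
    · exact ⟨m, by omega, h5⟩
    · rw [Set.mem_singleton_iff.1 h]; exact ⟨j.val, j.isLt, rfl⟩
  · rintro ⟨l, h1, h2⟩
    rcases lt_trichotomy l j.val with h | h | h
    · exact Or.inl (Or.inr ⟨l, by omega, h, h2⟩)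
    · subst h
      cases v <;> simp only [inV] at h2
      · have := Fin.ext h2
        subst this
        exact Or.inr rfl
      · have := Fin.ext h2
        subst this
        exact Or.inl (Or.inl (Or.inl (Or.inl rfl)))
      · have := Fin.ext h2
        subst this
        exact Or.inl (Or.inl (Or.inl (Or.inr rfl)))
    · exact Or.inl (Or.inl (Or.inr ⟨l, by omega, h1, h2⟩))

/-- the Hamilton cycle -/
theorem complete [Fintype (Vx k p)] (hk : 0 < k) (hp : 0 < p) (hc : 3 ≤ Fintype.card (Vx k p))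
    {i j : Fin k} (hx : x i j) (hy : y i j) : (Gr (p := p) x y).IsHamiltonian := by
  let pre : ℕ → Vx k p := fun l => if l = 0 then .q ⟨p - 1, by omega⟩ else .z (fi hk (l - 1))
  have hpre : ∀ l, pre (l + 1) = .z (fi hk l) := by
    intro l
    simp only [pre, Nat.add_eq_zero_iff, one_ne_zero, and_false, if_false, Nat.add_sub_cancel]
  have hadj : ∀ l, l < k → (Gr (p := p) x y).Adj (pre l) (.a (fi hk l)) := by
    intro l hl
    rcases Nat.eq_zero_or_pos l with rfl | h
    · simp only [pre, if_true]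
      apply e_qa
      · simp only; omega
      · simp only [fi]
        exact Nat.zero_mod _
    · obtain ⟨m, rfl⟩ : ∃ m, l = m + 1 := ⟨l - 1, by omega⟩
      rw [hpre]
      apply e_za
      rw [fi_eq hk hl, fi_eq hk (show m < k by omega)]
  have hi : fi hk i.val = i := fi_eq hk i.isLt
  have s0 : HP (Gr (p := p) x y) ({Vx.b i} ∪ {Vx.z i}) (.b i) (.z i) :=
    (HP.single _).snoc (e_bz i) (fun h => absurd (Set.mem_singleton_iff.1 h) (by simp))
  have s0' : HP (Gr (p := p) x y) ({Vx.b i} ∪ {Vx.z i}) (.b i) (pre (i.val + 1)) := by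
    rw [hpre, hi]; exact s0
  have s1 := s0'.extend (fun l => {v | inU l v}) (fun l => .a (fi hk l)) pre (i.val + 1) k
    (fun l _ h2 => by rw [hpre]; exact hpU hk h2) (fun l _ h2 => hadj l h2)
    (by
      rintro l h1 h2 v (rfl | rfl) h3
      · change i.val = l at h3; omega
      · change i.val = l at h3; omega)
    (by
      intro l l' h1 h2 h3 v h4 h5
      cases v <;> simp only [inU, Set.mem_ofPred_eq] at h4 h5 <;> omega) (by omega)
  have hprek : pre k = .z (fi hk (k - 1)) := by
    rw [← hpre, Nat.sub_add_cancel hk]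
  rw [hprek] at s1
  have s2 := s1.snoc (w := .yt) (by
      apply e_zt
      rw [fi_eq hk (show k - 1 < k by omega)]
      simp only
      omega) (by
      rintro ((h | h) | ⟨m, h3, h4, h5⟩)
      · exact absurd h (by simp)
      · exact absurd h (by simp)
      · exact h5)
  have s3 := s2.append (check i).symm (e_tg i) (by
      rintro v (((h | h) | ⟨m, h3, h4, h5⟩) | h) ⟨r, rfl⟩
      · exact absurd h (by simp)
      · exact absurd h (by simp)
      · change i.val = m at h5; omega
      · exact absurd h (by simp))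
  have s4 := s3.snoc (w := .ys) (e_sg i).symm (by
      rintro ((((h | h) | ⟨m, h3, h4, h5⟩) | h) | ⟨r, h⟩)
      · exact absurd h (by simp)
      · exact absurd h (by simp)
      · exact h5
      · exact absurd h (by simp)
      · exact absurd h (by simp))
  have s5 := s4.append (pad hp) (e_sq rfl) (by
      rintro v (((((h | h) | ⟨m, h3, h4, h5⟩) | h) | ⟨r, h⟩) | h) ⟨r, rfl⟩
      · exact absurd h (by simp)
      · exact absurd h (by simp)
      · exact h5
      · exact absurd h (by simp)
      · exact absurd h (by simp)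
      · exact absurd h (by simp))
  have hq : (Vx.q ⟨p - 1, by omega⟩ : Vx k p) = pre 0 := by simp only [pre, if_true]
  rw [hq] at s5
  have s6 := s5.extend (fun l => {v | inU l v}) (fun l => .a (fi hk l)) pre 0 i.val
    (fun l _ h2 => by rw [hpre]; exact hpU hk (by omega)) (fun l _ h2 => hadj l (by omega))
    (by
      rintro l h1 h2 v ((((((rfl | rfl) | ⟨m, h3, h4, h5⟩) | rfl) | ⟨r, rfl⟩) | rfl) | ⟨r, rfl⟩) h6
      · change i.val = l at h6; omega
      · change i.val = l at h6; omega
      · cases v <;> simp only [inU, Set.mem_ofPred_eq] at h5 h6 <;> omega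
      · exact h6
      · change i.val = l at h6; omega
      · exact h6
      · exact h6)
    (by
      intro l l' h1 h2 h3 v h4 h5
      cases v <;> simp only [inU, Set.mem_ofPred_eq] at h4 h5 <;> omega) (by omega)
  have s7 := s6.snoc (w := .a i) (by
      have := hadj i.val i.isLt
      rwa [hi] at this) (by
      rintro (((((((h | h) | ⟨m, h3, h4, h5⟩) | h) | ⟨r, h⟩) | h) | ⟨r, h⟩) | ⟨m, h3, h4, h5⟩)
      · exact absurd h (by simp)
      · exact absurd h (by simp)
      · change i.val = m at h5; omega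
      · exact absurd h (by simp)
      · exact absurd h (by simp)
      · exact absurd h (by simp)
      · exact absurd h (by simp)
      · change i.val = m at h5; omega)
  have s8 := s7.append (lower hk j) (e_ac hx) (by
      rintro v ((((((((h | h) | ⟨m, h3, h4, h5⟩) | h) | ⟨r, h⟩) | h) | ⟨r, h⟩) |
        ⟨m, h3, h4, h5⟩) | h) ⟨n, h6, h7⟩
      · rw [Set.mem_singleton_iff.1 h] at h7; exact h7
      · rw [Set.mem_singleton_iff.1 h] at h7; exact h7
      · cases v <;> simp only [inU, inV, Set.mem_ofPred_eq] at h5 h7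
      · rw [Set.mem_singleton_iff.1 h] at h7; exact h7
      · rw [h] at h7; exact h7
      · rw [Set.mem_singleton_iff.1 h] at h7; exact h7
      · rw [h] at h7; exact h7
      · cases v <;> simp only [inU, inV, Set.mem_ofPred_eq] at h5 h7
      · rw [Set.mem_singleton_iff.1 h] at h7; exact h7)
  refine s8.ham ?_ (e_bd hy).symm hc
  have hcase : ∀ (v : Vx k p) (m : Fin k), inU m.val v → m ≠ i →
      ((∃ l, i.val + 1 ≤ l ∧ l < k ∧ v ∈ {v : Vx k p | inU l v}) ∨
        (∃ l, 0 ≤ l ∧ l < i.val ∧ v ∈ {v : Vx k p | inU l v})) := by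
    intro v m hv hm
    rcases Nat.lt_or_gt_of_ne (fun h => hm (Fin.ext h)) with h | h
    · exact Or.inr ⟨m.val, Nat.zero_le _, h, hv⟩
    · exact Or.inl ⟨m.val, h, m.isLt, hv⟩
  intro v
  have hU : ∀ m : Fin k, inU m.val v → m ≠ i → _ := fun m h h' => hcase v m h h'
  cases v with
  | g m r =>
    by_cases hm : m = i
    · subst hm
      exact Or.inl (Or.inl (Or.inl (Or.inl (Or.inl (Or.inr ⟨r, rfl⟩)))))
    · rcases hU m rfl hm with h | h
      · exact Or.inl (Or.inl (Or.inl (Or.inl (Or.inl (Or.inl (Or.inl (Or.inr h)))))))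
      · exact Or.inl (Or.inl (Or.inr h))
  | a m =>
    by_cases hm : m = i
    · subst hm
      exact Or.inl (Or.inr rfl)
    · rcases hU m rfl hm with h | h
      · exact Or.inl (Or.inl (Or.inl (Or.inl (Or.inl (Or.inl (Or.inl (Or.inr h)))))))
      · exact Or.inl (Or.inl (Or.inr h))
  | b m =>
    by_cases hm : m = i
    · subst hm
      exact Or.inl (Or.inl (Or.inl (Or.inl (Or.inl (Or.inl (Or.inl (Or.inl (Or.inl rfl))))))))
    · rcases hU m rfl hm with h | h
      · exact Or.inl (Or.inl (Or.inl (Or.inl (Or.inl (Or.inl (Or.inl (Or.inr h)))))))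
      · exact Or.inl (Or.inl (Or.inr h))
  | z m =>
    by_cases hm : m = i
    · subst hm
      exact Or.inl (Or.inl (Or.inl (Or.inl (Or.inl (Or.inl (Or.inl (Or.inl (Or.inr rfl))))))))
    · rcases hU m rfl hm with h | h
      · exact Or.inl (Or.inl (Or.inl (Or.inl (Or.inl (Or.inl (Or.inl (Or.inr h)))))))
      · exact Or.inl (Or.inl (Or.inr h))
  | c m => exact Or.inr ⟨m.val, m.isLt, rfl⟩
  | d m => exact Or.inr ⟨m.val, m.isLt, rfl⟩
  | w m => exact Or.inr ⟨m.val, m.isLt, rfl⟩
  | q r => exact Or.inl (Or.inl (Or.inl (Or.inr ⟨r, rfl⟩)))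
  | ys => exact Or.inl (Or.inl (Or.inl (Or.inl (Or.inr rfl))))
  | yt => exact Or.inl (Or.inl (Or.inl (Or.inl (Or.inl (Or.inl (Or.inr rfl))))))

end complete

end Pool.Agent.V7H15.Tw
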