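import Pool.Agent.V7H15.Tw.Sep
import Pool.Agent.V7H15.Tw.Avg
import Pool.Agent.V7H15.Tw.Bits

/-!
# Balanced separators of circuits for graph isomorphism
-/

set_option autoImplicit false

namespace Pool.Agent.V7H15.Tw

open Finset

theorem graphOf_adj {n : ℕ} (x : Pr n → Bool) (e : Pr n) :
    (graphOf x).Adj e.1.1 e.1.2 ↔ x e = true := by
  rw [graphOf, SimpleGraph.fromRel_adj]
  constructor
  · rintro ⟨-, ⟨h, h'⟩ | ⟨h, -⟩⟩
    · exact h'
    · exact absurd e.2 (not_lt.2 h.le)
  · intro h
    exact ⟨e.2.ne, Or.inl ⟨e.2, h⟩⟩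

theorem graphOf_injective {n : ℕ} {x y : Pr n → Bool} (h : graphOf x = graphOf y) : x = y := by
  funext e
  have h1 := graphOf_adj x e
  have h2 := graphOf_adj y e
  rw [h, h2] at h1
  cases hx : x e <;> cases hy : y e <;> simp_all

/-- The two graphs of an input. -/
def fstG {n : ℕ} (z : Bool × Pr n → Bool) : SimpleGraph (Fin n) := graphOf (fun e => z (false, e))

/-- The two graphs of an input. -/
def sndG {n : ℕ} (z : Bool × Pr n → Bool) : SimpleGraph (Fin n) := graphOf (fun e => z (true, e))

section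

variable {n : ℕ}

open Classical in
/-- The bits of the image of a graph. -/
noncomputable def push (ρ : Equiv.Perm (Fin n)) (x : Pr n → Bool) : Pr n → Bool :=
  fun e => decide ((graphOf x).Adj (ρ.symm e.1.1) (ρ.symm e.1.2))

theorem push_adj (ρ : Equiv.Perm (Fin n)) (x : Pr n → Bool) (u v : Fin n) :
    (graphOf (push ρ x)).Adj u v ↔ (graphOf x).Adj (ρ.symm u) (ρ.symm v) := by
  rw [graphOf, SimpleGraph.fromRel_adj]
  simp only [push, decide_eq_true_eq]
  constructor
  · rintro ⟨-, ⟨-, h⟩ | ⟨-, h⟩⟩
    · exact h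
    · exact h.symm
  · intro h
    have hne : u ≠ v := by
      rintro rfl
      exact (graphOf x).loopless.irrefl _ h
    refine ⟨hne, ?_⟩
    rcases lt_or_gt_of_ne hne with h1 | h1
    · exact Or.inl ⟨h1, h⟩
    · exact Or.inr ⟨h1, h.symm⟩

/-- The isomorphism. -/
def pushIso (ρ : Equiv.Perm (Fin n)) (x : Pr n → Bool) : graphOf x ≃g graphOf (push ρ x) where
  toEquiv := ρ
  map_rel_iff' := by
    intro u v
    rw [push_adj, ρ.symm_apply_apply, ρ.symm_apply_apply]

/-- An input with the graphs `x` and `y`, moved by the permutations `ρ b` and `ρ (!b)`. -/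
noncomputable def zin (ρ : Bool → Equiv.Perm (Fin n)) (b : Bool) (x y : Pr n → Bool) :
    Bool × Pr n → Bool :=
  fun be => if be.1 = b then push (ρ be.1) x be.2 else push (ρ be.1) y be.2

theorem zin_iso (ρ : Bool → Equiv.Perm (Fin n)) (b : Bool) (x y : Pr n → Bool) :
    Nonempty (fstG (zin ρ b x y) ≃g sndG (zin ρ b x y)) ↔
      Nonempty (graphOf x ≃g graphOf y) := by
  cases b with
  | false =>
    have h1 : fstG (zin ρ false x y) = graphOf (push (ρ false) x) := by
      simp only [fstG, zin, if_true]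
    have h2 : sndG (zin ρ false x y) = graphOf (push (ρ true) y) := by
      simp only [sndG, zin, Bool.true_eq_false, if_false]
    rw [h1, h2]
    constructor
    · rintro ⟨φ⟩
      exact ⟨((pushIso _ x).trans φ).trans (pushIso _ y).symm⟩
    · rintro ⟨φ⟩
      exact ⟨((pushIso _ x).symm.trans φ).trans (pushIso _ y)⟩
  | true =>
    have h1 : fstG (zin ρ true x y) = graphOf (push (ρ false) y) := by
      simp only [fstG, zin, Bool.false_eq_true, if_false]
    have h2 : sndG (zin ρ true x y) = graphOf (push (ρ true) x) := by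
      simp only [sndG, zin, if_true]
    rw [h1, h2]
    constructor
    · rintro ⟨φ⟩
      exact ⟨(((pushIso _ y).trans φ).trans (pushIso _ x).symm).symm⟩
    · rintro ⟨φ⟩
      exact ⟨((pushIso _ y).symm.trans φ.symm).trans (pushIso _ x)⟩

/-- The pair as a tuple. -/
def pt (e : Pr n) : Fin 2 ↪ Fin n where
  toFun := ![e.1.1, e.1.2]
  inj' := by
    intro i j hij
    have h := e.2.ne
    fin_cases i <;> fin_cases j <;>
      simp only [Matrix.cons_val, Fin.zero_eta, Fin.mk_one, Fin.isValue] at hij ⊢
    · exact absurd hij h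
    · exact absurd hij.symm h

open Classical in
/-- Placements of a pair in `A` and of a pair in `B`. -/
noncomputable def SS2 (A B : Finset (Pr n)) : Finset ((Fin 2 ↪ Fin n) × (Fin 2 ↪ Fin n)) :=
  univ.filter (fun Q => (∃ h : Q.1 0 < Q.1 1, (⟨(Q.1 0, Q.1 1), h⟩ : Pr n) ∈ A) ∧
    ∃ h : Q.2 0 < Q.2 1, (⟨(Q.2 0, Q.2 1), h⟩ : Pr n) ∈ B)

theorem card_SS2 (A B : Finset (Pr n)) : A.card * B.card ≤ (SS2 A B).card := by
  classical
  rw [← Finset.card_product]
  apply Finset.card_le_card_of_injOn (fun ef => (pt ef.1, pt ef.2))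
  · intro ef hef
    rw [mem_coe, mem_product] at hef
    simp only [SS2, mem_coe, mem_filter, mem_univ, true_and]
    exact ⟨⟨ef.1.2, hef.1⟩, ⟨ef.2.2, hef.2⟩⟩
  · intro ef _ ef' _ h
    simp only [Prod.mk.injEq] at h
    have e0 := DFunLike.congr_fun h.1 0
    have e1 := DFunLike.congr_fun h.1 1
    have e2 := DFunLike.congr_fun h.2 0
    have e3 := DFunLike.congr_fun h.2 1
    exact Prod.ext (Subtype.ext (Prod.ext e0 e1)) (Subtype.ext (Prod.ext e2 e3))

/-- Two permutations that place many pairs well. -/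
theorem exists_perms (A B : Finset (Pr n)) :
    ∃ (ρ₁ ρ₂ : Equiv.Perm (Fin n)) (F : Finset (Pr n)),
      (∀ e ∈ F, (∃ h : ρ₁ e.1.1 < ρ₁ e.1.2, (⟨(ρ₁ e.1.1, ρ₁ e.1.2), h⟩ : Pr n) ∈ A) ∧
        ∃ h : ρ₂ e.1.1 < ρ₂ e.1.2, (⟨(ρ₂ e.1.1, ρ₂ e.1.2), h⟩ : Pr n) ∈ B) ∧
      Fintype.card (Pr n) * (A.card * B.card) ≤ F.card * n ^ 4 := by
  classical
  obtain ⟨ρ, hρ⟩ := exists_place (Ω := Equiv.Perm (Fin n) × Equiv.Perm (Fin n)) (I := Pr n)
    (T := (Fin 2 ↪ Fin n) × (Fin 2 ↪ Fin n))
    (fun ρ e => ((pt e).trans ρ.1.toEmbedding, (pt e).trans ρ.2.toEmbedding)) (by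
      intro e q q'
      have h1 : ∀ q : (Fin 2 ↪ Fin n) × (Fin 2 ↪ Fin n),
          (univ.filter (fun ρ : Equiv.Perm (Fin n) × Equiv.Perm (Fin n) =>
            ((pt e).trans ρ.1.toEmbedding, (pt e).trans ρ.2.toEmbedding) = q)) =
          (univ.filter (fun ρ : Equiv.Perm (Fin n) => (pt e).trans ρ.toEmbedding = q.1)) ×ˢ
          (univ.filter (fun ρ : Equiv.Perm (Fin n) => (pt e).trans ρ.toEmbedding = q.2)) := by
        intro q
        ext ρ
        simp only [mem_filter, mem_univ, true_and, mem_product, Prod.ext_iff]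
      rw [h1 q, h1 q', Finset.card_product, Finset.card_product,
        equi_embed (pt e) q.1 q'.1, equi_embed (pt e) q.2 q'.2]) (SS2 A B)
  refine ⟨ρ.1, ρ.2, univ.filter (fun e : Pr n =>
    ((pt e).trans ρ.1.toEmbedding, (pt e).trans ρ.2.toEmbedding) ∈ SS2 A B), ?_, ?_⟩
  · intro e he
    simp only [SS2, mem_filter, mem_univ, true_and] at he
    exact he
  · refine (Nat.mul_le_mul_left _ (card_SS2 A B)).trans (hρ.trans (Nat.mul_le_mul_left _ ?_))
    have hemb : Fintype.card (Fin 2 ↪ Fin n) ≤ n ^ 2 := by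
      rw [Fintype.card_embedding_eq, Fintype.card_fin, Fintype.card_fin]
      exact Nat.descFactorial_le_pow n 2
    rw [Fintype.card_prod]
    calc Fintype.card (Fin 2 ↪ Fin n) * Fintype.card (Fin 2 ↪ Fin n) ≤ n ^ 2 * n ^ 2 :=
          Nat.mul_le_mul hemb hemb
      _ = n ^ 4 := by ring

end

section main

variable {n s : ℕ}

/-- The circuit decides graph isomorphism, with existential guesses. -/
def DecidesIso (C : Circuit (Bool × Pr n) s) (out : (Bool × Pr n) ⊕ Fin s) : Prop :=
  ∀ z, Nonempty (fstG z ≃g sndG z) ↔ ∃ v, C.Run z v ∧ v out = true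

open Classical in
/-- The bits of a subset of `F`. -/
noncomputable def bits (F : Finset (Pr n)) (f : F → Bool) : Pr n → Bool :=
  fun e => decide (∃ h : e ∈ F, f ⟨e, h⟩ = true)

theorem bits_injective (F : Finset (Pr n)) : Function.Injective (bits F) := by
  intro f g h
  funext e
  have h1 := congrFun h e.1
  simp only [bits, decide_eq_decide] at h1
  have h2 : f e = true ↔ g e = true := by
    constructor
    · intro h3
      obtain ⟨_, h4⟩ := h1.1 ⟨e.2, h3⟩
      exact h4
    · intro h3
      obtain ⟨_, h4⟩ := h1.2 ⟨e.2, h3⟩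
      exact h4
  cases hf : f e <;> cases hg : g e <;> simp_all

/-- An edge of the image comes from an edge in `F`. -/
theorem push_bits (F : Finset (Pr n)) (f : F → Bool) (ρ : Equiv.Perm (Fin n)) (e' : Pr n)
    (A : Finset (Pr n)) (hA : ∀ e ∈ F, ∃ h : ρ e.1.1 < ρ e.1.2,
      (⟨(ρ e.1.1, ρ e.1.2), h⟩ : Pr n) ∈ A) (he' : e' ∉ A) : push ρ (bits F f) e' = false := by
  classical
  simp only [push, decide_eq_false_iff_not]
  intro h
  rw [graphOf, SimpleGraph.fromRel_adj] at h
  obtain ⟨-, ⟨h1, h2⟩ | ⟨h1, h2⟩⟩ := h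
  · simp only [bits, decide_eq_true_eq] at h2
    obtain ⟨h3, -⟩ := h2
    obtain ⟨h4, h5⟩ := hA _ h3
    simp only [Equiv.apply_symm_apply] at h4 h5
    exact he' h5
  · simp only [bits, decide_eq_true_eq] at h2
    obtain ⟨h3, -⟩ := h2
    obtain ⟨h4, h5⟩ := hA _ h3
    simp only [Equiv.apply_symm_apply] at h4
    exact absurd e'.2 (not_lt.2 h4.le)

theorem iso_bound (C : Circuit (Bool × Pr n) s) (out : (Bool × Pr n) ⊕ Fin s)
    (hC : DecidesIso C out) (M : Finset ((Bool × Pr n) ⊕ Fin s))
    (c : (Bool × Pr n) ⊕ Fin s → Bool) (hsep : C.Separates M c) (b : Bool)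
    (A B : Finset (Pr n))
    (hA : ∀ e ∈ A, (Sum.inl (b, e) : (Bool × Pr n) ⊕ Fin s) ∉ M ∧ c (.inl (b, e)) = true)
    (hB : ∀ e ∈ B, (Sum.inl (!b, e) : (Bool × Pr n) ⊕ Fin s) ∉ M ∧ c (.inl (!b, e)) = false) :
    ∃ k : ℕ, Fintype.card (Pr n) * (A.card * B.card) ≤ k * n ^ 4 ∧
      2 ^ k ≤ 8 ^ M.card * n.factorial := by
  classical
  obtain ⟨ρ₁, ρ₂, F, hF, hcard⟩ := exists_perms A B
  refine ⟨F.card, hcard, ?_⟩
  let ρ : Bool → Equiv.Perm (Fin n) := fun b' => if b' = b then ρ₁ else ρ₂
  have hρb : ρ b = ρ₁ := by simp [ρ]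
  have hρb' : ρ (!b) = ρ₂ := by simp [ρ]
  have hrun : ∀ f : F → Bool, ∃ v, C.Run (zin ρ b (bits F f) (bits F f)) v ∧ v out = true := by
    intro f
    rw [← hC, zin_iso]
    exact ⟨SimpleGraph.Iso.refl⟩
  choose v hv1 hv2 using hrun
  let τ : (F → Bool) → (M → Bool × Bool × Bool) := fun f p => trans C M c (v f) p.1
  have hτ : ∀ f g, τ f = τ g → Nonempty (graphOf (bits F f) ≃g graphOf (bits F g)) := by
    intro f g hfg
    have hrule : ∀ g', C.Rule (mix M c (v f) (v g)) g' := by
      apply mix_rule C M c hsep _ _ (hv1 f).2 (hv1 g).2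
      intro p hp
      exact congrFun hfg ⟨p, hp⟩
    have hMv : ∀ p ∈ M, v f p = v g p := by
      intro p hp
      have := congrFun hfg ⟨p, hp⟩
      have h3 := congrArg Prod.fst this
      simpa only [τ, trans_fst] using h3
    have hz : ∀ x, mix M c (v f) (v g) (.inl x) = zin ρ b (bits F f) (bits F g) x := by
      rintro ⟨b', e⟩
      by_cases hb' : b' = b
      · subst hb'
        have h1 : zin ρ b' (bits F f) (bits F g) (b', e) = push ρ₁ (bits F f) e := by
          simp only [zin, if_true, hρb]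
        have h2 : ∀ f', v f' (.inl (b', e)) = push ρ₁ (bits F f') e := by
          intro f'
          rw [(hv1 f').1]
          simp only [zin, if_true, hρb]
        rw [h1]
        simp only [mix]
        split_ifs with h3
        · exact h2 f
        · push Not at h3
          rw [h2 g]
          have heA : e ∉ A := fun h => h3.2 (hA e h).2
          rw [push_bits F g ρ₁ e A (fun e' he' => (hF e' he').1) heA,
            push_bits F f ρ₁ e A (fun e' he' => (hF e' he').1) heA]
      · have hb'' : b' = !b := by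
          cases b <;> cases b' <;> simp_all
        subst hb''
        have h1 : zin ρ b (bits F f) (bits F g) (!b, e) = push ρ₂ (bits F g) e := by
          simp only [zin, hb', if_false, hρb']
        have h2 : ∀ f', v f' (.inl (!b, e)) = push ρ₂ (bits F f') e := by
          intro f'
          rw [(hv1 f').1]
          simp only [zin, hb', if_false, hρb']
        rw [h1]
        simp only [mix]
        split_ifs with h3
        · rcases h3 with h3 | h3
          · rw [hMv _ h3, h2 g]
          · rw [h2 f]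
            have heB : e ∉ B := by
              intro h
              rw [(hB e h).2] at h3
              exact absurd h3 (by simp)
            rw [push_bits F g ρ₂ e B (fun e' he' => (hF e' he').2) heB,
              push_bits F f ρ₂ e B (fun e' he' => (hF e' he').2) heB]
        · exact h2 g
    have hacc : ∃ u, C.Run (zin ρ b (bits F f) (bits F g)) u ∧ u out = true := by
      refine ⟨mix M c (v f) (v g), ⟨hz, hrule⟩, ?_⟩
      simp only [mix]
      split_ifs
      · exact hv2 f
      · exact hv2 g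
    rw [← hC, zin_iso] at hacc
    exact hacc
  -- every fibre has at most `n!` elements
  have hfib : ∀ t ∈ (univ : Finset (M → Bool × Bool × Bool)),
      (univ.filter (fun f : F → Bool => τ f = t)).card ≤ n.factorial := by
    intro t _
    rcases Finset.eq_empty_or_nonempty (univ.filter (fun f : F → Bool => τ f = t)) with h | ⟨f0, h0⟩
    · rw [h]; simp
    · rw [mem_filter] at h0
      have hiso : ∀ g : F → Bool, τ g = t → Nonempty (graphOf (bits F f0) ≃g graphOf (bits F g)) :=
        fun g hg => hτ f0 g (h0.2.trans hg.symm)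
      let φ : (F → Bool) → Equiv.Perm (Fin n) := fun g =>
        if h : τ g = t then (Classical.choice (hiso g h)).toEquiv else 1
      have := Finset.card_le_card_of_injOn (s := univ.filter (fun f : F → Bool => τ f = t))
        (t := (univ : Finset (Equiv.Perm (Fin n)))) φ (fun _ _ => mem_coe.2 (mem_univ _)) (by
          intro g hg g' hg' hgg
          rw [mem_coe, mem_filter] at hg hg'
          simp only [φ, dif_pos hg.2, dif_pos hg'.2] at hgg
          apply bits_injective F
          apply graphOf_injective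
          ext u w
          have h1 := (Classical.choice (hiso g hg.2)).map_rel_iff'
            (a := (Classical.choice (hiso g hg.2)).toEquiv.symm u)
            (b := (Classical.choice (hiso g hg.2)).toEquiv.symm w)
          have h2 := (Classical.choice (hiso g' hg'.2)).map_rel_iff'
            (a := (Classical.choice (hiso g' hg'.2)).toEquiv.symm u)
            (b := (Classical.choice (hiso g' hg'.2)).toEquiv.symm w)
          rw [Equiv.apply_symm_apply, Equiv.apply_symm_apply] at h1 h2
          rw [h1, h2, hgg])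
      rwa [Finset.card_univ, Fintype.card_perm, Fintype.card_fin] at this
  have h1 := Finset.card_le_mul_card_image_of_maps_to (s := (univ : Finset (F → Bool)))
    (t := (univ : Finset (M → Bool × Bool × Bool))) (f := τ) (fun _ _ => mem_univ _)
    n.factorial hfib
  rw [Finset.card_univ, Finset.card_univ, Fintype.card_fun, Fintype.card_bool, Fintype.card_coe,
    Fintype.card_fun, Fintype.card_coe] at h1
  have h2 : Fintype.card (Bool × Bool × Bool) = 8 := rfl
  rw [h2] at h1
  rw [mul_comm]
  exact h1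

theorem card_bool_prod {Y : Type} [Fintype Y] (q : Bool × Y → Prop) [DecidablePred q] :
    (univ.filter q).card = (univ.filter (fun e => q (false, e))).card +
      (univ.filter (fun e => q (true, e))).card := by
  simp only [Finset.card_filter]
  rw [Fintype.sum_prod_type, Fintype.sum_bool, add_comm]

/-- One of the two products is large. -/
theorem exists_side (a α₀ α₁ β₀ β₁ : ℕ) (hα : a ≤ α₀ + α₁) (hβ : a ≤ β₀ + β₁)
    (h0 : a ≤ α₀ + β₀) (h1 : a ≤ α₁ + β₁) : a ^ 2 ≤ 8 * (α₀ * β₁) ∨ a ^ 2 ≤ 8 * (α₁ * β₀) := by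
  by_contra hcon
  push Not at hcon
  obtain ⟨h2, h3⟩ := hcon
  rcases le_total a (2 * α₀) with h | h
  · -- `β₁` is small
    have h4 : 4 * β₁ < a := by
      by_contra h5
      push Not at h5
      nlinarith
    nlinarith
  · have h6 : a ≤ 2 * α₁ := by omega
    have h4 : 4 * β₀ < a := by
      by_contra h5
      push Not at h5
      nlinarith
    nlinarith

theorem card_pr (n : ℕ) : 2 * Fintype.card (Pr n) + n = n ^ 2 := by
  classical
  have h1 : Fintype.card (Pr n) = (univ.filter (fun p : Fin n × Fin n => p.1 < p.2)).card :=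
    Fintype.card_subtype _
  have h2 : (univ.filter (fun p : Fin n × Fin n => p.1 < p.2)).card =
      (univ.filter (fun p : Fin n × Fin n => p.2 < p.1)).card := by
    apply Finset.card_bij (fun p _ => p.swap)
    · intro p hp; simpa using hp
    · intro p _ q _ h; exact Prod.swap_injective h
    · intro p hp; exact ⟨p.swap, by simpa using hp, by simp⟩
  have h3 : (univ.filter (fun p : Fin n × Fin n => p.1 = p.2)).card = n := by
    have : (univ.filter (fun p : Fin n × Fin n => p.1 = p.2)) =
        (univ : Finset (Fin n)).image (fun a => (a, a)) := by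
      ext p
      simp only [mem_filter, mem_univ, true_and, mem_image]
      constructor
      · intro h; exact ⟨p.1, Prod.ext rfl h⟩
      · rintro ⟨a, rfl⟩; rfl
    rw [this, Finset.card_image_of_injective _ (fun a b h => (Prod.ext_iff.1 h).1),
      Finset.card_univ, Fintype.card_fin]
  have h4 : (univ : Finset (Fin n × Fin n)).card = n * n := by
    rw [Finset.card_univ, Fintype.card_prod, Fintype.card_fin]
  have h5 : (univ : Finset (Fin n × Fin n)).card =
      (univ.filter (fun p : Fin n × Fin n => p.1 < p.2)).card +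
      ((univ.filter (fun p : Fin n × Fin n => p.1 = p.2)).card +
      (univ.filter (fun p : Fin n × Fin n => p.2 < p.1)).card) := by
    rw [← Finset.card_union_of_disjoint, ← Finset.card_union_of_disjoint]
    · congr 1
      ext p
      simp only [mem_univ, mem_union, mem_filter, true_and, true_iff]
      exact lt_trichotomy _ _
    · rw [Finset.disjoint_left]
      intro p hp hq
      simp only [mem_union, mem_filter, mem_univ, true_and] at hp hq
      rcases hq with hq | hq
      · exact absurd hq hp.ne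
      · exact absurd hq (not_lt.2 hp.le)
    · rw [Finset.disjoint_left]
      intro p hp hq
      simp only [mem_filter, mem_univ, true_and] at hp hq
      exact absurd hp hq.ne'
  rw [h1, pow_two]
  rw [h4, h3, ← h2] at h5
  omega

/-- **Treewidth of circuits for graph isomorphism.** -/
theorem iso_treewidth (hn : 1000 ≤ n) (hn' : n ^ 4000 ≤ 2 ^ n)
    (C : Circuit (Bool × Pr n) s) (out : (Bool × Pr n) ⊕ Fin s)
    (hC : DecidesIso C out) (D : TreeDecomposition C) :
    ∃ i, n ^ 2 ≤ 2000 * (D.bag i).card := by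
  classical
  by_contra hcon
  push Not at hcon
  obtain ⟨i0, -⟩ := D.cover out
  have hfin := D.fin
  have hne : (univ : Finset D.ι).Nonempty := ⟨i0, mem_univ _⟩
  obtain ⟨im, -, him⟩ := Finset.exists_max_image (univ : Finset D.ι) (fun i => (D.bag i).card) hne
  set w := (D.bag im).card with hw
  have hwn : 2000 * w < n ^ 2 := hcon im
  set E := Fintype.card (Pr n) with hE
  have hE2 : 2 * E + n = n ^ 2 := card_pr n
  have hn2 : 1000 * n ≤ n ^ 2 := by rw [pow_two]; exact Nat.mul_le_mul_right n hn
  set S : Finset ((Bool × Pr n) ⊕ Fin s) := univ.map ⟨Sum.inl, Sum.inl_injective⟩ with hS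
  have hScard : S.card = 2 * E := by
    rw [hS, Finset.card_map, Finset.card_univ, Fintype.card_prod, Fintype.card_bool]
  set a := (S.card - 2 * w) / 4 with ha
  obtain ⟨M, c, hsep, hMw, -, hL, hR⟩ := exists_separation D S w a (fun i => him i (mem_univ i))
    (by omega)
  let A : Bool → Finset (Pr n) := fun b => univ.filter
    (fun e => (Sum.inl (b, e) : (Bool × Pr n) ⊕ Fin s) ∉ M ∧ c (.inl (b, e)) = true)
  let B : Bool → Finset (Pr n) := fun b => univ.filter
    (fun e => (Sum.inl (b, e) : (Bool × Pr n) ⊕ Fin s) ∉ M ∧ c (.inl (b, e)) = false)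
  let Z : Bool → Finset (Pr n) := fun b => univ.filter
    (fun e => (Sum.inl (b, e) : (Bool × Pr n) ⊕ Fin s) ∈ M)
  replace hL : a ≤ (A false).card + (A true).card := by
    have h1 : {p ∈ S | p ∉ M ∧ c p = true}.card = (univ.filter (fun x : Bool × Pr n =>
        (Sum.inl x : (Bool × Pr n) ⊕ Fin s) ∉ M ∧ c (.inl x) = true)).card := by
      rw [hS, Finset.filter_map, Finset.card_map]
      rfl
    rw [card_bool_prod] at h1
    rw [← h1]
    convert hL
  replace hR : a ≤ (B false).card + (B true).card := by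
    have h1 : {p ∈ S | p ∉ M ∧ c p = false}.card = (univ.filter (fun x : Bool × Pr n =>
        (Sum.inl x : (Bool × Pr n) ⊕ Fin s) ∉ M ∧ c (.inl x) = false)).card := by
      rw [hS, Finset.filter_map, Finset.card_map]
      rfl
    rw [card_bool_prod] at h1
    rw [← h1]
    convert hR
  have hAB : ∀ b, E ≤ (A b).card + (B b).card + w := by
    intro b
    have h1 : (Z b).card ≤ M.card := by
      apply Finset.card_le_card_of_injOn (fun e => (Sum.inl (b, e) : (Bool × Pr n) ⊕ Fin s))
      · intro e he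
        have := (mem_filter.1 (mem_coe.1 he)).2
        exact this
      · intro e _ e' _ h
        simpa using h
    have h2 : E ≤ ((A b) ∪ (B b) ∪ (Z b)).card := by
      rw [hE, ← Finset.card_univ]
      apply Finset.card_le_card
      intro e _
      simp only [A, B, Z, mem_union, mem_filter, mem_univ, true_and]
      by_cases h : (Sum.inl (b, e) : (Bool × Pr n) ⊕ Fin s) ∈ M
      · exact Or.inr h
      · cases h' : c (.inl (b, e))
        · exact Or.inl (Or.inr ⟨h, rfl⟩)
        · exact Or.inl (Or.inl ⟨h, rfl⟩)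
    have h3 := Finset.card_union_le (A b ∪ B b) (Z b)
    have h4 := Finset.card_union_le (A b) (B b)
    omega
  have haE : a + w ≤ E := by omega
  have hside := exists_side a (A false).card (A true).card (B false).card (B true).card hL hR
    (by have := hAB false; omega) (by have := hAB true; omega)
  obtain ⟨b, hb⟩ : ∃ b, a ^ 2 ≤ 8 * ((A b).card * (B (!b)).card) := by
    rcases hside with h | h
    · exact ⟨false, h⟩
    · exact ⟨true, h⟩
  obtain ⟨k, hk1, hk2⟩ := iso_bound C out hC M c hsep b (A b) (B (!b))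
    (fun e he => (mem_filter.1 he).2) (fun e he => (mem_filter.1 he).2)
  rw [← hE] at hk1
  -- the exponent
  have h16 : 3 * n ^ 2 ≤ 16 * a := by omega
  have h5E : 2 * n ^ 2 ≤ 5 * E := by omega
  have h18 : n ^ 4 * (18 * n ^ 2) ≤ n ^ 4 * (10240 * k) := by
    calc n ^ 4 * (18 * n ^ 2) = (2 * n ^ 2) * (3 * n ^ 2) ^ 2 := by ring
      _ ≤ (5 * E) * (16 * a) ^ 2 := Nat.mul_le_mul h5E (Nat.pow_le_pow_left h16 2)
      _ = 1280 * (E * a ^ 2) := by ring
      _ ≤ 1280 * (E * (8 * ((A b).card * (B (!b)).card))) :=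
          Nat.mul_le_mul_left _ (Nat.mul_le_mul_left _ hb)
      _ = 10240 * (E * ((A b).card * (B (!b)).card)) := by ring
      _ ≤ 10240 * (k * n ^ 4) := Nat.mul_le_mul_left _ hk1
      _ = n ^ 4 * (10240 * k) := by ring
  have h19 : 18 * n ^ 2 ≤ 10240 * k := Nat.le_of_mul_le_mul_left h18 (by positivity)
  have h20 : (2 : ℕ) ^ (4000 * k) ≤ 2 ^ (12000 * w + n ^ 2) := by
    calc (2 : ℕ) ^ (4000 * k) = (2 ^ k) ^ 4000 := by rw [← pow_mul, mul_comm]
      _ ≤ (8 ^ M.card * n.factorial) ^ 4000 := Nat.pow_le_pow_left hk2 _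
      _ ≤ (8 ^ w * n ^ n) ^ 4000 :=
          Nat.pow_le_pow_left (Nat.mul_le_mul (Nat.pow_le_pow_right (by norm_num) hMw)
            (Nat.factorial_le_pow n)) _
      _ = 2 ^ (12000 * w) * (n ^ 4000) ^ n := by
          have h8 : (8 : ℕ) = 2 ^ 3 := by norm_num
          rw [mul_pow, h8, ← pow_mul, ← pow_mul, ← pow_mul, ← pow_mul]
          congr 1
          · congr 1; ring
          · congr 1; ring
      _ ≤ 2 ^ (12000 * w) * (2 ^ n) ^ n := Nat.mul_le_mul_left _ (Nat.pow_le_pow_left hn' _)
      _ = 2 ^ (12000 * w + n ^ 2) := by rw [← pow_mul, ← pow_two, ← pow_add]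
  have h21 : 4000 * k ≤ 12000 * w + n ^ 2 := (Nat.pow_le_pow_iff_right (by norm_num)).1 h20
  omega

end main

end Pool.Agent.V7H15.Tw
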