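import Pool.Agent.V7H15.Tw.Gad
import Pool.Agent.V7H15.Tw.Sep
import Pool.Agent.V7H15.Tw.Avg
import Pool.Agent.V7H15.Tw.Bits

/-!
# Balanced separators of circuits for Hamiltonicity
-/

set_option autoImplicit false

namespace Pool.Agent.V7H15.Tw

open Finset

section card

variable {k p : ℕ}

/-- The vertices as a sum. -/
def vxEquiv : Vx k p ≃ (Fin k × Fin 9) ⊕ (Fin k ⊕ Fin k ⊕ Fin k) ⊕ (Fin k ⊕ Fin k ⊕ Fin k) ⊕
    Fin p ⊕ Bool where
  toFun
    | .g i r => .inl (i, r)
    | .a i => .inr (.inl (.inl i))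
    | .b i => .inr (.inl (.inr (.inl i)))
    | .z i => .inr (.inl (.inr (.inr i)))
    | .c i => .inr (.inr (.inl (.inl i)))
    | .d i => .inr (.inr (.inl (.inr (.inl i))))
    | .w i => .inr (.inr (.inl (.inr (.inr i))))
    | .q r => .inr (.inr (.inr (.inl r)))
    | .ys => .inr (.inr (.inr (.inr false)))
    | .yt => .inr (.inr (.inr (.inr true)))
  invFun
    | .inl (i, r) => .g i r
    | .inr (.inl (.inl i)) => .a i
    | .inr (.inl (.inr (.inl i))) => .b i
    | .inr (.inl (.inr (.inr i))) => .z i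
    | .inr (.inr (.inl (.inl i))) => .c i
    | .inr (.inr (.inl (.inr (.inl i)))) => .d i
    | .inr (.inr (.inl (.inr (.inr i)))) => .w i
    | .inr (.inr (.inr (.inl r))) => .q r
    | .inr (.inr (.inr (.inr false))) => .ys
    | .inr (.inr (.inr (.inr true))) => .yt
  left_inv v := by cases v <;> rfl
  right_inv v := by
    rcases v with ⟨i, r⟩ | ((i | i | i) | ((i | i | i) | (r | (_ | _)))) <;> rfl

instance : Fintype (Vx k p) := Fintype.ofEquiv _ vxEquiv.symm

theorem card_vx : Fintype.card (Vx k p) = 15 * k + 2 + p := by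
  rw [Fintype.card_congr vxEquiv]
  simp only [Fintype.card_sum, Fintype.card_prod, Fintype.card_fin, Fintype.card_bool]
  ring

end card

theorem ham_iso {V W : Type} [Fintype V] [DecidableEq V] [Fintype W] [DecidableEq W]
    {G : SimpleGraph V} {H : SimpleGraph W} (e : G ≃g H) (h : G.IsHamiltonian) :
    H.IsHamiltonian := by
  intro hc
  obtain ⟨a, p, hp⟩ := h (by rwa [Fintype.card_congr e.toEquiv])
  exact ⟨e a, p.map e.toHom, hp.map e.bijective⟩

section place

variable {k p n : ℕ} (ρ : Vx k p ≃ Fin n)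

open Classical in
/-- The adjacency bits of the placed graph. -/
noncomputable def zz (x y : Fin k → Fin k → Prop) : Pr n → Bool :=
  fun e => decide ((Gr x y).Adj (ρ.symm e.1.1) (ρ.symm e.1.2))

theorem graphOf_zz (x y : Fin k → Fin k → Prop) (u v : Fin n) :
    (graphOf (zz ρ x y)).Adj u v ↔ (Gr x y).Adj (ρ.symm u) (ρ.symm v) := by
  rw [graphOf, SimpleGraph.fromRel_adj]
  simp only [zz, decide_eq_true_eq]
  constructor
  · rintro ⟨-, ⟨-, h⟩ | ⟨-, h⟩⟩
    · exact h
    · exact h.symm
  · intro h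
    have hne : u ≠ v := by
      rintro rfl
      exact (Gr x y).loopless.irrefl _ h
    refine ⟨hne, ?_⟩
    rcases lt_or_gt_of_ne hne with h1 | h1
    · exact Or.inl ⟨h1, h⟩
    · exact Or.inr ⟨h1, h.symm⟩

/-- The isomorphism. -/
def isoZ (x y : Fin k → Fin k → Prop) : Gr (p := p) x y ≃g graphOf (zz ρ x y) where
  toEquiv := ρ
  map_rel_iff' := by
    intro u v
    rw [graphOf_zz, ρ.symm_apply_apply, ρ.symm_apply_apply]

theorem ham_zz (hk : 0 < k) (hp : 0 < p) (x y : Fin k → Fin k → Prop) :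
    (graphOf (zz ρ x y)).IsHamiltonian ↔ ∃ i j, x i j ∧ y i j := by
  have hc : 3 ≤ Fintype.card (Vx k p) := by rw [card_vx]; omega
  constructor
  · intro h
    have h' := ham_iso (isoZ ρ x y).symm h
    obtain ⟨σ, h1, h2, h3⟩ := Pool.Agent.H545R2.exists_perm_of_isHamiltonian hc h'
    exact sound hk hp h1 h2 h3
  · rintro ⟨i, j, h1, h2⟩
    exact ham_iso (isoZ ρ x y) (complete hk hp hc h1 h2)

theorem adj_congr {x y x' y' : Fin k → Fin k → Prop} (u v : Vx k p)
    (h1 : ∀ i j, (u = .a i ∧ v = .c j ∨ v = .a i ∧ u = .c j) → (x i j ↔ x' i j))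
    (h2 : ∀ i j, (u = .b i ∧ v = .d j ∨ v = .b i ∧ u = .d j) → (y i j ↔ y' i j)) :
    (Gr x y).Adj u v ↔ (Gr x' y').Adj u v := by
  rw [Gr, Gr, SimpleGraph.fromRel_adj, SimpleGraph.fromRel_adj]
  refine and_congr_right fun _ => or_congr ?_ ?_
  · cases u <;> cases v <;> simp only [E]
    · exact h1 _ _ (Or.inl ⟨rfl, rfl⟩)
    · exact h2 _ _ (Or.inl ⟨rfl, rfl⟩)
  · cases u <;> cases v <;> simp only [E]
    · exact h1 _ _ (Or.inr ⟨rfl, rfl⟩)
    · exact h2 _ _ (Or.inr ⟨rfl, rfl⟩)

theorem zz_congr {x y x' y' : Fin k → Fin k → Prop} (e : Pr n)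
    (h1 : ∀ i j, (e.1.1 = ρ (.a i) ∧ e.1.2 = ρ (.c j) ∨ e.1.2 = ρ (.a i) ∧ e.1.1 = ρ (.c j)) →
      (x i j ↔ x' i j))
    (h2 : ∀ i j, (e.1.1 = ρ (.b i) ∧ e.1.2 = ρ (.d j) ∨ e.1.2 = ρ (.b i) ∧ e.1.1 = ρ (.d j)) →
      (y i j ↔ y' i j)) :
    zz ρ x y e = zz ρ x' y' e := by
  simp only [zz]
  congr 1
  apply propext
  apply adj_congr
  · intro i j h
    apply h1
    simp only [Equiv.symm_apply_eq] at h
    exact h
  · intro i j h
    apply h2
    simp only [Equiv.symm_apply_eq] at h
    exact h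

end place

section count

variable {n : ℕ}

theorem card_star (v : Fin n) :
    (univ.filter (fun f : Pr n => f.1.1 = v ∨ f.1.2 = v)).card ≤ n := by
  classical
  have h := Finset.card_le_card_of_injOn
    (s := univ.filter (fun f : Pr n => f.1.1 = v ∨ f.1.2 = v)) (t := (univ : Finset (Fin n)))
    (fun f => if f.1.1 = v then f.1.2 else f.1.1) (fun _ _ => Finset.mem_coe.2 (mem_univ _)) (by
      intro f hf g hg hfg
      simp only [coe_filter, mem_univ, true_and, Set.mem_ofPred_eq] at hf hg
      simp only at hfg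
      have hf' := f.2
      have hg' := g.2
      apply Subtype.ext
      split_ifs at hfg with h1 h2 h2
      · exact Prod.ext (h1.trans h2.symm) hfg
      · exfalso
        have h3 : g.1.2 = v := hg.resolve_left h2
        rw [h1, hfg] at hf'
        rw [h3] at hg'
        exact absurd hf' (not_lt.2 hg'.le)
      · exfalso
        have h3 : f.1.2 = v := hf.resolve_left h1
        rw [h2, ← hfg] at hg'
        rw [h3] at hf'
        exact absurd hf' (not_lt.2 hg'.le)
      · exact Prod.ext hfg ((hf.resolve_left h1).trans (hg.resolve_left h2).symm))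
  simpa using h

open Classical in
/-- Placements of a fourtuple with the first pair in `L` and the second pair in `R`. -/
noncomputable def SS (L R : Finset (Pr n)) : Finset (Fin 4 ↪ Fin n) :=
  univ.filter (fun Q => (∃ h : Q 0 < Q 1, (⟨(Q 0, Q 1), h⟩ : Pr n) ∈ L) ∧
    ∃ h : Q 2 < Q 3, (⟨(Q 2, Q 3), h⟩ : Pr n) ∈ R)

theorem card_SS (L R : Finset (Pr n)) :
    L.card * R.card ≤ (SS L R).card + 2 * n * L.card := by
  classical
  let T := (L ×ˢ R).filter (fun ef => ef.1.1.1 ≠ ef.2.1.1 ∧ ef.1.1.1 ≠ ef.2.1.2 ∧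
    ef.1.1.2 ≠ ef.2.1.1 ∧ ef.1.1.2 ≠ ef.2.1.2)
  have h1 : T.card ≤ (SS L R).card := by
    have hinj : ∀ ef ∈ T, Function.Injective ![ef.1.1.1, ef.1.1.2, ef.2.1.1, ef.2.1.2] := by
      intro ef hef
      simp only [T, mem_filter] at hef
      obtain ⟨-, h1, h2, h3, h4⟩ := hef
      have h5 := ef.1.2.ne
      have h6 := ef.2.2.ne
      intro i j hij
      fin_cases i <;> fin_cases j <;>
        simp only [Matrix.cons_val, Fin.zero_eta, Fin.mk_one, Fin.isValue, Fin.reduceFinMk] at hij ⊢
      all_goals first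
        | exact absurd hij h1
        | exact absurd hij h2
        | exact absurd hij h3
        | exact absurd hij h4
        | exact absurd hij h5
        | exact absurd hij h6
        | exact absurd hij.symm h1
        | exact absurd hij.symm h2
        | exact absurd hij.symm h3
        | exact absurd hij.symm h4
        | exact absurd hij.symm h5
        | exact absurd hij.symm h6
    have hc : T.attach.card ≤ (SS L R).card := by
      apply Finset.card_le_card_of_injOn
        (fun ef => (⟨_, hinj ef.1 ef.2⟩ : Fin 4 ↪ Fin n))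
      · intro ef _
        have hef := ef.2
        simp only [T, mem_filter, mem_product] at hef
        simp only [SS, mem_coe, mem_filter, mem_univ, true_and]
        refine ⟨⟨ef.1.1.2, hef.1.1⟩, ⟨ef.1.2.2, hef.1.2⟩⟩
      · intro ef _ ef' _ h
        apply Subtype.ext
        have e0 := DFunLike.congr_fun h 0
        have e1 := DFunLike.congr_fun h 1
        have e2 := DFunLike.congr_fun h 2
        have e3 := DFunLike.congr_fun h 3
        simp only [Function.Embedding.coeFn_mk, Matrix.cons_val] at e0 e1 e2 e3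
        exact Prod.ext (Subtype.ext (Prod.ext e0 e1)) (Subtype.ext (Prod.ext e2 e3))
    rwa [Finset.card_attach] at hc
  have h2 : (L ×ˢ R).card ≤ T.card + 2 * n * L.card := by
    have h3 : (L ×ˢ R).card = T.card + ((L ×ˢ R).filter (fun ef => ¬ (ef.1.1.1 ≠ ef.2.1.1 ∧
        ef.1.1.1 ≠ ef.2.1.2 ∧ ef.1.1.2 ≠ ef.2.1.1 ∧ ef.1.1.2 ≠ ef.2.1.2))).card := by
      rw [Finset.card_filter_add_card_filter_not]
    rw [h3]
    apply Nat.add_le_add_left
    have h4 : ((L ×ˢ R).filter (fun ef => ¬ (ef.1.1.1 ≠ ef.2.1.1 ∧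
        ef.1.1.1 ≠ ef.2.1.2 ∧ ef.1.1.2 ≠ ef.2.1.1 ∧ ef.1.1.2 ≠ ef.2.1.2))).card ≤
        ∑ e ∈ L, (univ.filter (fun f : Pr n => (f.1.1 = e.1.1 ∨ f.1.2 = e.1.1) ∨
          (f.1.1 = e.1.2 ∨ f.1.2 = e.1.2))).card := by
      rw [← Finset.card_sigma]
      apply Finset.card_le_card_of_injOn (fun ef => (⟨ef.1, ef.2⟩ : (_ : Pr n) × Pr n))
      · intro ef hef
        simp only [mem_coe, mem_filter, mem_product, mem_sigma, mem_univ, true_and] at hef ⊢
        refine ⟨hef.1.1, ?_⟩
        have := hef.2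
        by_contra hcon
        push Not at hcon
        exact this ⟨hcon.1.1.symm, hcon.1.2.symm, hcon.2.1.symm, hcon.2.2.symm⟩
      · rintro ⟨e, f⟩ _ ⟨e', f'⟩ _ h
        simp only [Sigma.mk.injEq, heq_eq_eq] at h
        rw [h.1, h.2]
    refine h4.trans ?_
    rw [mul_comm (2 * n), ← smul_eq_mul, ← Finset.sum_const]
    apply Finset.sum_le_sum
    intro e _
    rw [Finset.filter_or]
    refine (Finset.card_union_le _ _).trans ?_
    have := card_star e.1.1
    have := card_star e.1.2
    omega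
  rw [Finset.card_product] at h2
  omega

end count

section main

variable {n s : ℕ}

/-- The circuit decides, with universal guesses, whether the graph has a Hamilton cycle. -/
def DecidesHam (C : Circuit (Pr n) s) (out : Pr n ⊕ Fin s) : Prop :=
  ∀ z, (graphOf z).IsHamiltonian ↔ ∀ v, C.Run z v → v out = true

/-- The points of the tuple. -/
def pts {k p : ℕ} (ij : Fin k × Fin k) : Fin 4 ↪ Vx k p where
  toFun := ![.a ij.1, .c ij.2, .b ij.1, .d ij.2]
  inj' := by
    intro i j hij
    fin_cases i <;> fin_cases j <;>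
      simp [Matrix.cons_val] at hij ⊢

theorem sep_bound (C : Circuit (Pr n) s) (out : Pr n ⊕ Fin s) (hC : DecidesHam C out)
    (M : Finset (Pr n ⊕ Fin s)) (c : Pr n ⊕ Fin s → Bool) (hsep : C.Separates M c)
    (L R : Finset (Pr n)) (hL : ∀ e ∈ L, (Sum.inl e : Pr n ⊕ Fin s) ∉ M ∧ c (.inl e) = true)
    (hR : ∀ e ∈ R, (Sum.inl e : Pr n ⊕ Fin s) ∉ M ∧ c (.inl e) = false)
    {k p : ℕ} (hk : 0 < k) (hp : 0 < p) (hn : n = 15 * k + 2 + p) :
    k ^ 2 * (SS L R).card ≤ 3 * M.card * n ^ 4 := by
  classical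
  have hcard : Fintype.card (Vx k p) = Fintype.card (Fin n) := by
    rw [card_vx, Fintype.card_fin, hn]
  obtain ⟨ρ0⟩ := Fintype.card_eq.1 hcard
  have : Nonempty (Vx k p ≃ Fin n) := ⟨ρ0⟩
  obtain ⟨ρ, hρ⟩ := exists_place (Ω := Vx k p ≃ Fin n) (I := Fin k × Fin k) (T := Fin 4 ↪ Fin n)
    (fun ρ ij => (pts ij).trans ρ.toEmbedding) (fun ij q q' => equi_embed (pts ij) q q') (SS L R)
  set F := univ.filter (fun ij : Fin k × Fin k => (pts ij).trans ρ.toEmbedding ∈ SS L R) with hF
  have hFm : ∀ ij, ij ∈ F → (∃ h : ρ (.a ij.1) < ρ (.c ij.2),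
      (⟨(ρ (.a ij.1), ρ (.c ij.2)), h⟩ : Pr n) ∈ L) ∧
      ∃ h : ρ (.b ij.1) < ρ (.d ij.2), (⟨(ρ (.b ij.1), ρ (.d ij.2)), h⟩ : Pr n) ∈ R := by
    intro ij hij
    simp only [hF, SS, mem_filter, mem_univ, true_and] at hij
    exact hij
  -- the fooling set
  let A : (F → Bool) → Fin k → Fin k → Prop := fun f i j => ∃ h : (i, j) ∈ F, f ⟨(i, j), h⟩ = true
  let B : (F → Bool) → Fin k → Fin k → Prop := fun f i j => ∃ h : (i, j) ∈ F, f ⟨(i, j), h⟩ = false
  have hrun : ∀ f : F → Bool, ∃ v, C.Run (zz ρ (A f) (B f)) v ∧ v out = false := by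
    intro f
    have h1 : ¬ (graphOf (zz ρ (A f) (B f))).IsHamiltonian := by
      rw [ham_zz ρ hk hp]
      rintro ⟨i, j, ⟨h1, h2⟩, h3, h4⟩
      rw [h2] at h4
      exact absurd h4 (by simp)
    rw [hC] at h1
    push Not at h1
    obtain ⟨v, hv1, hv2⟩ := h1
    exact ⟨v, hv1, by simpa using hv2⟩
  choose v hv1 hv2 using hrun
  have key : ∀ f g : F → Bool, (∃ ij, f ij = true ∧ g ij = false) →
      ∀ y : Pr n → Bool,
        (∀ x, (Sum.inl x : Pr n ⊕ Fin s) ∉ M → c (.inl x) = true → y x = zz ρ (A f) (B f) x) →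
        (∀ x, (Sum.inl x : Pr n ⊕ Fin s) ∉ M → c (.inl x) = false → y x = zz ρ (A g) (B g) x) →
        (∀ x, (Sum.inl x : Pr n ⊕ Fin s) ∈ M → y x = zz ρ (A f) (B f) x) →
        (∀ x, (Sum.inl x : Pr n ⊕ Fin s) ∈ M → y x = zz ρ (A g) (B g) x) →
        ∀ u, C.Run y u → u out ≠ false := by
    rintro f g ⟨ij, hf, hg⟩ y h1 h2 h3 h4 u hu
    have hy : y = zz ρ (A f) (B g) := by
      funext e
      -- an edge `a i - c j` with `(i, j) ∈ F` is on the left
      have hl : ∀ i j, (e.1.1 = ρ (.a i) ∧ e.1.2 = ρ (.c j) ∨ e.1.2 = ρ (.a i) ∧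
          e.1.1 = ρ (.c j)) → (i, j) ∈ F →
          (Sum.inl e : Pr n ⊕ Fin s) ∉ M ∧ c (.inl e) = true := by
        intro i j h hij
        obtain ⟨⟨h5, h6⟩, -⟩ := hFm _ hij
        rcases h with ⟨h7, h8⟩ | ⟨h7, h8⟩
        · have : e = ⟨(ρ (.a i), ρ (.c j)), h5⟩ := Subtype.ext (Prod.ext h7 h8)
          rw [this]
          exact hL _ h6
        · exfalso
          have h9 := e.2
          rw [h7, h8] at h9
          exact absurd h9 (not_lt.2 h5.le)
      have hr : ∀ i j, (e.1.1 = ρ (.b i) ∧ e.1.2 = ρ (.d j) ∨ e.1.2 = ρ (.b i) ∧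
          e.1.1 = ρ (.d j)) → (i, j) ∈ F →
          (Sum.inl e : Pr n ⊕ Fin s) ∉ M ∧ c (.inl e) = false := by
        intro i j h hij
        obtain ⟨-, ⟨h5, h6⟩⟩ := hFm _ hij
        rcases h with ⟨h7, h8⟩ | ⟨h7, h8⟩
        · have : e = ⟨(ρ (.b i), ρ (.d j)), h5⟩ := Subtype.ext (Prod.ext h7 h8)
          rw [this]
          exact hR _ h6
        · exfalso
          have h9 := e.2
          rw [h7, h8] at h9
          exact absurd h9 (not_lt.2 h5.le)
      by_cases heM : (Sum.inl e : Pr n ⊕ Fin s) ∈ M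
      · rw [h3 e heM]
        apply zz_congr
        · exact fun i j _ => Iff.rfl
        · intro i j h
          constructor
          · rintro ⟨h5, -⟩
            exact absurd heM (hr i j h h5).1
          · rintro ⟨h5, -⟩
            exact absurd heM (hr i j h h5).1
      · cases hce : c (.inl e) with
        | true =>
          rw [h1 e heM hce]
          apply zz_congr
          · exact fun i j _ => Iff.rfl
          · intro i j h
            constructor
            · rintro ⟨h5, -⟩
              have := (hr i j h h5).2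
              rw [hce] at this
              exact absurd this (by simp)
            · rintro ⟨h5, -⟩
              have := (hr i j h h5).2
              rw [hce] at this
              exact absurd this (by simp)
        | false =>
          rw [h2 e heM hce]
          apply zz_congr
          · intro i j h
            constructor
            · rintro ⟨h5, -⟩
              have := (hl i j h h5).2
              rw [hce] at this
              exact absurd this (by simp)
            · rintro ⟨h5, -⟩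
              have := (hl i j h h5).2
              rw [hce] at this
              exact absurd this (by simp)
          · exact fun i j _ => Iff.rfl
    subst hy
    have h5 : (graphOf (zz ρ (A f) (B g))).IsHamiltonian := by
      rw [ham_zz ρ hk hp]
      exact ⟨ij.1.1, ij.1.2, ⟨ij.2, hf⟩, ⟨ij.2, hg⟩⟩
    rw [hC] at h5
    rw [h5 u hu]
    simp
  have hfool := fooling C M c hsep (fun f => zz ρ (A f) (B f)) v out false hv1 hv2 (by
    intro f g hfg
    obtain ⟨ij, hij⟩ : ∃ ij, f ij ≠ g ij := by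
      by_contra h
      push Not at h
      exact hfg (funext h)
    cases hf : f ij with
    | true =>
      have hg : g ij = false := by
        cases hg : g ij
        · rfl
        · rw [hf, hg] at hij; exact absurd rfl hij
      exact ⟨f, g, Or.inl ⟨rfl, rfl⟩, key f g ⟨ij, hf, hg⟩⟩
    | false =>
      have hg : g ij = true := by
        cases hg : g ij
        · rw [hf, hg] at hij; exact absurd rfl hij
        · rfl
      exact ⟨g, f, Or.inr ⟨rfl, rfl⟩, key g f ⟨ij, hg, hf⟩⟩)
  have hF3 : F.card ≤ 3 * M.card := by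
    rw [Fintype.card_fun, Fintype.card_bool, Fintype.card_coe] at hfool
    have h8 : (8 : ℕ) ^ M.card = 2 ^ (3 * M.card) := by
      rw [pow_mul]; norm_num
    rw [h8] at hfool
    exact (Nat.pow_le_pow_iff_right (by norm_num)).1 hfool
  have hemb : Fintype.card (Fin 4 ↪ Fin n) ≤ n ^ 4 := by
    rw [Fintype.card_embedding_eq, Fintype.card_fin, Fintype.card_fin]
    exact Nat.descFactorial_le_pow n 4
  calc k ^ 2 * (SS L R).card = Fintype.card (Fin k × Fin k) * (SS L R).card := by
        rw [Fintype.card_prod, Fintype.card_fin, pow_two]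
    _ ≤ F.card * Fintype.card (Fin 4 ↪ Fin n) := hρ
    _ ≤ 3 * M.card * n ^ 4 := Nat.mul_le_mul hF3 hemb

/-- **Treewidth of circuits for Hamiltonicity.** -/
theorem ham_treewidth (C : Circuit (Pr n) s) (out : Pr n ⊕ Fin s) (hC : DecidesHam C out)
    (D : TreeDecomposition C) : ∃ i, n ^ 2 ≤ 100000 * (D.bag i).card := by
  classical
  by_contra hcon
  push Not at hcon
  -- a nonempty bag
  obtain ⟨i0, hi0⟩ := D.cover out
  have hpos : 0 < (D.bag i0).card := Finset.card_pos.2 ⟨out, hi0⟩
  have hn : 316 < n := by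
    have := hcon i0
    by_contra h
    push Not at h
    have h2 : n ^ 2 ≤ 316 ^ 2 := Nat.pow_le_pow_left h 2
    omega
  have hfin := D.fin
  -- the largest bag
  have hne : (univ : Finset D.ι).Nonempty := ⟨i0, mem_univ _⟩
  obtain ⟨im, -, him⟩ := Finset.exists_max_image (univ : Finset D.ι) (fun i => (D.bag i).card) hne
  set w := (D.bag im).card with hw
  have hwn : 100000 * w < n ^ 2 := hcon im
  have hE : Fintype.card (Pr n) = n * (n - 1) / 2 := by
    have h1 : Fintype.card (Pr n) = (univ.filter (fun p : Fin n × Fin n => p.1 < p.2)).card :=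
      Fintype.card_subtype _
    have h2 : (univ.filter (fun p : Fin n × Fin n => p.1 < p.2)).card =
        (univ.filter (fun p : Fin n × Fin n => p.2 < p.1)).card := by
      apply Finset.card_bij (fun p _ => p.swap)
      · intro p hp; simpa using hp
      · intro p _ q _ h; exact Prod.swap_injective h
      · intro p hp; exact ⟨p.swap, by simpa using hp, by simp⟩
    have h3 : (univ.filter (fun p : Fin n × Fin n => p.1 = p.2)).card = n := by
      have : (univ.filter (fun p : Fin n × Fin n => p.1 = p.2)) =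
          (univ : Finset (Fin n)).image (fun a => (a, a)) := by
        ext p
        simp only [mem_filter, mem_univ, true_and, mem_image]
        constructor
        · intro h; exact ⟨p.1, Prod.ext rfl h⟩
        · rintro ⟨a, rfl⟩; rfl
      rw [this, Finset.card_image_of_injective _ (fun a b h => (Prod.ext_iff.1 h).1),
        Finset.card_univ, Fintype.card_fin]
    have h4 : (univ : Finset (Fin n × Fin n)).card = n * n := by
      rw [Finset.card_univ, Fintype.card_prod, Fintype.card_fin]
    have h5 : (univ : Finset (Fin n × Fin n)).card =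
        (univ.filter (fun p : Fin n × Fin n => p.1 < p.2)).card +
        ((univ.filter (fun p : Fin n × Fin n => p.1 = p.2)).card +
        (univ.filter (fun p : Fin n × Fin n => p.2 < p.1)).card) := by
      rw [← Finset.card_union_of_disjoint, ← Finset.card_union_of_disjoint]
      · congr 1
        ext p
        simp only [mem_univ, mem_union, mem_filter, true_and, true_iff]
        exact lt_trichotomy _ _
      · rw [Finset.disjoint_left]
        intro p hp hq
        simp only [mem_union, mem_filter, mem_univ, true_and] at hp hq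
        rcases hq with hq | hq
        · exact absurd hq hp.ne
        · exact absurd hq (not_lt.2 hp.le)
      · rw [Finset.disjoint_left]
        intro p hp hq
        simp only [mem_filter, mem_univ, true_and] at hp hq
        exact absurd hp hq.ne'
    rw [h1]
    rw [h4, h3, ← h2] at h5
    have h6 : n * (n - 1) = n * n - n := by rw [Nat.mul_sub, mul_one]
    rw [h6]
    omega
  -- the separation
  set S : Finset (Pr n ⊕ Fin s) := univ.map ⟨Sum.inl, Sum.inl_injective⟩ with hS
  have hScard : S.card = n * (n - 1) / 2 := by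
    rw [hS, Finset.card_map, Finset.card_univ, hE]
  set a := (S.card - 2 * w) / 4 with ha
  have hwS : 2 * w ≤ S.card := by
    rw [hScard]
    have h1 : n * (n - 1) = n * n - n := by rw [Nat.mul_sub, mul_one]
    have h2 : n * 2 ≤ n * n := Nat.mul_le_mul_left n (by omega)
    rw [h1]
    rw [pow_two] at hwn
    omega
  obtain ⟨M, c, hsep, hMw, -, hL, hR⟩ := exists_separation D S w a (fun i => him i (mem_univ i))
    (by omega)
  set L : Finset (Pr n) := univ.filter (fun e => (Sum.inl e : Pr n ⊕ Fin s) ∉ M ∧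
    c (.inl e) = true) with hLdef
  set R : Finset (Pr n) := univ.filter (fun e => (Sum.inl e : Pr n ⊕ Fin s) ∉ M ∧
    c (.inl e) = false) with hRdef
  have hcL : {p ∈ S | p ∉ M ∧ c p = true}.card = L.card := by
    rw [hS, Finset.filter_map, Finset.card_map]
    rfl
  have hcR : {p ∈ S | p ∉ M ∧ c p = false}.card = R.card := by
    rw [hS, Finset.filter_map, Finset.card_map]
    rfl
  replace hL : a ≤ L.card := by rw [← hcL]; convert hL
  replace hR : a ≤ R.card := by rw [← hcR]; convert hR
  -- the bound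
  obtain ⟨k, p, hk, hp, hnkp, hk16⟩ : ∃ k p, 0 < k ∧ 0 < p ∧ n = 15 * k + 2 + p ∧ n ≤ 16 * k :=
    ⟨(n - 3) / 15, n - 15 * ((n - 3) / 15) - 2, by omega, by omega, by omega, by omega⟩
  have h1 := sep_bound C out hC M c hsep L R
    (fun e he => by
      have := (mem_filter.1 he).2
      exact this)
    (fun e he => by
      have := (mem_filter.1 he).2
      exact this) hk hp hnkp
  have h2 := card_SS L R
  have h9a : n ^ 2 ≤ 9 * a := by
    have h3 : n * (n - 1) = n * n - n := by rw [Nat.mul_sub, mul_one]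
    have h4 : n * 317 ≤ n * n := Nat.mul_le_mul_left n (by omega)
    rw [ha, hScard, h3]
    rw [pow_two] at hwn ⊢
    omega
  have hn2 : 18 * n ≤ n ^ 2 := by
    rw [pow_two]
    exact Nat.mul_le_mul_right n (by omega)
  obtain ⟨b, hb⟩ : ∃ b, a = b + 2 * n := ⟨a - 2 * n, by omega⟩
  have h9b : n ^ 2 ≤ 9 * b + 18 * n := by omega
  have hab : a * b ≤ (SS L R).card := by
    obtain ⟨b', hb'⟩ : ∃ b', R.card = b' + 2 * n := ⟨R.card - 2 * n, by omega⟩
    have h5 : L.card * b' ≤ (SS L R).card := by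
      rw [hb', Nat.mul_add] at h2
      have : L.card * (2 * n) = 2 * n * L.card := mul_comm _ _
      omega
    have h6 : b ≤ b' := by omega
    exact (Nat.mul_le_mul hL h6).trans h5
  have h7 : k ^ 2 * (a * b) ≤ 3 * w * n ^ 4 := by
    calc k ^ 2 * (a * b) ≤ k ^ 2 * (SS L R).card := Nat.mul_le_mul_left _ hab
      _ ≤ 3 * M.card * n ^ 4 := h1
      _ ≤ 3 * w * n ^ 4 := Nat.mul_le_mul_right _ (Nat.mul_le_mul_left _ hMw)
  -- conclusion
  have hnpos : 0 < n := by omega
  have h8 : n ^ 2 * (n ^ 2 * (9 * b)) ≤ 20736 * (3 * w * n ^ 4) := by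
    calc n ^ 2 * (n ^ 2 * (9 * b)) ≤ (16 * k) ^ 2 * ((9 * a) * (9 * b)) :=
          Nat.mul_le_mul (Nat.pow_le_pow_left hk16 2) (Nat.mul_le_mul_right _ h9a)
      _ = 20736 * (k ^ 2 * (a * b)) := by ring
      _ ≤ 20736 * (3 * w * n ^ 4) := Nat.mul_le_mul_left _ h7
  have h10 : n ^ 4 * (9 * b) ≤ n ^ 4 * (62208 * w) := by
    calc n ^ 4 * (9 * b) = n ^ 2 * (n ^ 2 * (9 * b)) := by ring
      _ ≤ 20736 * (3 * w * n ^ 4) := h8
      _ = n ^ 4 * (62208 * w) := by ring
  have h11 : 9 * b ≤ 62208 * w := Nat.le_of_mul_le_mul_left h10 (by positivity)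
  have h12 : 317 * n ≤ n ^ 2 := by
    rw [pow_two]
    exact Nat.mul_le_mul_right n (by omega)
  omega

end main

end Pool.Agent.V7H15.Tw
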