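import Pool.Agent.V7H15.Tw.Exist

/-!
# Hamiltonicity with existential guesses
-/

set_option autoImplicit false

namespace Pool.Agent.V7H15.Tw

open Finset SimpleGraph

theorem exists_equiv_of_isHamiltonian {V : Type*} [Fintype V] [DecidableEq V]
    {G : SimpleGraph V} (M : ℕ) (hcard : Fintype.card V = M + 3) (h : G.IsHamiltonian) :
    ∃ e : Fin (M + 3) ≃ V, ∀ i, G.Adj (e i) (e (i + 1)) := by
  obtain ⟨a, p, hp⟩ := h (by omega)
  have hnil : ¬ p.Nil := hp.isCycle.not_nil
  have hT := hp.isHamiltonian_tail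
  have hlen : p.tail.support.length = Fintype.card V := hT.length_support
  let e0 := hT.getVertEquiv
  let e : Fin (M + 3) ≃ V := (finCongr (by rw [hlen, hcard])).trans e0
  have he : ∀ i : Fin (M + 3), e i = p.tail.getVert i.val := by
    intro i
    simp [e, e0]
  have hlt : p.tail.length = M + 2 := by
    have := hT.length_eq
    omega
  refine ⟨e, ?_⟩
  intro i
  rw [he, he]
  rcases Nat.lt_or_ge (i.val + 1) (M + 3) with hi | hi
  · have : (i + 1 : Fin (M + 3)).val = i.val + 1 := by
      rw [Fin.val_add_one_of_lt']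
      exact hi
    rw [this]
    exact p.tail.adj_getVert_succ (by omega)
  · have hi2 : i.val = M + 2 := by omega
    have : (i + 1 : Fin (M + 3)).val = 0 := by
      have : i = Fin.last (M + 2) := by
        ext; simp [hi2]
      rw [this]; simp
    rw [this, hi2, Walk.getVert_zero]
    have : p.tail.getVert (M + 2) = a := by
      rw [← hlt]; exact Walk.getVert_length _
    rw [this]
    exact p.adj_snd hnil

theorem isHamiltonian_of_equiv {V : Type*} [Fintype V] [DecidableEq V]
    {G : SimpleGraph V} (M : ℕ) (e : Fin (M + 3) ≃ V) (he : ∀ i, G.Adj (e i) (e (i + 1))) :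
    G.IsHamiltonian := by
  refine Pool.Agent.H545R2.isHamiltonian_of_list (List.ofFn e) ?_ ?_ ?_ ?_ ?_
  · exact List.nodup_ofFn.2 e.injective
  · intro v
    rw [List.mem_ofFn]
    exact ⟨e.symm v, e.apply_symm_apply v⟩
  · rw [List.length_ofFn]; omega
  · rw [List.isChain_ofFn]
    intro i hi
    have h1 := he ⟨i, by omega⟩
    have h2 : (⟨i, by omega⟩ : Fin (M + 3)) + 1 = ⟨i + 1, hi⟩ := by
      apply Fin.ext
      rw [Fin.val_add_one_of_lt']
      exact hi
    rwa [h2] at h1
  · intro x hx y hy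
    have h1 : (List.ofFn e).getLast? = some (e (Fin.last (M + 2))) := by
      rw [List.getLast?_eq_getElem?, List.length_ofFn, List.getElem?_ofFn]
      simp
      rfl
    have h2 : (List.ofFn e).head? = some (e 0) := by
      rw [List.head?_eq_getElem?, List.getElem?_ofFn]
      simp
    rw [h1] at hx
    rw [h2] at hy
    simp only [Option.mem_def, Option.some.injEq] at hx hy
    subst hx; subst hy
    have h3 := he (Fin.last (M + 2))
    rwa [Fin.last_add_one] at h3

/-- **Existential guesses.** -/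
theorem ham_exists (n : ℕ) (hn : 3 ≤ n) :
    ∃ (s : ℕ) (C : Circuit (Pr n) s) (out : Pr n ⊕ Fin s),
      (∀ z : Pr n → Bool, (graphOf z).IsHamiltonian ↔ ∃ v, C.Run z v ∧ v out = true) ∧
      ∃ D : TreeDecomposition C, ∀ i, (D.bag i).card ≤ Nat.clog 2 n.factorial + 3 := by
  classical
  obtain ⟨M, rfl⟩ : ∃ M, n = M + 3 := ⟨n - 3, by omega⟩
  let used : Pr (M + 3) → Equiv.Perm (Fin (M + 3)) → Prop := fun e π =>
    ∃ i, (e.1.1 = π i ∧ e.1.2 = π (i + 1)) ∨ (e.1.2 = π i ∧ e.1.1 = π (i + 1))
  obtain ⟨s, C, out, h1, h2⟩ := upper_exists (X := Pr (M + 3)) (W := Equiv.Perm (Fin (M + 3)))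
    (Nat.clog 2 (M + 3).factorial) (by
      rw [Fintype.card_perm, Fintype.card_fin]
      exact Nat.le_pow_clog (by norm_num) _) (fun e π => ¬ used e π)
  refine ⟨s, C, out, fun z => ?_, h2⟩
  rw [← h1]
  constructor
  · intro h
    obtain ⟨e, he⟩ := exists_equiv_of_isHamiltonian M (by rw [Fintype.card_fin]) h
    refine ⟨e, fun x => ?_⟩
    by_cases hx : used x e
    · left
      obtain ⟨i, ⟨h3, h4⟩ | ⟨h3, h4⟩⟩ := hx
      · have h5 := he i
        rw [← h3, ← h4, graphOf, SimpleGraph.fromRel_adj] at h5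
        rcases h5.2 with ⟨h6, h7⟩ | ⟨h6, -⟩
        · exact h7
        · exact absurd x.2 (not_lt.2 h6.le)
      · have h5 := (he i).symm
        rw [← h3, ← h4, graphOf, SimpleGraph.fromRel_adj] at h5
        rcases h5.2 with ⟨h6, h7⟩ | ⟨h6, -⟩
        · exact h7
        · exact absurd x.2 (not_lt.2 h6.le)
    · exact Or.inr hx
  · rintro ⟨e, he⟩
    apply isHamiltonian_of_equiv M e
    intro i
    have hne : e i ≠ e (i + 1) := by
      intro h
      have h3 := e.injective h
      have h4 : (1 : Fin (M + 3)) = 0 := by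
        have := congrArg (fun t => t - i) h3
        simpa using this.symm
      exact absurd (congrArg Fin.val h4) (by simp)
    rw [graphOf, SimpleGraph.fromRel_adj]
    refine ⟨hne, ?_⟩
    rcases lt_or_gt_of_ne hne with h | h
    · left
      refine ⟨h, ?_⟩
      rcases he ⟨(e i, e (i + 1)), h⟩ with h5 | h5
      · exact h5
      · exact absurd ⟨i, Or.inl ⟨rfl, rfl⟩⟩ h5
    · right
      refine ⟨h, ?_⟩
      rcases he ⟨(e (i + 1), e i), h⟩ with h5 | h5
      · exact h5
      · exact absurd ⟨i, Or.inr ⟨rfl, rfl⟩⟩ h5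

end Pool.Agent.V7H15.Tw
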