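import Pool.Agent.V7H15.Tw.Minor

/-!
# Separators in graphs without a given complete minor: the main theorem
-/

set_option autoImplicit false

namespace Pool.Agent.V7H15.Tw

open Finset

variable {V : Type} [Fintype V] [DecidableEq V] {G : SimpleGraph V}

open Classical in
/-- The union of all connected sets outside `X` with more than half of the weight. -/
noncomputable def bigPart (G : SimpleGraph V) (S : V → ℕ) (X : Finset V) : Finset V :=
  univ.filter (fun v => ∃ B : Finset V, v ∈ B ∧ Disjoint B X ∧ Con G (B : Set V) ∧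
    ∑ u, S u < 2 * ∑ u ∈ B, S u)

theorem mem_bigPart {S : V → ℕ} {X : Finset V} {v : V} : v ∈ bigPart G S X ↔
    ∃ B : Finset V, v ∈ B ∧ Disjoint B X ∧ Con G (B : Set V) ∧
      ∑ u, S u < 2 * ∑ u ∈ B, S u := by
  classical
  simp only [bigPart, mem_filter, mem_univ, true_and]

theorem bigPart_disjoint (S : V → ℕ) (X : Finset V) : Disjoint (bigPart G S X) X := by
  rw [Finset.disjoint_left]
  intro v hv hX
  obtain ⟨B, h1, h2, -⟩ := mem_bigPart.1 hv
  exact Finset.disjoint_left.1 h2 h1 hX

theorem bigPart_anti (S : V → ℕ) {X Y : Finset V} (h : X ⊆ Y) :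
    bigPart G S Y ⊆ bigPart G S X := by
  intro v hv
  obtain ⟨B, h1, h2, h3⟩ := mem_bigPart.1 hv
  exact mem_bigPart.2 ⟨B, h1, h2.mono_right h, h3⟩

theorem big_meet {S : V → ℕ} {B B' : Finset V} (h : ∑ u, S u < 2 * ∑ u ∈ B, S u)
    (h' : ∑ u, S u < 2 * ∑ u ∈ B', S u) : ∃ z, z ∈ B ∧ z ∈ B' := by
  by_contra hcon
  push Not at hcon
  have h1 : Disjoint B B' := by
    rw [Finset.disjoint_left]
    exact hcon
  have h2 : ∑ u ∈ B, S u + ∑ u ∈ B', S u ≤ ∑ u, S u := by
    rw [← Finset.sum_union h1]
    exact Finset.sum_le_sum_of_subset (Finset.subset_univ _)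
  omega

theorem bigPart_con (S : V → ℕ) (X : Finset V) : Con G (bigPart G S X : Set V) := by
  intro x hx y hy
  obtain ⟨B, h1, h2, h3, h4⟩ := mem_bigPart.1 (mem_coe.1 hx)
  obtain ⟨B', h1', h2', h3', h4'⟩ := mem_bigPart.1 (mem_coe.1 hy)
  obtain ⟨z, hz, hz'⟩ := big_meet h4 h4'
  have hB : (B : Set V) ⊆ (bigPart G S X : Set V) := by
    intro v hv
    exact mem_coe.2 (mem_bigPart.2 ⟨B, mem_coe.1 hv, h2, h3, h4⟩)
  have hB' : (B' : Set V) ⊆ (bigPart G S X : Set V) := by
    intro v hv
    exact mem_coe.2 (mem_bigPart.2 ⟨B', mem_coe.1 hv, h2', h3', h4'⟩)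
  exact ((h3 x (mem_coe.2 h1) z (mem_coe.2 hz)).mono hB).trans'
    ((h3' z (mem_coe.2 hz') y (mem_coe.2 h1')).mono hB')

theorem bigPart_closed {S : V → ℕ} {X : Finset V} {v w : V} (hv : v ∈ bigPart G S X) (hvw : G.Adj v w)
    (hw : w ∉ X) : w ∈ bigPart G S X := by
  obtain ⟨B, h1, h2, h3, h4⟩ := mem_bigPart.1 hv
  refine mem_bigPart.2 ⟨B ∪ {w}, by simp, ?_, ?_, ?_⟩
  · rw [Finset.disjoint_left] at h2 ⊢
    intro u hu
    rw [mem_union, mem_singleton] at hu
    rcases hu with hu | rfl
    · exact h2 hu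
    · exact hw
  · rw [Finset.coe_union, Finset.coe_singleton]
    exact con_insert h3 (mem_coe.2 h1) hvw
  · exact h4.trans_le (Nat.mul_le_mul_left 2
      (Finset.sum_le_sum_of_subset Finset.subset_union_left))

/-- A closed set that meets the big part contains it. -/
theorem bigPart_sub {S : V → ℕ} {X : Finset V} {R : Finset V}
    (hR : ∀ v ∈ R, ∀ w, G.Adj v w → w ∉ X → w ∈ R) {r : V} (hr : r ∈ R)
    (hrX : r ∈ bigPart G S X) : bigPart G S X ⊆ R := by
  intro v hv
  refine (bigPart_con S X r (mem_coe.2 hrX) v (mem_coe.2 hv)).closed (p := fun x => x ∈ R) hr ?_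
  intro x y _ hy hxy hx
  exact hR x hx y hxy (fun h => Finset.disjoint_left.1 (bigPart_disjoint S X) (mem_coe.1 hy) h)

/-- The states of the search for a complete minor. -/
structure Good (G : SimpleGraph V) (S : V → ℕ) (h r : ℕ) (I : Finset (Fin h))
    (C : Fin h → Finset V) (X : Finset V) : Prop where
  ne : ∀ i ∈ I, (C i).Nonempty
  con : ∀ i ∈ I, Con G (C i : Set V)
  dis : ∀ i ∈ I, ∀ j ∈ I, i ≠ j → Disjoint (C i) (C j)
  adj : ∀ i ∈ I, ∀ j ∈ I, i ≠ j → ∃ x ∈ C i, ∃ y ∈ C j, G.Adj x y
  sub : ∀ x ∈ X, ∃ i ∈ I, x ∈ C i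
  card : ∀ i ∈ I, (X ∩ C i).card ≤ r
  off : ∀ i ∈ I, Disjoint (C i) (bigPart G S X)

theorem Good.card_le {S : V → ℕ} {h r : ℕ} {I : Finset (Fin h)}
    {C : Fin h → Finset V} {X : Finset V} (hg : Good G S h r I C X) : X.card ≤ I.card * r := by
  have h1 : X ⊆ I.biUnion (fun i => X ∩ C i) := by
    intro x hx
    obtain ⟨i, hi, hxi⟩ := hg.sub x hx
    exact mem_biUnion.2 ⟨i, hi, mem_inter.2 ⟨hx, hxi⟩⟩
  exact (Finset.card_le_card h1).trans (Finset.card_biUnion_le_card_mul _ _ _ hg.card)

/-- **The theorem of Alon, Seymour and Thomas.** If no set of at most `h * r` vertices cuts the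
graph into parts of small weight, there is a complete minor of order `h`. -/
theorem exists_minor (G : SimpleGraph V) (S : V → ℕ) (h r : ℕ)
    (hN : h * Fintype.card V ≤ r ^ 2)
    (hS : ∀ X : Finset V, X.card ≤ h * r → ∃ B : Finset V, Disjoint B X ∧ Con G (B : Set V) ∧
      ∑ u, S u < 2 * ∑ u ∈ B, S u) :
    ∃ C : Fin h → Finset V, (∀ i, (C i).Nonempty) ∧ (∀ i, Con G (C i : Set V)) ∧
      (∀ i j, i ≠ j → Disjoint (C i) (C j)) ∧
      ∀ i j, i ≠ j → ∃ x ∈ C i, ∃ y ∈ C j, G.Adj x y := by
  classical
  -- the big parts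
  have hbig : ∀ X : Finset V, X.card ≤ h * r → (bigPart G S X).Nonempty := by
    intro X hX
    obtain ⟨B, h1, h2, h3⟩ := hS X hX
    have h4 : B.Nonempty := by
      rw [Finset.nonempty_iff_ne_empty]
      rintro rfl
      rw [Finset.sum_empty] at h3
      omega
    obtain ⟨v, hv⟩ := h4
    exact ⟨v, mem_bigPart.2 ⟨B, hv, h1, h2, h3⟩⟩
  -- a least state
  obtain ⟨⟨I, C, X⟩, hg, hmin⟩ : ∃ st : Finset (Fin h) × (Fin h → Finset V) × Finset V,
      Good G S h r st.1 st.2.1 st.2.2 ∧ ∀ st' : Finset (Fin h) × (Fin h → Finset V) × Finset V,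
      Good G S h r st'.1 st'.2.1 st'.2.2 →
      (bigPart G S st.2.2).card * (h + 1) + st.1.card ≤
        (bigPart G S st'.2.2).card * (h + 1) + st'.1.card := by
    obtain ⟨st, h1, h2⟩ := WellFounded.has_min
      (measure (fun st : Finset (Fin h) × (Fin h → Finset V) × Finset V =>
        (bigPart G S st.2.2).card * (h + 1) + st.1.card)).wf
      {st | Good G S h r st.1 st.2.1 st.2.2}
      ⟨(∅, fun _ => ∅, ∅), by
        constructor <;> simp⟩
    refine ⟨st, h1, fun st' h' => ?_⟩
    have := h2 st' h'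
    exact not_lt.1 this
  dsimp only at hg hmin
  have hIh : I.card ≤ h := (Finset.card_le_univ I).trans (by rw [Fintype.card_fin])
  have hXh : X.card ≤ h * r := hg.card_le.trans (Nat.mul_le_mul_right r hIh)
  -- every set touches the big part
  have htouch : ∀ i ∈ I, ∃ x ∈ C i, ∃ y ∈ bigPart G S X, G.Adj x y := by
    intro i hi
    by_contra hcon
    push Not at hcon
    have hsub : bigPart G S (X \ C i) ⊆ bigPart G S X := by
      obtain ⟨v, hv⟩ := hbig X hXh
      refine bigPart_sub (R := bigPart G S X) ?_ hv (bigPart_anti S Finset.sdiff_subset hv)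
      intro v hv w hvw hw
      by_cases hwC : w ∈ C i
      · exact absurd hvw.symm (hcon w hwC v hv)
      · exact bigPart_closed hv hvw (fun h' => hw (mem_sdiff.2 ⟨h', hwC⟩))
    have hnew : Good G S h r (I.erase i) C (X \ C i) := by
      refine ⟨?_, ?_, ?_, ?_, ?_, ?_, ?_⟩
      · exact fun j hj => hg.ne j (Finset.mem_of_mem_erase hj)
      · exact fun j hj => hg.con j (Finset.mem_of_mem_erase hj)
      · exact fun j hj l hl => hg.dis j (Finset.mem_of_mem_erase hj) l (Finset.mem_of_mem_erase hl)
      · exact fun j hj l hl => hg.adj j (Finset.mem_of_mem_erase hj) l (Finset.mem_of_mem_erase hl)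
      · intro x hx
        rw [mem_sdiff] at hx
        obtain ⟨j, hj, hxj⟩ := hg.sub x hx.1
        refine ⟨j, Finset.mem_erase.2 ⟨?_, hj⟩, hxj⟩
        rintro rfl
        exact hx.2 hxj
      · intro j hj
        refine le_trans (Finset.card_le_card ?_) (hg.card j (Finset.mem_of_mem_erase hj))
        exact Finset.inter_subset_inter_right Finset.sdiff_subset
      · intro j hj
        exact (hg.off j (Finset.mem_of_mem_erase hj)).mono_right hsub
    have h1 := hmin (I.erase i, C, X \ C i) hnew
    dsimp only at h1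
    have h2 := Finset.card_erase_lt_of_mem hi
    have h3 := Finset.card_le_card hsub
    have h4 := Nat.mul_le_mul_right (h + 1) h3
    omega
  -- a small connected set in the big part
  have hTstep : ∀ j0, j0 ∉ I → ∀ T : Finset V, T ⊆ bigPart G S X → T.Nonempty → T.card ≤ r →
      Con G (T : Set V) → (∀ i ∈ I, ∃ x ∈ C i, ∃ y ∈ T, G.Adj x y) → False := by
    intro j0 hj0 T hTβ hTne hTr hTcon hTadj
    have hne : ∀ i ∈ I, i ≠ j0 := by
      rintro i hi rfl
      exact hj0 hi
    have hCi : ∀ i ∈ I, Function.update C j0 T i = C i := fun i hi =>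
      Function.update_of_ne (hne i hi) _ _
    have hCj : Function.update C j0 T j0 = T := Function.update_self _ _ _
    have hTC : ∀ i ∈ I, Disjoint (C i) T := fun i hi => (hg.off i hi).mono_right hTβ
    have hTX : Disjoint T X := (bigPart_disjoint S X).mono_left hTβ
    have hnew : Good G S h r (insert j0 I) (Function.update C j0 T) (X ∪ T) := by
      refine ⟨?_, ?_, ?_, ?_, ?_, ?_, ?_⟩
      · intro j hj
        rcases Finset.mem_insert.1 hj with rfl | hj
        · rw [hCj]; exact hTne
        · rw [hCi j hj]; exact hg.ne j hj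
      · intro j hj
        rcases Finset.mem_insert.1 hj with rfl | hj
        · rw [hCj]; exact hTcon
        · rw [hCi j hj]; exact hg.con j hj
      · intro j hj l hl hjl
        rcases Finset.mem_insert.1 hj with rfl | hj' <;>
          rcases Finset.mem_insert.1 hl with rfl | hl'
        · exact absurd rfl hjl
        · rw [hCj, hCi l hl']; exact (hTC l hl').symm
        · rw [hCj, hCi j hj']; exact hTC j hj'
        · rw [hCi j hj', hCi l hl']; exact hg.dis j hj' l hl' hjl
      · intro j hj l hl hjl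
        rcases Finset.mem_insert.1 hj with rfl | hj' <;>
          rcases Finset.mem_insert.1 hl with rfl | hl'
        · exact absurd rfl hjl
        · rw [hCj, hCi l hl']
          obtain ⟨x, hx, y, hy, hxy⟩ := hTadj l hl'
          exact ⟨y, hy, x, hx, hxy.symm⟩
        · rw [hCj, hCi j hj']; exact hTadj j hj'
        · rw [hCi j hj', hCi l hl']; exact hg.adj j hj' l hl' hjl
      · intro x hx
        rcases Finset.mem_union.1 hx with hx | hx
        · obtain ⟨i, hi, hxi⟩ := hg.sub x hx
          exact ⟨i, Finset.mem_insert_of_mem hi, by rw [hCi i hi]; exact hxi⟩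
        · exact ⟨j0, Finset.mem_insert_self _ _, by rw [hCj]; exact hx⟩
      · intro j hj
        rcases Finset.mem_insert.1 hj with rfl | hj
        · rw [hCj]
          exact (Finset.card_le_card Finset.inter_subset_right).trans hTr
        · rw [hCi j hj]
          refine le_trans (Finset.card_le_card ?_) (hg.card j hj)
          intro x hx
          rw [mem_inter, mem_union] at hx
          rcases hx with ⟨hx | hx, hx'⟩
          · exact mem_inter.2 ⟨hx, hx'⟩
          · exact absurd hx (Finset.disjoint_left.1 (hTC j hj) hx')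
      · intro j hj
        rcases Finset.mem_insert.1 hj with rfl | hj
        · rw [hCj]
          exact ((bigPart_disjoint S (X ∪ T)).mono_right Finset.subset_union_right).symm
        · rw [hCi j hj]
          exact (hg.off j hj).mono_right (bigPart_anti S Finset.subset_union_left)
    have h1 := hmin (insert j0 I, Function.update C j0 T, X ∪ T) hnew
    dsimp only at h1
    rw [Finset.card_insert_of_notMem hj0] at h1
    have h2 : (bigPart G S (X ∪ T)).card < (bigPart G S X).card := by
      apply Finset.card_lt_card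
      refine ⟨bigPart_anti S Finset.subset_union_left, ?_⟩
      intro h3
      obtain ⟨t, ht⟩ := hTne
      exact Finset.disjoint_left.1 (bigPart_disjoint S (X ∪ T)) (h3 (hTβ ht))
        (mem_union_right _ ht)
    have h3 : ((bigPart G S (X ∪ T)).card + 1) * (h + 1) ≤ (bigPart G S X).card * (h + 1) :=
      Nat.mul_le_mul_right _ h2
    have h4 : 0 < h := j0.pos
    rw [Nat.add_mul, one_mul] at h3
    omega
  -- the conclusion
  by_cases hI : I = univ
  · subst hI
    exact ⟨C, fun i => hg.ne i (mem_univ i), fun i => hg.con i (mem_univ i),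
      fun i j => hg.dis i (mem_univ i) j (mem_univ j),
      fun i j => hg.adj i (mem_univ i) j (mem_univ j)⟩
  exfalso
  obtain ⟨j0, hj0⟩ : ∃ j0, j0 ∉ I := by
    by_contra hcon
    push Not at hcon
    exact hI (Finset.eq_univ_iff_forall.2 hcon)
  have hh : 0 < h := j0.pos
  have hIlt : I.card < h := by
    have := Finset.card_lt_univ_of_notMem hj0
    rwa [Fintype.card_fin] at this
  obtain ⟨v0, hv0⟩ := hbig X hXh
  have hr : 0 < r := by
    rcases Nat.eq_zero_or_pos r with h0 | h0
    · subst h0
      have h1 : 0 < Fintype.card V := Fintype.card_pos_iff.2 ⟨v0⟩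
      have h2 : 0 < h * Fintype.card V := Nat.mul_pos hh h1
      omega
    · exact h0
  rcases Nat.eq_zero_or_pos I.card with hk | hk
  · rw [Finset.card_eq_zero] at hk
    refine hTstep j0 hj0 {v0} (Finset.singleton_subset_iff.2 hv0) (by simp) (by simp; omega) ?_ ?_
    · rw [Finset.coe_singleton]
      exact con_singleton v0
    · intro i hi
      rw [hk] at hi
      exact absurd hi (Finset.notMem_empty i)
  -- an enumeration of `I`
  obtain ⟨f, hf1, hf2⟩ : ∃ f : ℕ → Fin h, (∀ i < I.card, f i ∈ I) ∧
      ∀ j ∈ I, ∃ i < I.card, f i = j := by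
    refine ⟨fun i => if hi : i < I.card then (I.equivFin.symm ⟨i, hi⟩).1 else j0, ?_, ?_⟩
    · intro i hi
      simp only [dif_pos hi]
      exact (I.equivFin.symm ⟨i, hi⟩).2
    · intro j hj
      refine ⟨(I.equivFin ⟨j, hj⟩).1, (I.equivFin ⟨j, hj⟩).2, ?_⟩
      simp
  let A : Fin h → Finset V := fun j => (bigPart G S X).filter (fun v => ∃ x ∈ C j, G.Adj x v)
  rcases small_or_separate G (bigPart G S X) I.card r hk hr (fun i => A (f i)) with hT | hZ
  · obtain ⟨T, h1, h2, h3, h4, h5⟩ := hT
    refine hTstep j0 hj0 T h1 h2 h3 h4 ?_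
    intro j hj
    obtain ⟨i, hi, rfl⟩ := hf2 j hj
    obtain ⟨y, hy⟩ := h5 i hi
    rw [mem_inter] at hy
    simp only [A, mem_filter] at hy
    obtain ⟨hy1, -, x, hx, hxy⟩ := hy
    exact ⟨x, hx, y, hy1, hxy⟩
  · obtain ⟨Z, hZ1, hZ2, hZ3⟩ := hZ
    have hZr : Z.card ≤ r := by
      have h1 : r * Z.card ≤ r * r := by
        calc r * Z.card ≤ (I.card - 1) * (bigPart G S X).card := hZ2
          _ ≤ h * Fintype.card V := Nat.mul_le_mul (by omega) (Finset.card_le_univ _)
          _ ≤ r * r := by rw [← pow_two]; exact hN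
      exact Nat.le_of_mul_le_mul_left h1 hr
    have hXZ : (X ∪ Z).card ≤ h * r := by
      calc (X ∪ Z).card ≤ X.card + Z.card := Finset.card_union_le _ _
        _ ≤ I.card * r + r := Nat.add_le_add hg.card_le hZr
        _ = (I.card + 1) * r := by ring
        _ ≤ h * r := Nat.mul_le_mul_right r hIlt
    set U := bigPart G S X with hU
    set B := bigPart G S (X ∪ Z) with hB
    have hBU : B ⊆ U := bigPart_anti S Finset.subset_union_left
    have hBZ : Disjoint B Z := (bigPart_disjoint S (X ∪ Z)).mono_right Finset.subset_union_right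
    obtain ⟨b0, hb0⟩ := hbig _ hXZ
    obtain ⟨i, hi, hBA⟩ := hZ3 B hBU hBZ (bigPart_con S (X ∪ Z))
    set i0 := f i with hi0
    have hi0I : i0 ∈ I := hf1 i hi
    -- the points linked to the set in question
    let W : Finset V := (U \ B).filter (fun w => ∃ a ∈ A i0, Link G ((U \ B : Finset V) : Set V) a w)
    have hAW : A i0 ⊆ W := by
      intro a ha
      have h1 : a ∈ U \ B := mem_sdiff.2 ⟨(mem_filter.1 ha).1,
        fun h' => Finset.disjoint_left.1 hBA h' ha⟩
      exact mem_filter.2 ⟨h1, a, ha, Relation.ReflTransGen.refl⟩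
    have hWU : W ⊆ U \ B := Finset.filter_subset _ _
    have hWcl : ∀ v ∈ W, ∀ w ∈ U \ B, G.Adj v w → w ∈ W := by
      intro v hv w hw hvw
      obtain ⟨h1, a, ha, hav⟩ := mem_filter.1 hv
      exact mem_filter.2 ⟨hw, a, ha, hav.trans' (Link.single hvw (mem_coe.2 h1) (mem_coe.2 hw))⟩
    have hWcon : ∀ w ∈ W, ∃ a ∈ A i0, Link G (W : Set V) a w := by
      intro w hw
      obtain ⟨h1, a, ha, haw⟩ := mem_filter.1 hw
      refine ⟨a, ha, ?_⟩
      have h2 : w ∈ W ∧ Link G (W : Set V) a w := by
        refine haw.closed (p := fun x => x ∈ W ∧ Link G (W : Set V) a x)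
          ⟨hAW ha, Relation.ReflTransGen.refl⟩ ?_
        intro x y _ hy hxy hx
        have h3 : y ∈ W := hWcl x hx.1 y (mem_coe.1 hy) hxy
        exact ⟨h3, hx.2.trans' (Link.single hxy (mem_coe.2 hx.1) (mem_coe.2 h3))⟩
      exact h2.2
    have hWne : W.Nonempty := by
      obtain ⟨x, hx, y, hy, hxy⟩ := htouch i0 hi0I
      exact ⟨y, hAW (mem_filter.2 ⟨hy, x, hx, hxy⟩)⟩
    let Z' : Finset V := W.filter (fun w => ∃ b ∈ B, G.Adj w b)
    have hZ'Z : Z' ⊆ Z := by
      intro w hw
      obtain ⟨h1, b, hb, hwb⟩ := mem_filter.1 hw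
      have h2 := mem_sdiff.1 (hWU h1)
      by_contra h3
      apply h2.2
      refine bigPart_closed hb hwb.symm ?_
      intro h4
      rcases mem_union.1 h4 with h4 | h4
      · exact Finset.disjoint_left.1 (bigPart_disjoint S X) h2.1 h4
      · exact h3 h4
    have hZ'W : Z' ⊆ W := Finset.filter_subset _ _
    set X' := (X \ C i0) ∪ Z' with hX'
    have hX'XZ : X' ⊆ X ∪ Z := Finset.union_subset_union Finset.sdiff_subset hZ'Z
    -- the new big part
    have hsub : bigPart G S X' ⊆ U \ W := by
      refine bigPart_sub (R := U \ W) (r := b0) ?_ ?_ (bigPart_anti S hX'XZ hb0)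
      · intro v hv w hvw hw
        rw [mem_sdiff] at hv
        rw [hX', mem_union, not_or, mem_sdiff, not_and, not_not] at hw
        obtain ⟨hw1, hw2⟩ := hw
        have hwU : w ∈ U := by
          by_cases hwX : w ∈ X
          · exfalso
            have h1 : v ∈ A i0 := mem_filter.2 ⟨hv.1, w, hw1 hwX, hvw.symm⟩
            exact hv.2 (hAW h1)
          · exact bigPart_closed hv.1 hvw hwX
        refine mem_sdiff.2 ⟨hwU, fun hwW => ?_⟩
        by_cases hvB : v ∈ B
        · exact hw2 (mem_filter.2 ⟨hwW, v, hvB, hvw.symm⟩)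
        · exact hv.2 (hWcl w hwW v (mem_sdiff.2 ⟨hv.1, hvB⟩) hvw.symm)
      · exact mem_sdiff.2 ⟨hBU hb0, fun h' => (mem_sdiff.1 (hWU h')).2 hb0⟩
    have hCj : ∀ j ∈ I, Disjoint (C j) W := fun j hj =>
      (hg.off j hj).mono_right (hWU.trans Finset.sdiff_subset)
    have hnew : Good G S h r I (Function.update C i0 (C i0 ∪ W)) X' := by
      have hCe : Function.update C i0 (C i0 ∪ W) i0 = C i0 ∪ W := Function.update_self _ _ _
      have hCn : ∀ j, j ≠ i0 → Function.update C i0 (C i0 ∪ W) j = C j := fun j hj =>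
        Function.update_of_ne hj _ _
      have hCsub : ∀ j, C j ⊆ Function.update C i0 (C i0 ∪ W) j := by
        intro j
        by_cases hj : j = i0
        · subst hj; rw [hCe]; exact Finset.subset_union_left
        · rw [hCn j hj]
      refine ⟨?_, ?_, ?_, ?_, ?_, ?_, ?_⟩
      · intro j hj
        exact (hg.ne j hj).mono (hCsub j)
      · intro j hj
        by_cases h1 : j = i0
        · subst h1
          rw [hCe, Finset.coe_union]
          apply con_union (hg.con _ hj)
          intro w hw
          obtain ⟨a, ha, haw⟩ := hWcon w (mem_coe.1 hw)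
          obtain ⟨-, x, hx, hxa⟩ := mem_filter.1 ha
          exact ⟨x, mem_coe.2 hx, (Link.single hxa (Or.inl (mem_coe.2 hx))
            (Or.inr (mem_coe.2 (hAW ha)))).trans' (haw.mono Set.subset_union_right)⟩
        · rw [hCn j h1]; exact hg.con j hj
      · intro j hj l hl hjl
        by_cases h1 : j = i0
        · subst h1
          have h2 : l ≠ i0 := fun h' => hjl h'.symm
          rw [hCe, hCn l h2, Finset.disjoint_union_left]
          exact ⟨hg.dis _ hj l hl hjl, (hCj l hl).symm⟩
        · by_cases h2 : l = i0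
          · subst h2
            rw [hCe, hCn j h1, Finset.disjoint_union_right]
            exact ⟨hg.dis j hj _ hl hjl, hCj j hj⟩
          · rw [hCn j h1, hCn l h2]; exact hg.dis j hj l hl hjl
      · intro j hj l hl hjl
        obtain ⟨x, hx, y, hy, hxy⟩ := hg.adj j hj l hl hjl
        exact ⟨x, hCsub j hx, y, hCsub l hy, hxy⟩
      · intro x hx
        rcases Finset.mem_union.1 hx with hx | hx
        · rw [mem_sdiff] at hx
          obtain ⟨j, hj, hxj⟩ := hg.sub x hx.1
          exact ⟨j, hj, hCsub j hxj⟩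
        · exact ⟨i0, hi0I, by rw [hCe]; exact mem_union_right _ (hZ'W hx)⟩
      · intro j hj
        by_cases h1 : j = i0
        · subst h1
          rw [hCe]
          refine le_trans (Finset.card_le_card ?_) (le_trans (Finset.card_le_card hZ'Z) hZr)
          intro x hx
          rw [mem_inter, hX', mem_union, mem_sdiff, mem_union] at hx
          obtain ⟨hx1 | hx1, hx2⟩ := hx
          · exfalso
            rcases hx2 with hx2 | hx2
            · exact hx1.2 hx2
            · exact Finset.disjoint_left.1 (bigPart_disjoint S X)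
                (mem_sdiff.1 (hWU hx2)).1 hx1.1
          · exact hx1
        · rw [hCn j h1]
          refine le_trans (Finset.card_le_card ?_) (hg.card j hj)
          intro x hx
          rw [mem_inter, hX', mem_union, mem_sdiff] at hx
          obtain ⟨hx1 | hx1, hx2⟩ := hx
          · exact mem_inter.2 ⟨hx1.1, hx2⟩
          · exact absurd (hZ'W hx1) (Finset.disjoint_left.1 (hCj j hj) hx2)
      · intro j hj
        by_cases h1 : j = i0
        · subst h1
          rw [hCe, Finset.disjoint_union_left]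
          refine ⟨(hg.off _ hj).mono_right (hsub.trans Finset.sdiff_subset), ?_⟩
          exact (Finset.disjoint_sdiff (s := W) (t := U)).mono_right hsub
        · rw [hCn j h1]
          exact (hg.off j hj).mono_right (hsub.trans Finset.sdiff_subset)
    have h1 := hmin (I, Function.update C i0 (C i0 ∪ W), X') hnew
    dsimp only at h1
    have h2 : (bigPart G S X').card < U.card := by
      apply Finset.card_lt_card
      refine ⟨hsub.trans Finset.sdiff_subset, ?_⟩
      intro h3
      obtain ⟨w, hw⟩ := hWne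
      exact (mem_sdiff.1 (hsub (h3 (mem_sdiff.1 (hWU hw)).1))).2 hw
    have h3 : (bigPart G S X').card * (h + 1) < U.card * (h + 1) :=
      Nat.mul_lt_mul_of_pos_right h2 (by omega)
    omega

end Pool.Agent.V7H15.Tw
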