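import Mathlib

/-!
# Separators in graphs without a given complete minor

The theorem of Alon, Seymour and Thomas, for the division of a set of terminals.
-/

set_option autoImplicit false

namespace Pool.Agent.V7H15.Tw

open Finset

variable {V : Type}

/-- `a` and `b` are linked by a path inside `B`. -/
def Link (G : SimpleGraph V) (B : Set V) (a b : V) : Prop :=
  Relation.ReflTransGen (fun x y => G.Adj x y ∧ x ∈ B ∧ y ∈ B) a b

/-- Any two points of `B` are linked inside `B`. -/
def Con (G : SimpleGraph V) (B : Set V) : Prop := ∀ x ∈ B, ∀ y ∈ B, Link G B x y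

variable {G : SimpleGraph V}

theorem Link.mono {B B' : Set V} (h : B ⊆ B') {a b : V} (hab : Link G B a b) : Link G B' a b := by
  induction hab with
  | refl => exact Relation.ReflTransGen.refl
  | tail _ h1 ih => exact Relation.ReflTransGen.tail ih ⟨h1.1, h h1.2.1, h h1.2.2⟩

theorem Link.symm {B : Set V} {a b : V} (hab : Link G B a b) : Link G B b a := by
  induction hab with
  | refl => exact Relation.ReflTransGen.refl
  | tail _ h ih => exact Relation.ReflTransGen.head ⟨h.1.symm, h.2.2, h.2.1⟩ ih

theorem Link.trans' {B : Set V} {a b c : V} (hab : Link G B a b) (hbc : Link G B b c) :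
    Link G B a c :=
  Relation.ReflTransGen.trans hab hbc

theorem Link.single {B : Set V} {a b : V} (h : G.Adj a b) (ha : a ∈ B) (hb : b ∈ B) :
    Link G B a b :=
  Relation.ReflTransGen.single ⟨h, ha, hb⟩

/-- A property that passes along the steps inside `B` holds for everything linked. -/
theorem Link.closed {B : Set V} {a b : V} (hab : Link G B a b) {p : V → Prop} (ha : p a)
    (h : ∀ x y, x ∈ B → y ∈ B → G.Adj x y → p x → p y) : p b := by
  induction hab with
  | refl => exact ha
  | tail _ h1 ih => exact h _ _ h1.2.1 h1.2.2 h1.1 ih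

theorem con_singleton (v : V) : Con G ({v} : Set V) := by
  intro x hx y hy
  rw [Set.mem_singleton_iff] at hx hy
  subst hx
  subst hy
  exact Relation.ReflTransGen.refl

/-- Adding points that are linked to a connected set. -/
theorem con_union {A W : Set V} (hA : Con G A)
    (hW : ∀ w ∈ W, ∃ a ∈ A, Link G (A ∪ W) a w) : Con G (A ∪ W) := by
  have h : ∀ x ∈ A ∪ W, ∃ a ∈ A, Link G (A ∪ W) a x := by
    rintro x (hx | hx)
    · exact ⟨x, hx, Relation.ReflTransGen.refl⟩
    · exact hW x hx
  intro x hx y hy
  obtain ⟨a, ha, hax⟩ := h x hx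
  obtain ⟨b, hb, hby⟩ := h y hy
  exact hax.symm.trans' (((hA a ha b hb).mono Set.subset_union_left).trans' hby)

theorem con_insert {A : Set V} (hA : Con G A) {v a : V} (ha : a ∈ A) (hav : G.Adj a v) :
    Con G (A ∪ {v}) := by
  apply con_union hA
  intro w hw
  rw [Set.mem_singleton_iff] at hw
  subst hw
  exact ⟨a, ha, Link.single hav (Or.inl ha) (Or.inr rfl)⟩

section lemma1

variable [DecidableEq V]

/-- A connected set inside `U` with at most `m` points contains `v` and meets the first `i`
sets. -/
def Reach (G : SimpleGraph V) (U : Finset V) (A : ℕ → Finset V) (i : ℕ) (v : V) (m : ℕ) : Prop :=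
  ∃ T : Finset V, T ⊆ U ∧ v ∈ T ∧ T.card ≤ m ∧ Con G (T : Set V) ∧ ∀ l < i, (T ∩ A l).Nonempty

theorem Reach.mono {U : Finset V} {A : ℕ → Finset V} {i : ℕ} {v : V} {m m' : ℕ} (h : m ≤ m')
    (hm : Reach G U A i v m) : Reach G U A i v m' := by
  obtain ⟨T, h1, h2, h3, h4, h5⟩ := hm
  exact ⟨T, h1, h2, h3.trans h, h4, h5⟩

theorem Reach.step {U : Finset V} {A : ℕ → Finset V} {i : ℕ} {v w : V} {m : ℕ}
    (hm : Reach G U A i v m) (hw : w ∈ U) (hvw : G.Adj v w) : Reach G U A i w (m + 1) := by
  obtain ⟨T, h1, h2, h3, h4, h5⟩ := hm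
  refine ⟨T ∪ {w}, ?_, by simp, ?_, ?_, ?_⟩
  · exact Finset.union_subset h1 (Finset.singleton_subset_iff.2 hw)
  · exact (Finset.card_union_le _ _).trans (by rw [Finset.card_singleton]; omega)
  · rw [Finset.coe_union, Finset.coe_singleton]
    exact con_insert h4 (mem_coe.2 h2) hvw
  · intro l hl
    obtain ⟨x, hx⟩ := h5 l hl
    rw [mem_inter] at hx
    exact ⟨x, mem_inter.2 ⟨mem_union_left _ hx.1, hx.2⟩⟩

theorem Reach.next {U : Finset V} {A : ℕ → Finset V} {i : ℕ} {v : V} {m : ℕ}
    (hm : Reach G U A i v m) (hv : v ∈ A i) : Reach G U A (i + 1) v m := by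
  obtain ⟨T, h1, h2, h3, h4, h5⟩ := hm
  refine ⟨T, h1, h2, h3, h4, ?_⟩
  intro l hl
  rcases Nat.lt_succ_iff_lt_or_eq.1 hl with h | h
  · exact h5 l h
  · subst h
    exact ⟨v, mem_inter.2 ⟨h2, hv⟩⟩

open Classical in
/-- **Lemma.** Either a small connected set meets all the given sets, or a small set separates
them. -/
theorem small_or_separate (G : SimpleGraph V) (U : Finset V) (k r : ℕ) (hk : 0 < k) (hr : 0 < r)
    (A : ℕ → Finset V) :
    (∃ T : Finset V, T ⊆ U ∧ T.Nonempty ∧ T.card ≤ r ∧ Con G (T : Set V) ∧
      ∀ i < k, (T ∩ A i).Nonempty) ∨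
    (∃ Z : Finset V, Z ⊆ U ∧ r * Z.card ≤ (k - 1) * U.card ∧
      ∀ B : Finset V, B ⊆ U → Disjoint B Z → Con G (B : Set V) → ∃ i < k, Disjoint B (A i)) := by
  classical
  by_cases hT : ∃ T : Finset V, T ⊆ U ∧ T.Nonempty ∧ T.card ≤ r ∧ Con G (T : Set V) ∧
      ∀ i < k, (T ∩ A i).Nonempty
  · exact Or.inl hT
  · right
    let Lv : ℕ → Finset (ℕ × V) := fun j => (Finset.Icc 1 (k - 1) ×ˢ U).filter
      (fun x => Reach G U A x.1 x.2 (j + 1) ∧ ¬ Reach G U A x.1 x.2 j)
    have hdis : ∀ j ∈ Finset.range r, ∀ j' ∈ Finset.range r, j ≠ j' → Disjoint (Lv j) (Lv j') := by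
      have key : ∀ j j', j < j' → Disjoint (Lv j) (Lv j') := by
        intro j j' hjj
        rw [Finset.disjoint_left]
        intro x hx hx'
        simp only [Lv, mem_filter] at hx hx'
        exact hx'.2.2 (hx.2.1.mono hjj)
      intro j _ j' _ hjj
      rcases lt_or_gt_of_ne hjj with h | h
      · exact key j j' h
      · exact (key j' j h).symm
    have hsum : ∑ j ∈ Finset.range r, (Lv j).card ≤ (k - 1) * U.card := by
      rw [← Finset.card_biUnion hdis]
      calc ((Finset.range r).biUnion Lv).card ≤ (Finset.Icc 1 (k - 1) ×ˢ U).card := by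
            apply Finset.card_le_card
            intro x hx
            rw [mem_biUnion] at hx
            obtain ⟨j, -, hj⟩ := hx
            exact (mem_filter.1 hj).1
        _ = (k - 1) * U.card := by
            rw [Finset.card_product, Nat.card_Icc, Nat.add_sub_cancel]
    obtain ⟨j, hj, hjr⟩ : ∃ j ∈ Finset.range r, r * (Lv j).card ≤ (k - 1) * U.card := by
      by_contra hcon
      push Not at hcon
      have h1 : ∑ j ∈ Finset.range r, (k - 1) * U.card <
          ∑ j ∈ Finset.range r, r * (Lv j).card := by
        apply Finset.sum_lt_sum_of_nonempty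
        · exact ⟨0, Finset.mem_range.2 hr⟩
        · exact hcon
      rw [Finset.sum_const, Finset.card_range, smul_eq_mul, ← Finset.mul_sum] at h1
      have h2 := Nat.lt_of_mul_lt_mul_left h1
      omega
    rw [Finset.mem_range] at hj
    refine ⟨(Lv j).image Prod.snd, ?_, ?_, ?_⟩
    · intro v hv
      rw [mem_image] at hv
      obtain ⟨x, hx, rfl⟩ := hv
      exact (mem_product.1 (mem_filter.1 hx).1).2
    · exact (Nat.mul_le_mul_left r Finset.card_image_le).trans hjr
    · intro B hBU hBZ hB
      by_contra hcon
      push Not at hcon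
      have hmeet : ∀ i, i < k → ∃ a ∈ B, a ∈ A i := by
        intro i hi
        have h := hcon i hi
        rw [Finset.not_disjoint_iff] at h
        exact h
      -- points of `B` are not on the level
      have hlev : ∀ i, 1 ≤ i → i ≤ k - 1 → ∀ v ∈ B, Reach G U A i v (j + 1) →
          Reach G U A i v j := by
        intro i hi1 hi2 v hv h
        by_contra h'
        apply Finset.disjoint_left.1 hBZ hv
        rw [mem_image]
        exact ⟨(i, v), mem_filter.2 ⟨mem_product.2 ⟨Finset.mem_Icc.2 ⟨hi1, hi2⟩, hBU hv⟩,
          h, h'⟩, rfl⟩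
      have hprop : ∀ i, 1 ≤ i → i ≤ k - 1 → ∀ v ∈ B, Reach G U A i v j →
          ∀ w ∈ B, Reach G U A i w j := by
        intro i hi1 hi2 v hv h w hw
        refine (hB v (mem_coe.2 hv) w (mem_coe.2 hw)).closed
          (p := fun x => Reach G U A i x j) h ?_
        intro x y _ hy hxy hx
        exact hlev i hi1 hi2 y (mem_coe.1 hy) (hx.step (hBU (mem_coe.1 hy)) hxy)
      have hind : ∀ i, i < k → i = 0 ∨ ∀ v ∈ B, Reach G U A i v j := by
        intro i
        induction i with
        | zero => exact fun _ => Or.inl rfl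
        | succ i ih =>
          intro hi
          right
          obtain ⟨a, haB, haA⟩ := hmeet i (by omega)
          have h1 : Reach G U A (i + 1) a j := by
            rcases ih (by omega) with h | h
            · subst h
              apply hlev _ le_rfl (by omega) a haB
              refine ⟨{a}, Finset.singleton_subset_iff.2 (hBU haB), by simp, by simp, ?_, ?_⟩
              · rw [Finset.coe_singleton]
                exact con_singleton a
              · intro l hl
                have : l = 0 := by omega
                subst this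
                exact ⟨a, by simp [haA]⟩
            · exact (h a haB).next haA
          exact hprop (i + 1) (by omega) (by omega) a haB h1
      apply hT
      obtain ⟨a, haB, haA⟩ := hmeet (k - 1) (by omega)
      rcases hind (k - 1) (by omega) with h | h
      · refine ⟨{a}, Finset.singleton_subset_iff.2 (hBU haB), by simp, by simp; omega, ?_, ?_⟩
        · rw [Finset.coe_singleton]
          exact con_singleton a
        · intro l hl
          have : l = k - 1 := by omega
          subst this
          exact ⟨a, by simp [haA]⟩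
      · obtain ⟨T, h1, h2, h3, h4, h5⟩ := (h a haB).next haA
        refine ⟨T, h1, ⟨a, h2⟩, by omega, h4, ?_⟩
        intro i hi
        exact h5 i (by omega)

end lemma1

end Pool.Agent.V7H15.Tw
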