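import Pool.Agent.V7H15.Tw.Circuit

/-!
# Mixing two runs of a circuit along a separation
-/

set_option autoImplicit false

namespace Pool.Agent.V7H15.Tw

open Finset

variable {X : Type} {s : ℕ}

/-- The value computed by a gate from a set of wires. -/
def agg (k : Kind) (v : X ⊕ Fin s → Bool) (S : Finset ((X ⊕ Fin s) × Bool)) : Bool :=
  match k with
  | .and => decide (∀ p ∈ S, xor (v p.1) p.2 = true)
  | .xor => decide (Odd (S.filter (fun p => xor (v p.1) p.2 = true)).card)
  | .guess => false

/-- The two-place operation of a kind of gates. -/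
def opn (k : Kind) (a b : Bool) : Bool :=
  match k with
  | .and => a && b
  | .xor => xor a b
  | .guess => false

theorem agg_congr (k : Kind) (v w : X ⊕ Fin s → Bool) (S : Finset ((X ⊕ Fin s) × Bool))
    (h : ∀ p ∈ S, v p.1 = w p.1) : agg k v S = agg k w S := by
  cases k with
  | and =>
    simp only [agg]
    congr 1
    apply propext
    refine forall₂_congr fun p hp => ?_
    rw [h p hp]
  | xor =>
    simp only [agg]
    rw [Finset.filter_congr (fun p hp => by rw [h p hp])]
  | guess => rfl

theorem agg_union (k : Kind) (v : X ⊕ Fin s → Bool)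
    (S T : Finset ((X ⊕ Fin s) × Bool)) [DecidableEq ((X ⊕ Fin s) × Bool)] (h : Disjoint S T) :
    agg k v (S ∪ T) = opn k (agg k v S) (agg k v T) := by
  cases k with
  | and =>
    simp only [agg, opn]
    rw [← Bool.decide_and]
    congr 1
    apply propext
    simp only [mem_union]
    constructor
    · intro h1
      exact ⟨fun p hp => h1 p (Or.inl hp), fun p hp => h1 p (Or.inr hp)⟩
    · rintro ⟨h1, h2⟩ p (hp | hp)
      · exact h1 p hp
      · exact h2 p hp
  | xor =>
    simp only [agg, opn]
    rw [Finset.filter_union, Finset.card_union_of_disjoint (Finset.disjoint_filter_filter h)]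
    generalize (S.filter (fun p => xor (v p.1) p.2 = true)).card = a
    generalize (T.filter (fun p => xor (v p.1) p.2 = true)).card = b
    by_cases h1 : Odd a <;> by_cases h2 : Odd b <;>
      simp [Nat.odd_add, h1, h2, ← Nat.not_odd_iff_even]
  | guess => rfl

theorem rule_iff (C : Circuit X s) (v : X ⊕ Fin s → Bool) (g : Fin s) :
    C.Rule v g ↔ (C.kind g = .guess ∨
      v (.inr g) = xor (C.neg g) (agg (C.kind g) v (C.wires g))) := by
  unfold Circuit.Rule
  cases h : C.kind g <;> simp [agg]

/-- `c` tells the side of the gates outside `M`; no wire connects the two sides. -/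
def Circuit.Separates (C : Circuit X s) (M : Finset (X ⊕ Fin s)) (c : X ⊕ Fin s → Bool) : Prop :=
  ∀ p q, C.Wire p q → p ∉ M → q ∉ M → c p = c q

open Classical in
/-- The part of the wires of `g` that come from side `b`. -/
noncomputable def part (C : Circuit X s) (M : Finset (X ⊕ Fin s)) (c : X ⊕ Fin s → Bool) (b : Bool)
    (g : Fin s) : Finset ((X ⊕ Fin s) × Bool) :=
  (C.wires g).filter (fun p => p.1 ∉ M ∧ c p.1 = b)

/-- What is recorded about a run at a gate of the separator. -/
noncomputable def trans (C : Circuit X s) (M : Finset (X ⊕ Fin s)) (c : X ⊕ Fin s → Bool)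
    (v : X ⊕ Fin s → Bool) (p : X ⊕ Fin s) : Bool × Bool × Bool :=
  match p with
  | .inl x => (v (.inl x), false, false)
  | .inr g => (v (.inr g), agg (C.kind g) v (part C M c true g),
      agg (C.kind g) v (part C M c false g))

theorem trans_fst (C : Circuit X s) (M : Finset (X ⊕ Fin s)) (c : X ⊕ Fin s → Bool)
    (v : X ⊕ Fin s → Bool) (p : X ⊕ Fin s) : (trans C M c v p).1 = v p := by
  cases p <;> rfl

open Classical in
/-- The mixture of two runs. -/
noncomputable def mix (M : Finset (X ⊕ Fin s)) (c : X ⊕ Fin s → Bool)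
    (v w : X ⊕ Fin s → Bool) (p : X ⊕ Fin s) : Bool :=
  if p ∈ M ∨ c p = true then v p else w p

theorem mix_rule (C : Circuit X s) (M : Finset (X ⊕ Fin s)) (c : X ⊕ Fin s → Bool)
    (hC : C.Separates M c) (v w : X ⊕ Fin s → Bool)
    (hv : ∀ g, C.Rule v g) (hw : ∀ g, C.Rule w g)
    (h : ∀ p ∈ M, trans C M c v p = trans C M c w p) (g : Fin s) :
    C.Rule (mix M c v w) g := by
  classical
  have hM : ∀ p ∈ M, v p = w p := by
    intro p hp
    rw [← trans_fst C M c v p, ← trans_fst C M c w p, h p hp]
  have hmL : ∀ p, (p ∈ M ∨ c p = true) → mix M c v w p = v p := by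
    intro p hp
    simp only [mix, if_pos hp]
  have hmR : ∀ p, (p ∈ M ∨ c p = false) → mix M c v w p = w p := by
    intro p hp
    simp only [mix]
    split_ifs with h1
    · rcases hp with hp | hp
      · exact hM p hp
      · rcases h1 with h1 | h1
        · exact hM p h1
        · rw [hp] at h1; exact absurd h1 (by simp)
    · rfl
  rw [rule_iff]
  have hvg := (rule_iff C v g).1 (hv g)
  have hwg := (rule_iff C w g).1 (hw g)
  by_cases hk : C.kind g = .guess
  · exact Or.inl hk
  right
  rw [or_iff_right hk] at hvg hwg
  by_cases hgM : (Sum.inr g : X ⊕ Fin s) ∈ M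
  · -- a gate of the separator
    rw [hmL _ (Or.inl hgM), hvg]
    congr 1
    -- split the wires into three parts
    set S1 := part C M c true g with hS1
    set S2 := part C M c false g with hS2
    set S0 := (C.wires g).filter (fun p => p.1 ∈ M) with hS0
    have hsplit : C.wires g = S0 ∪ (S1 ∪ S2) := by
      ext p
      simp only [hS0, hS1, hS2, part, mem_union, mem_filter]
      by_cases h1 : p.1 ∈ M
      · simp [h1]
      · cases h2 : c p.1 <;> simp [h1]
    have hd1 : Disjoint S1 S2 := by
      rw [Finset.disjoint_left]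
      intro p hp hq
      simp only [hS1, hS2, part, mem_filter] at hp hq
      rw [hp.2.2] at hq
      exact absurd hq.2.2 (by simp)
    have hd0 : Disjoint S0 (S1 ∪ S2) := by
      rw [Finset.disjoint_left]
      intro p hp hq
      simp only [hS0, hS1, hS2, part, mem_filter, mem_union] at hp hq
      rcases hq with hq | hq
      · exact hq.2.1 hp.2
      · exact hq.2.1 hp.2
    have e1 : agg (C.kind g) (mix M c v w) S1 = agg (C.kind g) v S1 := by
      apply agg_congr
      intro p hp
      simp only [hS1, part, mem_filter] at hp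
      exact hmL _ (Or.inr hp.2.2)
    have e0 : agg (C.kind g) (mix M c v w) S0 = agg (C.kind g) v S0 := by
      apply agg_congr
      intro p hp
      simp only [hS0, mem_filter] at hp
      exact hmL _ (Or.inl hp.2)
    have e2 : agg (C.kind g) (mix M c v w) S2 = agg (C.kind g) v S2 := by
      have h3 := h _ hgM
      simp only [trans, Prod.mk.injEq] at h3
      rw [← hS2] at h3
      rw [h3.2.2]
      apply agg_congr
      intro p hp
      simp only [hS2, part, mem_filter] at hp
      exact hmR _ (Or.inr hp.2.2)
    rw [hsplit, agg_union _ _ _ _ hd0, agg_union _ _ _ _ hd1, agg_union _ _ _ _ hd0,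
      agg_union _ _ _ _ hd1, e0, e1, e2]
  · -- a gate outside of the separator
    cases hcg : c (.inr g) with
    | true =>
      rw [hmL _ (Or.inr hcg), hvg]
      congr 1
      symm
      apply agg_congr
      intro p hp
      apply hmL
      by_cases hpM : p.1 ∈ M
      · exact Or.inl hpM
      · right
        rw [← hcg]
        exact hC p.1 (.inr g) ⟨g, rfl, p.2, hp⟩ hpM hgM
    | false =>
      rw [hmR _ (Or.inr hcg), hwg]
      congr 1
      symm
      apply agg_congr
      intro p hp
      apply hmR
      by_cases hpM : p.1 ∈ M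
      · exact Or.inl hpM
      · right
        rw [← hcg]
        exact hC p.1 (.inr g) ⟨g, rfl, p.2, hp⟩ hpM hgM

/-- **Fooling sets.** Suppose that the runs `v i` have pairwise the property that one of the two
mixtures is not a run with the output `b`. Then there are at most `8 ^ |M|` of them. -/
theorem fooling (C : Circuit X s) (M : Finset (X ⊕ Fin s)) (c : X ⊕ Fin s → Bool)
    (hC : C.Separates M c) {ι : Type} [Fintype ι] (z : ι → X → Bool) (v : ι → X ⊕ Fin s → Bool)
    (out : X ⊕ Fin s) (b : Bool)
    (hv : ∀ i, C.Run (z i) (v i)) (hb : ∀ i, v i out = b)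
    (hfool : ∀ i j, i ≠ j → ∃ i' j', (i' = i ∧ j' = j ∨ i' = j ∧ j' = i) ∧
      ∀ y : X → Bool, (∀ x, (Sum.inl x : X ⊕ Fin s) ∉ M → c (.inl x) = true → y x = z i' x) →
        (∀ x, (Sum.inl x : X ⊕ Fin s) ∉ M → c (.inl x) = false → y x = z j' x) →
        (∀ x, (Sum.inl x : X ⊕ Fin s) ∈ M → y x = z i' x) →
        (∀ x, (Sum.inl x : X ⊕ Fin s) ∈ M → y x = z j' x) →
        ∀ u, C.Run y u → u out ≠ b) :
    Fintype.card ι ≤ 8 ^ M.card := by
  classical
  let τ : ι → (M → Bool × Bool × Bool) := fun i p => trans C M c (v i) p.1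
  have hτ : Function.Injective τ := by
    intro i j hij
    by_contra hne
    have key : ∀ i' j', τ i' = τ j' → ∀ g, C.Rule (mix M c (v i') (v j')) g := by
      intro i' j' h'
      apply mix_rule C M c hC _ _ (hv i').2 (hv j').2
      intro p hp
      exact congrFun h' ⟨p, hp⟩
    obtain ⟨i', j', h1, h2⟩ := hfool i j hne
    have h' : τ i' = τ j' := by
      rcases h1 with ⟨rfl, rfl⟩ | ⟨rfl, rfl⟩
      · exact hij
      · exact hij.symm
    have hMv : ∀ p ∈ M, v i' p = v j' p := by
      intro p hp
      have := congrFun h' ⟨p, hp⟩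
      have h3 := congrArg Prod.fst this
      simpa only [τ, trans_fst] using h3
    refine h2 (fun x => mix M c (v i') (v j') (.inl x)) ?_ ?_ ?_ ?_ (mix M c (v i') (v j'))
      ⟨fun x => rfl, key i' j' h'⟩ ?_
    · intro x _ hx
      simp only [mix, hx, or_true, if_true, (hv i').1 x]
    · intro x hx1 hx
      simp only [mix, hx, hx1, or_false, Bool.false_eq_true, if_false, (hv j').1 x]
    · intro x hx
      simp only [mix, hx, true_or, if_true, (hv i').1 x]
    · intro x hx
      simp only [mix, hx, true_or, if_true]
      rw [hMv _ hx, (hv j').1 x]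
    · simp only [mix]
      split_ifs
      · exact hb i'
      · exact hb j'
  have := Fintype.card_le_of_injective τ hτ
  simpa [Fintype.card_fun, Fintype.card_prod, Fintype.card_bool, Fintype.card_coe] using this

end Pool.Agent.V7H15.Tw
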