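import Pool.Agent.V7H15.Tw.Divide
import Pool.Agent.V7H15.Tw.Color

/-!
# Circuits placed on graphs, with several input gates for each variable
-/

set_option autoImplicit false

namespace Pool.Agent.V7H15.Tw

open Finset

section

variable {X Y : Type} [Fintype X] [Fintype Y] {s : ℕ} {C : Circuit Y s} {V : Type} [Fintype V]
  {H : SimpleGraph V} {T : ℕ} {f : Y ⊕ Fin s → V}

open Classical in
/-- The gates placed in `M`. -/
noncomputable def above (f : Y ⊕ Fin s → V) (M : Finset V) : Finset (Y ⊕ Fin s) :=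
  univ.filter (fun p => f p ∈ M)

omit [Fintype V] in
theorem mem_above {M : Finset V} {p : Y ⊕ Fin s} : p ∈ above f M ↔ f p ∈ M := by
  classical
  simp only [above, mem_filter, mem_univ, true_and]

omit [Fintype V] in
theorem card_above (hf : Placed C H T f) (M : Finset V) : (above f M).card ≤ T * M.card := by
  classical
  have h1 : above f M = M.biUnion (fun v => univ.filter (fun p => f p = v)) := by
    ext p
    simp only [mem_above, mem_biUnion, mem_filter, mem_univ, true_and]
    constructor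
    · intro h
      exact ⟨f p, h, rfl⟩
    · rintro ⟨v, hv, rfl⟩
      exact hv
  rw [h1, mul_comm]
  apply Finset.card_biUnion_le_card_mul
  intro v _
  have h2 := hf.1 v
  rw [Set.ncard_eq_toFinset_card'] at h2
  refine le_trans (Finset.card_le_card ?_) h2
  intro p hp
  rw [Set.mem_toFinset]
  exact (mem_filter.1 hp).2

open Classical in
/-- The number of input gates at a vertex. -/
noncomputable def wt (f : Y ⊕ Fin s → V) (v : V) : ℕ :=
  (univ.filter (fun y : Y => f (.inl y) = v)).card

open Classical in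
/-- The input gates placed in `B`. -/
noncomputable def inGates (f : Y ⊕ Fin s → V) (B : Finset V) : Finset Y :=
  univ.filter (fun y : Y => f (.inl y) ∈ B)

omit [Fintype V] in
theorem sum_wt (f : Y ⊕ Fin s → V) (B : Finset V) :
    ∑ v ∈ B, wt f v = (inGates f B).card := by
  classical
  rw [inGates, Finset.card_eq_sum_card_fiberwise (f := fun y : Y => f (.inl y)) (t := B)]
  · refine Finset.sum_congr rfl fun v hv => ?_
    rw [wt]
    congr 1
    ext y
    simp only [mem_filter, mem_univ, true_and]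
    constructor
    · rintro rfl
      exact ⟨hv, rfl⟩
    · exact fun h => h.2
  · intro y hy
    exact (mem_filter.1 hy).2

/-- **Separations of circuits placed on graphs.** -/
theorem network_separation (hf : Placed C H T f)
    (ℓ : Y → X) (k : ℕ) (hk : 0 < k) (hℓ : ∀ x, {y | ℓ y = x}.ncard ≤ k) {w : ℕ}
    (hH : Halves H w) (X0 X1 : Finset X) (E : ℕ) (h0 : X0.card = E) (h1 : X1.card = E)
    (hX : Fintype.card X ≤ 2 * E) (hw : 320 * (k ^ 2 * (T * w)) ≤ E) :
    ∃ (M : Finset (Y ⊕ Fin s)) (c : Y ⊕ Fin s → Bool) (L R : Finset X), C.Separates M c ∧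
      M.card ≤ 32 * (k ^ 2 * (T * w)) ∧ L ⊆ X0 ∧ R ⊆ X1 ∧
      (∀ y, ℓ y ∈ L → (Sum.inl y : Y ⊕ Fin s) ∉ M ∧ c (.inl y) = true) ∧
      (∀ y, ℓ y ∈ R → (Sum.inl y : Y ⊕ Fin s) ∉ M ∧ c (.inl y) = false) ∧
      E ^ 2 ≤ 2 * (4 ^ k * (L.card * R.card)) := by
  classical
  -- the number of input gates
  have hfib : ∀ x, (univ.filter (fun y : Y => ℓ y = x)).card ≤ k := by
    intro x
    have h2 := hℓ x
    rw [Set.ncard_eq_toFinset_card'] at h2
    refine le_trans (Finset.card_le_card ?_) h2
    intro p hp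
    rw [Set.mem_toFinset]
    exact (mem_filter.1 hp).2
  have hY : Fintype.card Y ≤ 2 * (k * E) := by
    have h2 : (univ : Finset Y).card ≤ k * (univ : Finset X).card :=
      Finset.card_le_mul_card_image_of_maps_to (f := ℓ) (fun _ _ => mem_univ _) k
        (fun x _ => hfib x)
    rw [Finset.card_univ, Finset.card_univ] at h2
    calc Fintype.card Y ≤ k * Fintype.card X := h2
      _ ≤ k * (2 * E) := Nat.mul_le_mul_left k hX
      _ = 2 * (k * E) := by ring
  -- the number of parts
  obtain ⟨j, hj1, hj2⟩ : ∃ j, 8 * k ^ 2 ≤ 2 ^ j ∧ 2 ^ j ≤ 16 * k ^ 2 := by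
    have hk2 : 0 < k ^ 2 := by positivity
    refine ⟨Nat.clog 2 (8 * k ^ 2), Nat.le_pow_clog (by norm_num) _, ?_⟩
    have h2 := Nat.pow_pred_clog_lt_self (b := 2) (by norm_num) (x := 8 * k ^ 2) (by omega)
    have h3 : 0 < Nat.clog 2 (8 * k ^ 2) := Nat.clog_pos (by norm_num) (by omega)
    obtain ⟨i, hi⟩ : ∃ i, Nat.clog 2 (8 * k ^ 2) = i + 1 := ⟨_, (Nat.succ_pred_eq_of_pos h3).symm⟩
    rw [hi] at h2 ⊢
    rw [Nat.pred_succ] at h2
    rw [pow_succ]
    omega
  obtain ⟨MH, hM1, hM2⟩ := divide hH (wt f) j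
  have hMH : MH.card ≤ 32 * (k ^ 2 * w) := by
    have h2 : 2 ^ (j + 1) * w ≤ 32 * (k ^ 2 * w) := by
      calc 2 ^ (j + 1) * w = 2 * (2 ^ j * w) := by ring
        _ ≤ 2 * (16 * k ^ 2 * w) := Nat.mul_le_mul_left 2 (Nat.mul_le_mul_right w hj2)
        _ = 32 * (k ^ 2 * w) := by ring
    omega
  set M := above f MH with hMdef
  have hMc : M.card ≤ 32 * (k ^ 2 * (T * w)) := by
    calc M.card ≤ T * MH.card := card_above hf MH
      _ ≤ T * (32 * (k ^ 2 * w)) := Nat.mul_le_mul_left T hMH
      _ = 32 * (k ^ 2 * (T * w)) := by ring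
  have hM10 : 10 * M.card ≤ E := by omega
  let comp : V → (cut H MH).ConnectedComponent := fun v => (cut H MH).connectedComponentMk v
  have hfinK : Fintype (cut H MH).ConnectedComponent := Fintype.ofFinite _
  let occ : X → Finset (cut H MH).ConnectedComponent := fun x =>
    (univ.filter (fun y : Y => ℓ y = x)).image (fun y => comp (f (.inl y)))
  have hocc : ∀ x, (occ x).card ≤ k := fun x => Finset.card_image_le.trans (hfib x)
  let pure : Finset X → Finset X := fun Z =>
    Z.filter (fun x => ∀ y, ℓ y = x → (Sum.inl y : Y ⊕ Fin s) ∉ M)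
  have hpure : ∀ Z : Finset X, Z.card ≤ (pure Z).card + M.card := by
    intro Z
    have h2 : (Z.filter (fun x => ¬ ∀ y, ℓ y = x → (Sum.inl y : Y ⊕ Fin s) ∉ M)).card ≤
        M.card := by
      have h3 : Z.filter (fun x => ¬ ∀ y, ℓ y = x → (Sum.inl y : Y ⊕ Fin s) ∉ M) ⊆
          (univ.filter (fun y : Y => (Sum.inl y : Y ⊕ Fin s) ∈ M)).image ℓ := by
        intro x hx
        have h4 := (mem_filter.1 hx).2
        push Not at h4
        obtain ⟨y, hy1, hy2⟩ := h4
        exact mem_image.2 ⟨y, mem_filter.2 ⟨mem_univ _, hy2⟩, hy1⟩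
      refine (Finset.card_le_card h3).trans (Finset.card_image_le.trans ?_)
      apply Finset.card_le_card_of_injOn (fun y => (Sum.inl y : Y ⊕ Fin s))
      · intro y hy
        exact (mem_filter.1 (mem_coe.1 hy)).2
      · intro y _ y' _ h
        exact Sum.inl.inj h
    have h3 := Finset.card_filter_add_card_filter_not (s := Z)
      (p := fun x => ∀ y, ℓ y = x → (Sum.inl y : Y ⊕ Fin s) ∉ M)
    have h4 : (pure Z).card = (Z.filter (fun x => ∀ y, ℓ y = x →
      (Sum.inl y : Y ⊕ Fin s) ∉ M)).card := rfl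
    omega
  -- few variables share a part with a given one
  have hpart : ∀ κ, 4 * k * (inGates f (part' H MH κ)).card ≤ E := by
    intro κ
    have h2 := hM2 (part' H MH κ) (part'_disjoint MH κ) (part'_con MH κ)
    rw [sum_wt, sum_wt] at h2
    have h3 : (inGates f (univ : Finset V)).card ≤ Fintype.card Y := Finset.card_le_univ _
    have h4 : 2 * k * (4 * k * (inGates f (part' H MH κ)).card) ≤ 2 * k * E := by
      calc 2 * k * (4 * k * (inGates f (part' H MH κ)).card) =
          8 * k ^ 2 * (inGates f (part' H MH κ)).card := by ring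
        _ ≤ 2 ^ j * (inGates f (part' H MH κ)).card := Nat.mul_le_mul_right _ hj1
        _ ≤ Fintype.card Y := h2.trans h3
        _ ≤ 2 * (k * E) := hY
        _ = 2 * k * E := by ring
    exact Nat.le_of_mul_le_mul_left h4 (by omega)
  have hbad : ∀ x, 4 * ((pure X1).filter (fun z => ¬ Disjoint (occ x) (occ z))).card ≤ E := by
    intro x
    have h2 : (pure X1).filter (fun z => ¬ Disjoint (occ x) (occ z)) ⊆
        (occ x).biUnion (fun κ => (inGates f (part' H MH κ)).image ℓ) := by
      intro z hz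
      rw [mem_filter, Finset.not_disjoint_iff] at hz
      obtain ⟨hz1, κ, hκ1, hκ2⟩ := hz
      have hz2 := (mem_filter.1 hz1).2
      rw [mem_image] at hκ2
      obtain ⟨y, hy, rfl⟩ := hκ2
      have hy' := (mem_filter.1 hy).2
      rw [mem_biUnion]
      refine ⟨_, hκ1, mem_image.2 ⟨y, ?_, hy'⟩⟩
      rw [inGates, mem_filter]
      refine ⟨mem_univ _, mem_part'.2 ⟨?_, rfl⟩⟩
      intro h
      exact hz2 y hy' (mem_above.2 h)
    have h3 : k * (4 * ((pure X1).filter (fun z => ¬ Disjoint (occ x) (occ z))).card) ≤ k * E := by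
      calc k * (4 * ((pure X1).filter (fun z => ¬ Disjoint (occ x) (occ z))).card) ≤
          k * (4 * ∑ κ ∈ occ x, ((inGates f (part' H MH κ)).image ℓ).card) :=
            Nat.mul_le_mul_left _ (Nat.mul_le_mul_left _ ((Finset.card_le_card h2).trans
              Finset.card_biUnion_le))
        _ ≤ k * (4 * ∑ κ ∈ occ x, (inGates f (part' H MH κ)).card) :=
            Nat.mul_le_mul_left _ (Nat.mul_le_mul_left _
              (Finset.sum_le_sum fun κ _ => Finset.card_image_le))
        _ = ∑ κ ∈ occ x, 4 * k * (inGates f (part' H MH κ)).card := by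
            rw [← Finset.mul_sum]; ring
        _ ≤ ∑ κ ∈ occ x, E := Finset.sum_le_sum fun κ _ => hpart κ
        _ = (occ x).card * E := by rw [Finset.sum_const, smul_eq_mul]
        _ ≤ k * E := Nat.mul_le_mul_right E (hocc x)
    exact Nat.le_of_mul_le_mul_left h3 hk
  -- many pairs of variables share no part
  set Q := ((pure X0) ×ˢ (pure X1)).filter (fun q => Disjoint (occ q.1) (occ q.2)) with hQ
  have hpairs : (pure X0).card * (4 * (pure X1).card) ≤ 4 * Q.card + (pure X0).card * E := by
    have h2 : Q.card = ∑ x ∈ pure X0,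
        ((pure X1).filter (fun z => Disjoint (occ x) (occ z))).card := by
      rw [hQ, Finset.card_filter, Finset.sum_product]
      refine Finset.sum_congr rfl fun x _ => ?_
      rw [Finset.card_filter]
    rw [h2, Finset.mul_sum]
    have h3 : (pure X0).card * (4 * (pure X1).card) = ∑ x ∈ pure X0, 4 * (pure X1).card := by
      rw [Finset.sum_const, smul_eq_mul]
    have h4 : (pure X0).card * E = ∑ x ∈ pure X0, E := by rw [Finset.sum_const, smul_eq_mul]
    rw [h3, h4, ← Finset.sum_add_distrib]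
    apply Finset.sum_le_sum
    intro x _
    have h5 := Finset.card_filter_add_card_filter_not (s := pure X1)
      (p := fun z => Disjoint (occ x) (occ z))
    have h6 := hbad x
    omega
  have hQE : E ^ 2 ≤ 2 * Q.card := by
    have h2 := hpure X0
    have h3 := hpure X1
    rw [h0] at h2
    rw [h1] at h3
    have h4 : 9 * E ≤ 10 * (pure X0).card := by omega
    have h5 : 26 * E + 10 * E ≤ 10 * (4 * (pure X1).card) := by omega
    have h6 : 9 * E * (26 * E + 10 * E) ≤ 10 * (pure X0).card * (10 * (4 * (pure X1).card)) :=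
      Nat.mul_le_mul h4 h5
    have h7 : (pure X0).card ≤ E := (Finset.card_le_card (Finset.filter_subset _ _)).trans h0.le
    have h8 : (pure X0).card * E ≤ E * E := Nat.mul_le_mul_right E h7
    -- 100 (4 Q + a E) >= a (100 * 4 b) with a >= 9E/10
    have h9 : (pure X0).card * (26 * E) ≤ 40 * Q.card := by
      have h10 : (pure X0).card * (26 * E + 10 * E) ≤ (pure X0).card * (10 * (4 * (pure X1).card)) :=
        Nat.mul_le_mul_left _ h5
      have h11 : (pure X0).card * (10 * (4 * (pure X1).card)) =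
          10 * ((pure X0).card * (4 * (pure X1).card)) := by ring
      have h12 : (pure X0).card * (26 * E + 10 * E) =
          (pure X0).card * (26 * E) + 10 * ((pure X0).card * E) := by ring
      omega
    have h13 : 9 * E * (26 * E) ≤ 10 * (pure X0).card * (26 * E) := Nat.mul_le_mul_right _ h4
    have h14 : 10 * (pure X0).card * (26 * E) = 10 * ((pure X0).card * (26 * E)) := by ring
    have h15 : 9 * E * (26 * E) = 234 * E ^ 2 := by ring
    omega
  obtain ⟨g, L, R, hL, hR, hgL, hgR, hD⟩ := coloring k (pure X0) (pure X1) occ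
    (fun x _ => hocc x) (fun x _ => hocc x) Q.card le_rfl
  refine ⟨M, fun p => g (comp (f p)), L, R, ?_, hMc, hL.trans (Finset.filter_subset _ _),
    hR.trans (Finset.filter_subset _ _), ?_, ?_, ?_⟩
  · intro p q hpq hp hq
    have hp' : f p ∉ MH := fun h => hp (mem_above.2 h)
    have hq' : f q ∉ MH := fun h => hq (mem_above.2 h)
    have : comp (f p) = comp (f q) := by
      rcases hf.2 p q hpq with h | h
      · rw [h]
      · apply SimpleGraph.ConnectedComponent.sound
        apply SimpleGraph.Adj.reachable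
        exact ⟨h, hp', hq'⟩
    simp only [this]
  · intro y hy
    refine ⟨(mem_filter.1 (hL hy)).2 y rfl, hgL _ hy _ ?_⟩
    exact mem_image.2 ⟨y, mem_filter.2 ⟨mem_univ _, rfl⟩, rfl⟩
  · intro y hy
    refine ⟨(mem_filter.1 (hR hy)).2 y rfl, hgR _ hy _ ?_⟩
    exact mem_image.2 ⟨y, mem_filter.2 ⟨mem_univ _, rfl⟩, rfl⟩
  · exact hQE.trans (Nat.mul_le_mul_left 2 hD)

end

section

variable {V : Type} [Fintype V] {H : SimpleGraph V}

/-- A lower bound for separators gives large bags. -/
theorem dec_bound (v : V) (K m : ℕ) (hw : ∀ w, Halves H w → m ≤ K * w) (D : TreeDec H) :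
    ∃ i, m ≤ K * (D.bag i).card := by
  classical
  obtain ⟨i0, -⟩ := D.cover v
  have hfin := D.fin
  obtain ⟨im, -, him⟩ := Finset.exists_max_image (univ : Finset D.ι) (fun i => (D.bag i).card)
    ⟨i0, mem_univ _⟩
  exact ⟨im, hw _ (halves_of_dec D _ (fun i => him i (mem_univ i)) ⟨v⟩)⟩

/-- A lower bound for separators gives large complete minors. -/
theorem minor_bound (v : V) (K n : ℕ) (hw : ∀ w, Halves H w → n ^ 2 ≤ K * w) (h : ℕ)
    (hh : 4 * K ^ 2 * h ^ 3 * Fintype.card V < n ^ 4) : CliqueMinor H h := by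
  classical
  rcases Nat.eq_zero_or_pos h with h0 | h0
  · subst h0
    exact ⟨fun i => i.elim0, fun i => i.elim0, fun i => i.elim0⟩
  by_contra hm
  obtain ⟨r, hr1, hr2⟩ := exists_sqrt h _ h0 (Fintype.card_pos_iff.2 ⟨v⟩)
  have h1 := hw _ (halves_of_minor h r hr1 hm)
  have h2 : (n ^ 2) ^ 2 ≤ (K * (h * r)) ^ 2 := Nat.pow_le_pow_left h1 2
  have h3 : (K * (h * r)) ^ 2 < (n ^ 2) ^ 2 := by
    calc (K * (h * r)) ^ 2 = K ^ 2 * (h * r) ^ 2 := by ring
      _ ≤ K ^ 2 * (4 * (h ^ 3 * Fintype.card V)) := Nat.mul_le_mul_left _ hr2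
      _ = 4 * K ^ 2 * h ^ 3 * Fintype.card V := by ring
      _ < n ^ 4 := hh
      _ = (n ^ 2) ^ 2 := by ring
  omega

end

end Pool.Agent.V7H15.Tw
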