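import Pool.Agent.V7H15.Tw.Network

/-!
# Circuits placed on graphs, with few input gates for many variables
-/

set_option autoImplicit false

namespace Pool.Agent.V7H15.Tw

open Finset

section

variable {X Y : Type} [Fintype X] [Fintype Y] {s : ℕ} {C : Circuit Y s} {V : Type} [Fintype V]
  {H : SimpleGraph V} {T : ℕ} {f : Y ⊕ Fin s → V}

open Classical in
/-- The number of input gates in `Q` at a vertex. -/
noncomputable def wtQ (f : Y ⊕ Fin s → V) (Q : Finset Y) (v : V) : ℕ :=
  (Q.filter (fun y : Y => f (.inl y) = v)).card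

open Classical in
/-- The input gates in `Q` placed in `B`. -/
noncomputable def inQ (f : Y ⊕ Fin s → V) (Q : Finset Y) (B : Finset V) : Finset Y :=
  Q.filter (fun y : Y => f (.inl y) ∈ B)

omit [Fintype Y] [Fintype V] in
theorem sum_wtQ (f : Y ⊕ Fin s → V) (Q : Finset Y) (B : Finset V) :
    ∑ v ∈ B, wtQ f Q v = (inQ f Q B).card := by
  classical
  rw [inQ, Finset.card_eq_sum_card_fiberwise (f := fun y : Y => f (.inl y)) (t := B)]
  · refine Finset.sum_congr rfl fun v hv => ?_
    rw [wtQ]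
    congr 1
    ext y
    simp only [mem_filter]
    constructor
    · rintro ⟨h1, rfl⟩
      exact ⟨⟨h1, hv⟩, rfl⟩
    · exact fun h => ⟨h.1.1, h.2⟩
  · intro y hy
    exact (mem_filter.1 hy).2

omit [Fintype X] in
/-- **Separations of circuits placed on graphs.** -/
theorem network_separation2 (hf : Placed C H T f)
    (ℓ : Y → X) (k : ℕ) (hk : 0 < k) {w : ℕ}
    (hH : Halves H w) (X0 X1 : Finset X) (hℓ0 : ∀ x ∈ X0, {y | ℓ y = x}.ncard ≤ k)
    (hℓ1 : ∀ x ∈ X1, {y | ℓ y = x}.ncard ≤ k) (E : ℕ) (h0 : X0.card = E) (h1 : X1.card = E)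
    (hw : 320 * (k ^ 2 * (T * w)) ≤ E) :
    ∃ (M : Finset (Y ⊕ Fin s)) (c : Y ⊕ Fin s → Bool) (L R : Finset X), C.Separates M c ∧
      M.card ≤ 32 * (k ^ 2 * (T * w)) ∧ L ⊆ X0 ∧ R ⊆ X1 ∧
      (∀ y, ℓ y ∈ L → (Sum.inl y : Y ⊕ Fin s) ∉ M ∧ c (.inl y) = true) ∧
      (∀ y, ℓ y ∈ R → (Sum.inl y : Y ⊕ Fin s) ∉ M ∧ c (.inl y) = false) ∧
      E ^ 2 ≤ 2 * (4 ^ k * (L.card * R.card)) := by
  classical
  -- the number of input gates
  have hfib : ∀ x, (x ∈ X0 ∨ x ∈ X1) → (univ.filter (fun y : Y => ℓ y = x)).card ≤ k := by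
    intro x hx
    have h2 := hx.elim (hℓ0 x) (hℓ1 x)
    rw [Set.ncard_eq_toFinset_card'] at h2
    refine le_trans (Finset.card_le_card ?_) h2
    intro p hp
    rw [Set.mem_toFinset]
    exact (mem_filter.1 hp).2
  set Q0 : Finset Y := univ.filter (fun y : Y => ℓ y ∈ X0 ∪ X1) with hQ0
  have hY : Q0.card ≤ 2 * (k * E) := by
    have h2 : Q0.card ≤ k * (X0 ∪ X1).card := by
      refine Finset.card_le_mul_card_image_of_maps_to (f := ℓ)
        (fun y hy => (mem_filter.1 hy).2) k (fun x hx => ?_)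
      refine le_trans (Finset.card_le_card ?_) (hfib x (mem_union.1 hx))
      intro y hy
      exact mem_filter.2 ⟨mem_univ _, (mem_filter.1 hy).2⟩
    have h3 : (X0 ∪ X1).card ≤ 2 * E := by
      have := Finset.card_union_le X0 X1
      omega
    calc Q0.card ≤ k * (X0 ∪ X1).card := h2
      _ ≤ k * (2 * E) := Nat.mul_le_mul_left k h3
      _ = 2 * (k * E) := by ring
  -- the number of parts
  obtain ⟨j, hj1, hj2⟩ : ∃ j, 8 * k ^ 2 ≤ 2 ^ j ∧ 2 ^ j ≤ 16 * k ^ 2 := by
    have hk2 : 0 < k ^ 2 := by positivity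
    refine ⟨Nat.clog 2 (8 * k ^ 2), Nat.le_pow_clog (by norm_num) _, ?_⟩
    have h2 := Nat.pow_pred_clog_lt_self (b := 2) (by norm_num) (x := 8 * k ^ 2) (by omega)
    have h3 : 0 < Nat.clog 2 (8 * k ^ 2) := Nat.clog_pos (by norm_num) (by omega)
    obtain ⟨i, hi⟩ : ∃ i, Nat.clog 2 (8 * k ^ 2) = i + 1 := ⟨_, (Nat.succ_pred_eq_of_pos h3).symm⟩
    rw [hi] at h2 ⊢
    rw [Nat.pred_succ] at h2
    rw [pow_succ]
    omega
  obtain ⟨MH, hM1, hM2⟩ := divide hH (wtQ f Q0) j
  have hMH : MH.card ≤ 32 * (k ^ 2 * w) := by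
    have h2 : 2 ^ (j + 1) * w ≤ 32 * (k ^ 2 * w) := by
      calc 2 ^ (j + 1) * w = 2 * (2 ^ j * w) := by ring
        _ ≤ 2 * (16 * k ^ 2 * w) := Nat.mul_le_mul_left 2 (Nat.mul_le_mul_right w hj2)
        _ = 32 * (k ^ 2 * w) := by ring
    omega
  set M := above f MH with hMdef
  have hMc : M.card ≤ 32 * (k ^ 2 * (T * w)) := by
    calc M.card ≤ T * MH.card := card_above hf MH
      _ ≤ T * (32 * (k ^ 2 * w)) := Nat.mul_le_mul_left T hMH
      _ = 32 * (k ^ 2 * (T * w)) := by ring
  have hM10 : 10 * M.card ≤ E := by omega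
  let comp : V → (cut H MH).ConnectedComponent := fun v => (cut H MH).connectedComponentMk v
  have hfinK : Fintype (cut H MH).ConnectedComponent := Fintype.ofFinite _
  let occ : X → Finset (cut H MH).ConnectedComponent := fun x =>
    (univ.filter (fun y : Y => ℓ y = x)).image (fun y => comp (f (.inl y)))
  have hocc : ∀ x, (x ∈ X0 ∨ x ∈ X1) → (occ x).card ≤ k := fun x hx =>
    Finset.card_image_le.trans (hfib x hx)
  let pure : Finset X → Finset X := fun Z =>
    Z.filter (fun x => ∀ y, ℓ y = x → (Sum.inl y : Y ⊕ Fin s) ∉ M)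
  have hpure : ∀ Z : Finset X, Z.card ≤ (pure Z).card + M.card := by
    intro Z
    have h2 : (Z.filter (fun x => ¬ ∀ y, ℓ y = x → (Sum.inl y : Y ⊕ Fin s) ∉ M)).card ≤
        M.card := by
      have h3 : Z.filter (fun x => ¬ ∀ y, ℓ y = x → (Sum.inl y : Y ⊕ Fin s) ∉ M) ⊆
          (univ.filter (fun y : Y => (Sum.inl y : Y ⊕ Fin s) ∈ M)).image ℓ := by
        intro x hx
        have h4 := (mem_filter.1 hx).2
        push Not at h4
        obtain ⟨y, hy1, hy2⟩ := h4
        exact mem_image.2 ⟨y, mem_filter.2 ⟨mem_univ _, hy2⟩, hy1⟩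
      refine (Finset.card_le_card h3).trans (Finset.card_image_le.trans ?_)
      apply Finset.card_le_card_of_injOn (fun y => (Sum.inl y : Y ⊕ Fin s))
      · intro y hy
        exact (mem_filter.1 (mem_coe.1 hy)).2
      · intro y _ y' _ h
        exact Sum.inl.inj h
    have h3 := Finset.card_filter_add_card_filter_not (s := Z)
      (p := fun x => ∀ y, ℓ y = x → (Sum.inl y : Y ⊕ Fin s) ∉ M)
    have h4 : (pure Z).card = (Z.filter (fun x => ∀ y, ℓ y = x →
      (Sum.inl y : Y ⊕ Fin s) ∉ M)).card := rfl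
    omega
  -- few variables share a part with a given one
  have hpart : ∀ κ, 4 * k * (inQ f Q0 (part' H MH κ)).card ≤ E := by
    intro κ
    have h2 := hM2 (part' H MH κ) (part'_disjoint MH κ) (part'_con MH κ)
    rw [sum_wtQ, sum_wtQ] at h2
    have h3 : (inQ f Q0 (univ : Finset V)).card ≤ Q0.card :=
      Finset.card_le_card (Finset.filter_subset _ _)
    have h4 : 2 * k * (4 * k * (inQ f Q0 (part' H MH κ)).card) ≤ 2 * k * E := by
      calc 2 * k * (4 * k * (inQ f Q0 (part' H MH κ)).card) =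
          8 * k ^ 2 * (inQ f Q0 (part' H MH κ)).card := by ring
        _ ≤ 2 ^ j * (inQ f Q0 (part' H MH κ)).card := Nat.mul_le_mul_right _ hj1
        _ ≤ Q0.card := h2.trans h3
        _ ≤ 2 * (k * E) := hY
        _ = 2 * k * E := by ring
    exact Nat.le_of_mul_le_mul_left h4 (by omega)
  have hbad : ∀ x ∈ X0,
      4 * ((pure X1).filter (fun z => ¬ Disjoint (occ x) (occ z))).card ≤ E := by
    intro x hx0
    have h2 : (pure X1).filter (fun z => ¬ Disjoint (occ x) (occ z)) ⊆
        (occ x).biUnion (fun κ => (inQ f Q0 (part' H MH κ)).image ℓ) := by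
      intro z hz
      rw [mem_filter, Finset.not_disjoint_iff] at hz
      obtain ⟨hz1, κ, hκ1, hκ2⟩ := hz
      have hz2 := (mem_filter.1 hz1).2
      have hz3 := (mem_filter.1 hz1).1
      rw [mem_image] at hκ2
      obtain ⟨y, hy, rfl⟩ := hκ2
      have hy' := (mem_filter.1 hy).2
      rw [mem_biUnion]
      refine ⟨_, hκ1, mem_image.2 ⟨y, ?_, hy'⟩⟩
      rw [inQ, mem_filter]
      refine ⟨mem_filter.2 ⟨mem_univ _, mem_union_right _ (by rw [hy']; exact hz3)⟩,
        mem_part'.2 ⟨?_, rfl⟩⟩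
      intro h
      exact hz2 y hy' (mem_above.2 h)
    have h3 : k * (4 * ((pure X1).filter (fun z => ¬ Disjoint (occ x) (occ z))).card) ≤ k * E := by
      calc k * (4 * ((pure X1).filter (fun z => ¬ Disjoint (occ x) (occ z))).card) ≤
          k * (4 * ∑ κ ∈ occ x, ((inQ f Q0 (part' H MH κ)).image ℓ).card) :=
            Nat.mul_le_mul_left _ (Nat.mul_le_mul_left _ ((Finset.card_le_card h2).trans
              Finset.card_biUnion_le))
        _ ≤ k * (4 * ∑ κ ∈ occ x, (inQ f Q0 (part' H MH κ)).card) :=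
            Nat.mul_le_mul_left _ (Nat.mul_le_mul_left _
              (Finset.sum_le_sum fun κ _ => Finset.card_image_le))
        _ = ∑ κ ∈ occ x, 4 * k * (inQ f Q0 (part' H MH κ)).card := by
            rw [← Finset.mul_sum]; ring
        _ ≤ ∑ κ ∈ occ x, E := Finset.sum_le_sum fun κ _ => hpart κ
        _ = (occ x).card * E := by rw [Finset.sum_const, smul_eq_mul]
        _ ≤ k * E := Nat.mul_le_mul_right E (hocc x (Or.inl hx0))
    exact Nat.le_of_mul_le_mul_left h3 hk
  -- many pairs of variables share no part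
  set Q := ((pure X0) ×ˢ (pure X1)).filter (fun q => Disjoint (occ q.1) (occ q.2)) with hQ
  have hpairs : (pure X0).card * (4 * (pure X1).card) ≤ 4 * Q.card + (pure X0).card * E := by
    have h2 : Q.card = ∑ x ∈ pure X0,
        ((pure X1).filter (fun z => Disjoint (occ x) (occ z))).card := by
      rw [hQ, Finset.card_filter, Finset.sum_product]
      refine Finset.sum_congr rfl fun x _ => ?_
      rw [Finset.card_filter]
    rw [h2, Finset.mul_sum]
    have h3 : (pure X0).card * (4 * (pure X1).card) = ∑ x ∈ pure X0, 4 * (pure X1).card := by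
      rw [Finset.sum_const, smul_eq_mul]
    have h4 : (pure X0).card * E = ∑ x ∈ pure X0, E := by rw [Finset.sum_const, smul_eq_mul]
    rw [h3, h4, ← Finset.sum_add_distrib]
    apply Finset.sum_le_sum
    intro x hx
    have h5 := Finset.card_filter_add_card_filter_not (s := pure X1)
      (p := fun z => Disjoint (occ x) (occ z))
    have h6 := hbad x (mem_filter.1 hx).1
    omega
  have hQE : E ^ 2 ≤ 2 * Q.card := by
    have h2 := hpure X0
    have h3 := hpure X1
    rw [h0] at h2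
    rw [h1] at h3
    have h4 : 9 * E ≤ 10 * (pure X0).card := by omega
    have h5 : 26 * E + 10 * E ≤ 10 * (4 * (pure X1).card) := by omega
    have h6 : 9 * E * (26 * E + 10 * E) ≤ 10 * (pure X0).card * (10 * (4 * (pure X1).card)) :=
      Nat.mul_le_mul h4 h5
    have h7 : (pure X0).card ≤ E := (Finset.card_le_card (Finset.filter_subset _ _)).trans h0.le
    have h8 : (pure X0).card * E ≤ E * E := Nat.mul_le_mul_right E h7
    -- 100 (4 Q + a E) >= a (100 * 4 b) with a >= 9E/10
    have h9 : (pure X0).card * (26 * E) ≤ 40 * Q.card := by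
      have h10 : (pure X0).card * (26 * E + 10 * E) ≤ (pure X0).card * (10 * (4 * (pure X1).card)) :=
        Nat.mul_le_mul_left _ h5
      have h11 : (pure X0).card * (10 * (4 * (pure X1).card)) =
          10 * ((pure X0).card * (4 * (pure X1).card)) := by ring
      have h12 : (pure X0).card * (26 * E + 10 * E) =
          (pure X0).card * (26 * E) + 10 * ((pure X0).card * E) := by ring
      omega
    have h13 : 9 * E * (26 * E) ≤ 10 * (pure X0).card * (26 * E) := Nat.mul_le_mul_right _ h4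
    have h14 : 10 * (pure X0).card * (26 * E) = 10 * ((pure X0).card * (26 * E)) := by ring
    have h15 : 9 * E * (26 * E) = 234 * E ^ 2 := by ring
    omega
  obtain ⟨g, L, R, hL, hR, hgL, hgR, hD⟩ := coloring k (pure X0) (pure X1) occ
    (fun x hx => hocc x (Or.inl (mem_filter.1 hx).1))
    (fun x hx => hocc x (Or.inr (mem_filter.1 hx).1)) Q.card le_rfl
  refine ⟨M, fun p => g (comp (f p)), L, R, ?_, hMc, hL.trans (Finset.filter_subset _ _),
    hR.trans (Finset.filter_subset _ _), ?_, ?_, ?_⟩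
  · intro p q hpq hp hq
    have hp' : f p ∉ MH := fun h => hp (mem_above.2 h)
    have hq' : f q ∉ MH := fun h => hq (mem_above.2 h)
    have : comp (f p) = comp (f q) := by
      rcases hf.2 p q hpq with h | h
      · rw [h]
      · apply SimpleGraph.ConnectedComponent.sound
        apply SimpleGraph.Adj.reachable
        exact ⟨h, hp', hq'⟩
    simp only [this]
  · intro y hy
    refine ⟨(mem_filter.1 (hL hy)).2 y rfl, hgL _ hy _ ?_⟩
    exact mem_image.2 ⟨y, mem_filter.2 ⟨mem_univ _, rfl⟩, rfl⟩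
  · intro y hy
    refine ⟨(mem_filter.1 (hR hy)).2 y rfl, hgR _ hy _ ?_⟩
    exact mem_image.2 ⟨y, mem_filter.2 ⟨mem_univ _, rfl⟩, rfl⟩
  · exact hQE.trans (Nat.mul_le_mul_left 2 hD)

end

end Pool.Agent.V7H15.Tw
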