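import Pool.Agent.V7H15.Tw.GiMain
import Pool.Agent.V7H15.Tw.Network

/-!
# Networks for graph isomorphism
-/

set_option autoImplicit false

namespace Pool.Agent.V7H15.Tw

open Finset

section main

variable {n s : ℕ}

theorem iso_bound_read {Y : Type} (C : Circuit Y s) (out : Y ⊕ Fin s) (ℓ : Y → Bool × Pr n)
    (hC : ∀ z : Bool × Pr n → Bool, Nonempty (fstG z ≃g sndG z) ↔
      ∃ v, C.Run (fun y => z (ℓ y)) v ∧ v out = true)
    (M : Finset (Y ⊕ Fin s)) (c : Y ⊕ Fin s → Bool) (hsep : C.Separates M c)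
    (A B : Finset (Pr n))
    (hA : ∀ y, ∀ e ∈ A, ℓ y = (false, e) → (Sum.inl y : Y ⊕ Fin s) ∉ M ∧ c (.inl y) = true)
    (hB : ∀ y, ∀ e ∈ B, ℓ y = (true, e) → (Sum.inl y : Y ⊕ Fin s) ∉ M ∧ c (.inl y) = false) :
    ∃ k : ℕ, Fintype.card (Pr n) * (A.card * B.card) ≤ k * n ^ 4 ∧
      2 ^ k ≤ 8 ^ M.card * n.factorial := by
  classical
  obtain ⟨ρ₁, ρ₂, F, hF, hcard⟩ := exists_perms A B
  refine ⟨F.card, hcard, ?_⟩
  let ρ : Bool → Equiv.Perm (Fin n) := fun b' => if b' = false then ρ₁ else ρ₂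
  have hρb : ρ false = ρ₁ := by simp [ρ]
  have hρb' : ρ true = ρ₂ := by simp [ρ]
  have hrun : ∀ f : F → Bool, ∃ v, C.Run (fun y => zin ρ false (bits F f) (bits F f) (ℓ y)) v ∧ v out = true := by
    intro f
    rw [← hC, zin_iso]
    exact ⟨SimpleGraph.Iso.refl⟩
  choose v hv1 hv2 using hrun
  let τ : (F → Bool) → (M → Bool × Bool × Bool) := fun f p => trans C M c (v f) p.1
  have hτ : ∀ f g, τ f = τ g → Nonempty (graphOf (bits F f) ≃g graphOf (bits F g)) := by
    intro f g hfg
    have hrule : ∀ g', C.Rule (mix M c (v f) (v g)) g' := by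
      apply mix_rule C M c hsep _ _ (hv1 f).2 (hv1 g).2
      intro p hp
      exact congrFun hfg ⟨p, hp⟩
    have hMv : ∀ p ∈ M, v f p = v g p := by
      intro p hp
      have := congrFun hfg ⟨p, hp⟩
      have h3 := congrArg Prod.fst this
      simpa only [τ, trans_fst] using h3
    have hv1' : ∀ f' y, v f' (.inl y) = zin ρ false (bits F f') (bits F f') (ℓ y) :=
      fun f' y => (hv1 f').1 y
    have h1 : ∀ e x y, zin ρ false x y (false, e) = push ρ₁ x e := by
      intro e x y
      simp only [zin, if_true, hρb]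
    have h2 : ∀ e x y, zin ρ false x y (true, e) = push ρ₂ y e := by
      intro e x y
      simp only [zin, Bool.true_eq_false, if_false, hρb']
    have hz : ∀ y, mix M c (v f) (v g) (.inl y) = zin ρ false (bits F f) (bits F g) (ℓ y) := by
      intro y
      rcases hbe : ℓ y with ⟨b, e⟩
      cases b with
      | false =>
        rw [h1]
        simp only [mix]
        split_ifs with h3
        · rw [hv1' f, hbe, h1]
        · push Not at h3
          have heA : e ∉ A := fun h => h3.2 (hA y e h hbe).2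
          rw [hv1' g, hbe, h1, push_bits F g ρ₁ e A (fun e' he' => (hF e' he').1) heA,
            push_bits F f ρ₁ e A (fun e' he' => (hF e' he').1) heA]
      | true =>
        rw [h2]
        simp only [mix]
        split_ifs with h3
        · rcases h3 with h3 | h3
          · rw [hMv _ h3, hv1' g, hbe, h2]
          · have heB : e ∉ B := by
              intro h
              rw [(hB y e h hbe).2] at h3
              exact absurd h3 (by simp)
            rw [hv1' f, hbe, h2, push_bits F g ρ₂ e B (fun e' he' => (hF e' he').2) heB,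
              push_bits F f ρ₂ e B (fun e' he' => (hF e' he').2) heB]
        · rw [hv1' g, hbe, h2]
    have hacc : ∃ u, C.Run (fun y => zin ρ false (bits F f) (bits F g) (ℓ y)) u ∧ u out = true := by
      refine ⟨mix M c (v f) (v g), ⟨hz, hrule⟩, ?_⟩
      simp only [mix]
      split_ifs
      · exact hv2 f
      · exact hv2 g
    rw [← hC, zin_iso] at hacc
    exact hacc
  -- every fibre has at most `n!` elements
  have hfib : ∀ t ∈ (univ : Finset (M → Bool × Bool × Bool)),
      (univ.filter (fun f : F → Bool => τ f = t)).card ≤ n.factorial := by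
    intro t _
    rcases Finset.eq_empty_or_nonempty (univ.filter (fun f : F → Bool => τ f = t)) with h | ⟨f0, h0⟩
    · rw [h]; simp
    · rw [mem_filter] at h0
      have hiso : ∀ g : F → Bool, τ g = t → Nonempty (graphOf (bits F f0) ≃g graphOf (bits F g)) :=
        fun g hg => hτ f0 g (h0.2.trans hg.symm)
      let φ : (F → Bool) → Equiv.Perm (Fin n) := fun g =>
        if h : τ g = t then (Classical.choice (hiso g h)).toEquiv else 1
      have := Finset.card_le_card_of_injOn (s := univ.filter (fun f : F → Bool => τ f = t))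
        (t := (univ : Finset (Equiv.Perm (Fin n)))) φ (fun _ _ => mem_coe.2 (mem_univ _)) (by
          intro g hg g' hg' hgg
          rw [mem_coe, mem_filter] at hg hg'
          simp only [φ, dif_pos hg.2, dif_pos hg'.2] at hgg
          apply bits_injective F
          apply graphOf_injective
          ext u w
          have h1 := (Classical.choice (hiso g hg.2)).map_rel_iff'
            (a := (Classical.choice (hiso g hg.2)).toEquiv.symm u)
            (b := (Classical.choice (hiso g hg.2)).toEquiv.symm w)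
          have h2 := (Classical.choice (hiso g' hg'.2)).map_rel_iff'
            (a := (Classical.choice (hiso g' hg'.2)).toEquiv.symm u)
            (b := (Classical.choice (hiso g' hg'.2)).toEquiv.symm w)
          rw [Equiv.apply_symm_apply, Equiv.apply_symm_apply] at h1 h2
          rw [h1, h2, hgg])
      rwa [Finset.card_univ, Fintype.card_perm, Fintype.card_fin] at this
  have h1 := Finset.card_le_mul_card_image_of_maps_to (s := (univ : Finset (F → Bool)))
    (t := (univ : Finset (M → Bool × Bool × Bool))) (f := τ) (fun _ _ => mem_univ _)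
    n.factorial hfib
  rw [Finset.card_univ, Finset.card_univ, Fintype.card_fun, Fintype.card_bool, Fintype.card_coe,
    Fintype.card_fun, Fintype.card_coe] at h1
  have h2 : Fintype.card (Bool × Bool × Bool) = 8 := rfl
  rw [h2] at h1
  rw [mul_comm]
  exact h1

theorem log_bound : ∀ L ≥ 25, 10 ^ 4 * L ^ 2 ≤ 2 ^ (L - 1) := by
  intro L hL
  induction L, hL using Nat.le_induction with
  | base => norm_num
  | succ L hL ih =>
    have h1 : 2 ^ (L + 1 - 1) = 2 * 2 ^ (L - 1) := by
      rw [← pow_succ']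
      congr 1
      omega
    rw [h1]
    nlinarith

theorem pow_bound {k : ℕ} (hn : 2 ^ 24 ≤ n) (hkn : 16 ^ k ≤ n) :
    n ^ (100 * 4 ^ k) ≤ 2 ^ n := by
  have hn0 : n ≠ 0 := by
    rintro rfl
    norm_num at hn
  set L := Nat.log 2 n + 1 with hL
  have h1 : n < 2 ^ L := Nat.lt_pow_succ_log_self (by norm_num) n
  have h2 : 2 ^ (L - 1) ≤ n := by
    rw [hL, Nat.add_sub_cancel]
    exact Nat.pow_log_le_self 2 hn0
  have h3 : 25 ≤ L := by
    have h4 : Nat.log 2 (2 ^ 24) ≤ Nat.log 2 n := Nat.log_mono_right hn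
    rw [Nat.log_pow (by norm_num)] at h4
    omega
  have h4 := (log_bound L h3).trans h2
  have h5 : 100 * 4 ^ k * L ≤ n := by
    have h6 : (100 * 4 ^ k * L) ^ 2 ≤ n ^ 2 := by
      calc (100 * 4 ^ k * L) ^ 2 = (10 ^ 4 * L ^ 2) * (4 ^ k) ^ 2 := by ring
        _ = (10 ^ 4 * L ^ 2) * 16 ^ k := by rw [← pow_mul, mul_comm k 2, pow_mul]; norm_num
        _ ≤ n * n := Nat.mul_le_mul h4 hkn
        _ = n ^ 2 := by ring
    exact (Nat.pow_le_pow_iff_left (by norm_num)).1 h6
  calc n ^ (100 * 4 ^ k) ≤ (2 ^ L) ^ (100 * 4 ^ k) := Nat.pow_le_pow_left h1.le _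
    _ = 2 ^ (100 * 4 ^ k * L) := by rw [← pow_mul, mul_comm]
    _ ≤ 2 ^ n := Nat.pow_le_pow_right (by norm_num) h5

/-- **Networks for graph isomorphism have no small separators.** -/
theorem iso_read {Y V : Type} [Fintype Y] [Fintype V] {H : SimpleGraph V} {T : ℕ}
    (hn : 2 ^ 24 ≤ n) (k : ℕ) (hk : 0 < k) (hkn : 16 ^ k ≤ n)
    (C : Circuit Y s) (out : Y ⊕ Fin s) (ℓ : Y → Bool × Pr n)
    (hℓ : ∀ x, {y | ℓ y = x}.ncard ≤ k)
    (hC : ∀ z : Bool × Pr n → Bool, Nonempty (fstG z ≃g sndG z) ↔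
      ∃ v, C.Run (fun y => z (ℓ y)) v ∧ v out = true)
    (f : Y ⊕ Fin s → V) (hf : Placed C H T f) (w : ℕ) (hH : Halves H w) :
    n ^ 2 ≤ 10 ^ 4 * (k ^ 2 * 4 ^ k * (T * w)) := by
  classical
  by_contra hcon
  push Not at hcon
  set E := Fintype.card (Pr n) with hE
  have hE2 : 2 * E + n = n ^ 2 := card_pr n
  have hn2 : 2 ^ 24 * n ≤ n ^ 2 := by rw [pow_two]; exact Nat.mul_le_mul_right n hn
  obtain ⟨q, hq⟩ : ∃ q, q = k ^ 2 * (T * w) := ⟨_, rfl⟩
  have hqa : k ^ 2 * 4 ^ k * (T * w) = 4 ^ k * q := by rw [hq]; ring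
  rw [hqa] at hcon
  have h4k : 4 ≤ 4 ^ k := by
    calc 4 = 4 ^ 1 := by norm_num
      _ ≤ 4 ^ k := Nat.pow_le_pow_right (by norm_num) hk
  have h4q : 4 * q ≤ 4 ^ k * q := Nat.mul_le_mul_right q h4k
  let X0 : Finset (Bool × Pr n) := (univ : Finset (Pr n)).map ⟨fun e => (false, e),
    fun e e' h => (Prod.ext_iff.1 h).2⟩
  let X1 : Finset (Bool × Pr n) := (univ : Finset (Pr n)).map ⟨fun e => (true, e),
    fun e e' h => (Prod.ext_iff.1 h).2⟩
  have hX0 : X0.card = E := by rw [Finset.card_map, Finset.card_univ]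
  have hX1 : X1.card = E := by rw [Finset.card_map, Finset.card_univ]
  have hX : Fintype.card (Bool × Pr n) ≤ 2 * E := by
    rw [Fintype.card_prod, Fintype.card_bool]
  obtain ⟨M, c, L, R, hsep, hM, hL, hR, hLM, hRM, hLR⟩ := network_separation hf ℓ k hk hℓ hH
    X0 X1 E hX0 hX1 hX (by rw [← hq]; omega)
  rw [← hq] at hM
  let A : Finset (Pr n) := univ.filter (fun e => (false, e) ∈ L)
  let B : Finset (Pr n) := univ.filter (fun e => (true, e) ∈ R)
  have hLA : L.card ≤ A.card := by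
    have h1 : L ⊆ A.map ⟨fun e => (false, e), fun e e' h => (Prod.ext_iff.1 h).2⟩ := by
      intro x hx
      obtain ⟨e, -, he⟩ := mem_map.1 (hL hx)
      refine mem_map.2 ⟨e, mem_filter.2 ⟨mem_univ _, ?_⟩, he⟩
      have h2 : (false, e) = x := he
      rw [h2]; exact hx
    exact (Finset.card_le_card h1).trans (Finset.card_map _).le
  have hRB : R.card ≤ B.card := by
    have h1 : R ⊆ B.map ⟨fun e => (true, e), fun e e' h => (Prod.ext_iff.1 h).2⟩ := by
      intro x hx
      obtain ⟨e, -, he⟩ := mem_map.1 (hR hx)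
      refine mem_map.2 ⟨e, mem_filter.2 ⟨mem_univ _, ?_⟩, he⟩
      have h2 : (true, e) = x := he
      rw [h2]; exact hx
    exact (Finset.card_le_card h1).trans (Finset.card_map _).le
  obtain ⟨kk, hk1, hk2⟩ := iso_bound_read C out ℓ hC M c hsep A B
    (fun y e he hy => hLM y (by rw [hy]; exact (mem_filter.1 he).2))
    (fun y e he hy => hRM y (by rw [hy]; exact (mem_filter.1 he).2))
  rw [← hE] at hk1
  have hAB : E ^ 2 ≤ 2 * (4 ^ k * (A.card * B.card)) :=
    hLR.trans (Nat.mul_le_mul_left _ (Nat.mul_le_mul_left _ (Nat.mul_le_mul hLA hRB)))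
  -- the exponent
  have h5E : 2 * n ^ 2 ≤ 5 * E := by omega
  have h18 : n ^ 4 * (8 * n ^ 2) ≤ n ^ 4 * (250 * (4 ^ k * kk)) := by
    calc n ^ 4 * (8 * n ^ 2) = (2 * n ^ 2) ^ 3 := by ring
      _ ≤ (5 * E) ^ 3 := Nat.pow_le_pow_left h5E 3
      _ = 125 * (E * E ^ 2) := by ring
      _ ≤ 125 * (E * (2 * (4 ^ k * (A.card * B.card)))) :=
          Nat.mul_le_mul_left _ (Nat.mul_le_mul_left _ hAB)
      _ = 250 * 4 ^ k * (E * (A.card * B.card)) := by ring
      _ ≤ 250 * 4 ^ k * (kk * n ^ 4) := Nat.mul_le_mul_left _ hk1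
      _ = n ^ 4 * (250 * (4 ^ k * kk)) := by ring
  have hnpos : 0 < n := by omega
  have h19 : 8 * n ^ 2 ≤ 250 * (4 ^ k * kk) := Nat.le_of_mul_le_mul_left h18 (by positivity)
  have h20 : (2 : ℕ) ^ (100 * (4 ^ k * kk)) ≤ 2 ^ (300 * (4 ^ k * M.card) + n ^ 2) := by
    calc (2 : ℕ) ^ (100 * (4 ^ k * kk)) = (2 ^ kk) ^ (100 * 4 ^ k) := by
          rw [← pow_mul]; congr 1; ring
      _ ≤ (8 ^ M.card * n.factorial) ^ (100 * 4 ^ k) := Nat.pow_le_pow_left hk2 _
      _ ≤ (8 ^ M.card * n ^ n) ^ (100 * 4 ^ k) :=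
          Nat.pow_le_pow_left (Nat.mul_le_mul_left _ (Nat.factorial_le_pow n)) _
      _ = 2 ^ (300 * (4 ^ k * M.card)) * (n ^ (100 * 4 ^ k)) ^ n := by
          have h8 : (8 : ℕ) = 2 ^ 3 := by norm_num
          rw [mul_pow, h8, ← pow_mul, ← pow_mul, ← pow_mul, ← pow_mul]
          congr 1
          · congr 1; ring
          · congr 1; ring
      _ ≤ 2 ^ (300 * (4 ^ k * M.card)) * (2 ^ n) ^ n :=
          Nat.mul_le_mul_left _ (Nat.pow_le_pow_left (pow_bound hn hkn) _)
      _ = 2 ^ (300 * (4 ^ k * M.card) + n ^ 2) := by rw [← pow_mul, ← pow_two, ← pow_add]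
  have h21 : 100 * (4 ^ k * kk) ≤ 300 * (4 ^ k * M.card) + n ^ 2 :=
    (Nat.pow_le_pow_iff_right (by norm_num)).1 h20
  have h22 : 4 ^ k * M.card ≤ 32 * (4 ^ k * q) := by
    calc 4 ^ k * M.card ≤ 4 ^ k * (32 * q) := Nat.mul_le_mul_left _ hM
      _ = 32 * (4 ^ k * q) := by ring
  omega

end main

end Pool.Agent.V7H15.Tw
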