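import Pool.Agent.V7H15.Tw.ReadGi
import Pool.Agent.V7H15.Tw.Network2

/-!
# Networks for graph isomorphism that may read some of the bits arbitrarily often
-/

set_option autoImplicit false

namespace Pool.Agent.V7H15.Tw

open Finset

section main

variable {n s : ℕ}

theorem log_bound2 : ∀ L ≥ 31, 10 ^ 6 * L ^ 2 ≤ 2 ^ (L - 1) := by
  intro L hL
  induction L, hL using Nat.le_induction with
  | base => norm_num
  | succ L hL ih =>
    have h1 : 2 ^ (L + 1 - 1) = 2 * 2 ^ (L - 1) := by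
      rw [← pow_succ']
      congr 1
      omega
    rw [h1]
    nlinarith

theorem pow_bound2 {k : ℕ} (hn : 2 ^ 30 ≤ n) (hkn : 16 ^ k ≤ n) :
    n ^ (1000 * 4 ^ k) ≤ 2 ^ n := by
  have hn0 : n ≠ 0 := by
    rintro rfl
    norm_num at hn
  set L := Nat.log 2 n + 1 with hL
  have h1 : n < 2 ^ L := Nat.lt_pow_succ_log_self (by norm_num) n
  have h2 : 2 ^ (L - 1) ≤ n := by
    rw [hL, Nat.add_sub_cancel]
    exact Nat.pow_log_le_self 2 hn0
  have h3 : 31 ≤ L := by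
    have h4 : Nat.log 2 (2 ^ 30) ≤ Nat.log 2 n := Nat.log_mono_right hn
    rw [Nat.log_pow (by norm_num)] at h4
    omega
  have h4 := (log_bound2 L h3).trans h2
  have h5 : 1000 * 4 ^ k * L ≤ n := by
    have h6 : (1000 * 4 ^ k * L) ^ 2 ≤ n ^ 2 := by
      calc (1000 * 4 ^ k * L) ^ 2 = (10 ^ 6 * L ^ 2) * (4 ^ k) ^ 2 := by ring
        _ = (10 ^ 6 * L ^ 2) * 16 ^ k := by rw [← pow_mul, mul_comm k 2, pow_mul]; norm_num
        _ ≤ n * n := Nat.mul_le_mul h4 hkn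
        _ = n ^ 2 := by ring
    exact (Nat.pow_le_pow_iff_left (by norm_num)).1 h6
  calc n ^ (1000 * 4 ^ k) ≤ (2 ^ L) ^ (1000 * 4 ^ k) := Nat.pow_le_pow_left h1.le _
    _ = 2 ^ (1000 * 4 ^ k * L) := by rw [← pow_mul, mul_comm]
    _ ≤ 2 ^ n := Nat.pow_le_pow_right (by norm_num) h5

/-- **Networks for graph isomorphism have no small separators.** -/
theorem iso_read2 {Y V : Type} [Fintype Y] [Fintype V] {H : SimpleGraph V} {T : ℕ}
    (hn : 2 ^ 30 ≤ n) (k : ℕ) (hk : 0 < k) (hkn : 16 ^ k ≤ n)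
    (C : Circuit Y s) (out : Y ⊕ Fin s) (ℓ : Y → Bool × Pr n)
    (hℓ : ∀ b, Fintype.card (Pr n) ≤ 2 * {e : Pr n | {y | ℓ y = (b, e)}.ncard ≤ k}.ncard)
    (hC : ∀ z : Bool × Pr n → Bool, Nonempty (fstG z ≃g sndG z) ↔
      ∃ v, C.Run (fun y => z (ℓ y)) v ∧ v out = true)
    (f : Y ⊕ Fin s → V) (hf : Placed C H T f) (w : ℕ) (hH : Halves H w) :
    n ^ 2 ≤ 2 * 10 ^ 4 * (k ^ 2 * 4 ^ k * (T * w)) := by
  classical
  by_contra hcon
  push Not at hcon
  set E := Fintype.card (Pr n) with hE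
  have hE2 : 2 * E + n = n ^ 2 := card_pr n
  have hn2 : 2 ^ 30 * n ≤ n ^ 2 := by rw [pow_two]; exact Nat.mul_le_mul_right n hn
  obtain ⟨q, hq⟩ : ∃ q, q = k ^ 2 * (T * w) := ⟨_, rfl⟩
  have hqa : k ^ 2 * 4 ^ k * (T * w) = 4 ^ k * q := by rw [hq]; ring
  rw [hqa] at hcon
  have h4k : 4 ≤ 4 ^ k := by
    calc 4 = 4 ^ 1 := by norm_num
      _ ≤ 4 ^ k := Nat.pow_le_pow_right (by norm_num) hk
  have h4q : 4 * q ≤ 4 ^ k * q := Nat.mul_le_mul_right q h4k
  -- the bits that are read at few places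
  have hZ : ∀ b : Bool, ∃ Z : Finset (Pr n), Z.card = (E + 1) / 2 ∧
      ∀ e ∈ Z, {y | ℓ y = (b, e)}.ncard ≤ k := by
    intro b
    have h1 : (E + 1) / 2 ≤
        (univ.filter (fun e : Pr n => {y | ℓ y = (b, e)}.ncard ≤ k)).card := by
      have h2 : {e : Pr n | {y | ℓ y = (b, e)}.ncard ≤ k}.ncard =
          (univ.filter (fun e : Pr n => {y | ℓ y = (b, e)}.ncard ≤ k)).card := by
        rw [← Set.ncard_coe_finset]
        congr 1
        ext x
        simp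
      have h3 := hℓ b
      omega
    obtain ⟨A, hA1, hA2⟩ := Finset.exists_subset_card_eq h1
    exact ⟨A, hA2, fun e he => (mem_filter.1 (hA1 he)).2⟩
  choose Z hZ1 hZ2 using hZ
  obtain ⟨E', hE'⟩ : ∃ E', E' = (E + 1) / 2 := ⟨_, rfl⟩
  let X0 : Finset (Bool × Pr n) := (Z false).map ⟨fun e => (false, e),
    fun e e' h => (Prod.ext_iff.1 h).2⟩
  let X1 : Finset (Bool × Pr n) := (Z true).map ⟨fun e => (true, e),
    fun e e' h => (Prod.ext_iff.1 h).2⟩
  have hX0 : X0.card = E' := by rw [Finset.card_map, hZ1, hE']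
  have hX1 : X1.card = E' := by rw [Finset.card_map, hZ1, hE']
  have hℓ0 : ∀ x ∈ X0, {y | ℓ y = x}.ncard ≤ k := by
    intro x hx
    obtain ⟨e, he, hex⟩ := mem_map.1 hx
    have h2 : (false, e) = x := hex
    rw [← h2]
    exact hZ2 false e he
  have hℓ1 : ∀ x ∈ X1, {y | ℓ y = x}.ncard ≤ k := by
    intro x hx
    obtain ⟨e, he, hex⟩ := mem_map.1 hx
    have h2 : (true, e) = x := hex
    rw [← h2]
    exact hZ2 true e he
  obtain ⟨M, c, L, R, hsep, hM, hL, hR, hLM, hRM, hLR⟩ := network_separation2 hf ℓ k hk hH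
    X0 X1 hℓ0 hℓ1 E' hX0 hX1 (by rw [← hq]; omega)
  rw [← hq] at hM
  let A : Finset (Pr n) := univ.filter (fun e => (false, e) ∈ L)
  let B : Finset (Pr n) := univ.filter (fun e => (true, e) ∈ R)
  have hLA : L.card ≤ A.card := by
    have h1 : L ⊆ A.map ⟨fun e => (false, e), fun e e' h => (Prod.ext_iff.1 h).2⟩ := by
      intro x hx
      obtain ⟨e, -, he⟩ := mem_map.1 (hL hx)
      refine mem_map.2 ⟨e, mem_filter.2 ⟨mem_univ _, ?_⟩, he⟩
      have h2 : (false, e) = x := he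
      rw [h2]; exact hx
    exact (Finset.card_le_card h1).trans (Finset.card_map _).le
  have hRB : R.card ≤ B.card := by
    have h1 : R ⊆ B.map ⟨fun e => (true, e), fun e e' h => (Prod.ext_iff.1 h).2⟩ := by
      intro x hx
      obtain ⟨e, -, he⟩ := mem_map.1 (hR hx)
      refine mem_map.2 ⟨e, mem_filter.2 ⟨mem_univ _, ?_⟩, he⟩
      have h2 : (true, e) = x := he
      rw [h2]; exact hx
    exact (Finset.card_le_card h1).trans (Finset.card_map _).le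
  obtain ⟨kk, hk1, hk2⟩ := iso_bound_read C out ℓ hC M c hsep A B
    (fun y e he hy => hLM y (by rw [hy]; exact (mem_filter.1 he).2))
    (fun y e he hy => hRM y (by rw [hy]; exact (mem_filter.1 he).2))
  rw [← hE] at hk1
  have hAB : E' ^ 2 ≤ 2 * (4 ^ k * (A.card * B.card)) :=
    hLR.trans (Nat.mul_le_mul_left _ (Nat.mul_le_mul_left _ (Nat.mul_le_mul hLA hRB)))
  -- the exponent
  have h5E : 2 * n ^ 2 ≤ 5 * E := by omega
  have h5E' : n ^ 2 ≤ 5 * E' := by omega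
  have h18 : n ^ 4 * (2 * n ^ 2) ≤ n ^ 4 * (250 * (4 ^ k * kk)) := by
    calc n ^ 4 * (2 * n ^ 2) = (2 * n ^ 2) * (n ^ 2) ^ 2 := by ring
      _ ≤ (5 * E) * (5 * E') ^ 2 := Nat.mul_le_mul h5E (Nat.pow_le_pow_left h5E' 2)
      _ = 125 * (E * E' ^ 2) := by ring
      _ ≤ 125 * (E * (2 * (4 ^ k * (A.card * B.card)))) :=
          Nat.mul_le_mul_left _ (Nat.mul_le_mul_left _ hAB)
      _ = 250 * 4 ^ k * (E * (A.card * B.card)) := by ring
      _ ≤ 250 * 4 ^ k * (kk * n ^ 4) := Nat.mul_le_mul_left _ hk1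
      _ = n ^ 4 * (250 * (4 ^ k * kk)) := by ring
  have hnpos : 0 < n := by omega
  have h19 : 2 * n ^ 2 ≤ 250 * (4 ^ k * kk) := Nat.le_of_mul_le_mul_left h18 (by positivity)
  have h20 : (2 : ℕ) ^ (1000 * (4 ^ k * kk)) ≤ 2 ^ (3000 * (4 ^ k * M.card) + n ^ 2) := by
    calc (2 : ℕ) ^ (1000 * (4 ^ k * kk)) = (2 ^ kk) ^ (1000 * 4 ^ k) := by
          rw [← pow_mul]; congr 1; ring
      _ ≤ (8 ^ M.card * n.factorial) ^ (1000 * 4 ^ k) := Nat.pow_le_pow_left hk2 _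
      _ ≤ (8 ^ M.card * n ^ n) ^ (1000 * 4 ^ k) :=
          Nat.pow_le_pow_left (Nat.mul_le_mul_left _ (Nat.factorial_le_pow n)) _
      _ = 2 ^ (3000 * (4 ^ k * M.card)) * (n ^ (1000 * 4 ^ k)) ^ n := by
          have h8 : (8 : ℕ) = 2 ^ 3 := by norm_num
          rw [mul_pow, h8, ← pow_mul, ← pow_mul, ← pow_mul, ← pow_mul]
          congr 1
          · congr 1; ring
          · congr 1; ring
      _ ≤ 2 ^ (3000 * (4 ^ k * M.card)) * (2 ^ n) ^ n :=
          Nat.mul_le_mul_left _ (Nat.pow_le_pow_left (pow_bound2 hn hkn) _)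
      _ = 2 ^ (3000 * (4 ^ k * M.card) + n ^ 2) := by rw [← pow_mul, ← pow_two, ← pow_add]
  have h21 : 1000 * (4 ^ k * kk) ≤ 3000 * (4 ^ k * M.card) + n ^ 2 :=
    (Nat.pow_le_pow_iff_right (by norm_num)).1 h20
  have h22 : 4 ^ k * M.card ≤ 32 * (4 ^ k * q) := by
    calc 4 ^ k * M.card ≤ 4 ^ k * (32 * q) := Nat.mul_le_mul_left _ hM
      _ = 32 * (4 ^ k * q) := by ring
  omega

end main

end Pool.Agent.V7H15.Tw
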