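import Pool.Agent.V7H15.Tw.HamMain
import Pool.Agent.V7H15.Tw.Network

/-!
# Networks for Hamiltonicity
-/

set_option autoImplicit false

namespace Pool.Agent.V7H15.Tw

open Finset

section main

variable {n s : ℕ}

theorem sep_bound_read {Y : Type} (C : Circuit Y s) (out : Y ⊕ Fin s) (ℓ : Y → Pr n)
    (hC : ∀ z : Pr n → Bool, (graphOf z).IsHamiltonian ↔
      ∀ v, C.Run (fun q => z (ℓ q)) v → v out = true)
    (M : Finset (Y ⊕ Fin s)) (c : Y ⊕ Fin s → Bool) (hsep : C.Separates M c)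
    (L R : Finset (Pr n))
    (hL : ∀ q, ℓ q ∈ L → (Sum.inl q : Y ⊕ Fin s) ∉ M ∧ c (.inl q) = true)
    (hR : ∀ q, ℓ q ∈ R → (Sum.inl q : Y ⊕ Fin s) ∉ M ∧ c (.inl q) = false)
    {k p : ℕ} (hk : 0 < k) (hp : 0 < p) (hn : n = 15 * k + 2 + p) :
    k ^ 2 * (SS L R).card ≤ 3 * M.card * n ^ 4 := by
  classical
  have hcard : Fintype.card (Vx k p) = Fintype.card (Fin n) := by
    rw [card_vx, Fintype.card_fin, hn]
  obtain ⟨ρ0⟩ := Fintype.card_eq.1 hcard
  have : Nonempty (Vx k p ≃ Fin n) := ⟨ρ0⟩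
  obtain ⟨ρ, hρ⟩ := exists_place (Ω := Vx k p ≃ Fin n) (I := Fin k × Fin k) (T := Fin 4 ↪ Fin n)
    (fun ρ ij => (pts ij).trans ρ.toEmbedding) (fun ij q q' => equi_embed (pts ij) q q') (SS L R)
  set F := univ.filter (fun ij : Fin k × Fin k => (pts ij).trans ρ.toEmbedding ∈ SS L R) with hF
  have hFm : ∀ ij, ij ∈ F → (∃ h : ρ (.a ij.1) < ρ (.c ij.2),
      (⟨(ρ (.a ij.1), ρ (.c ij.2)), h⟩ : Pr n) ∈ L) ∧
      ∃ h : ρ (.b ij.1) < ρ (.d ij.2), (⟨(ρ (.b ij.1), ρ (.d ij.2)), h⟩ : Pr n) ∈ R := by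
    intro ij hij
    simp only [hF, SS, mem_filter, mem_univ, true_and] at hij
    exact hij
  -- the fooling set
  let A : (F → Bool) → Fin k → Fin k → Prop := fun f i j => ∃ h : (i, j) ∈ F, f ⟨(i, j), h⟩ = true
  let B : (F → Bool) → Fin k → Fin k → Prop := fun f i j => ∃ h : (i, j) ∈ F, f ⟨(i, j), h⟩ = false
  have hrun : ∀ f : F → Bool, ∃ v, C.Run (fun q => zz ρ (A f) (B f) (ℓ q)) v ∧
      v out = false := by
    intro f
    have h1 : ¬ (graphOf (zz ρ (A f) (B f))).IsHamiltonian := by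
      rw [ham_zz ρ hk hp]
      rintro ⟨i, j, ⟨h1, h2⟩, h3, h4⟩
      rw [h2] at h4
      exact absurd h4 (by simp)
    rw [hC] at h1
    push Not at h1
    obtain ⟨v, hv1, hv2⟩ := h1
    exact ⟨v, hv1, by simpa using hv2⟩
  choose v hv1 hv2 using hrun
  have key : ∀ f g : F → Bool, (∃ ij, f ij = true ∧ g ij = false) →
      ∀ y : Y → Bool,
        (∀ x, (Sum.inl x : Y ⊕ Fin s) ∉ M → c (.inl x) = true → y x = zz ρ (A f) (B f) (ℓ x)) →
        (∀ x, (Sum.inl x : Y ⊕ Fin s) ∉ M → c (.inl x) = false → y x = zz ρ (A g) (B g) (ℓ x)) →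
        (∀ x, (Sum.inl x : Y ⊕ Fin s) ∈ M → y x = zz ρ (A f) (B f) (ℓ x)) →
        (∀ x, (Sum.inl x : Y ⊕ Fin s) ∈ M → y x = zz ρ (A g) (B g) (ℓ x)) →
        ∀ u, C.Run y u → u out ≠ false := by
    rintro f g ⟨ij, hf, hg⟩ y h1 h2 h3 h4 u hu
    have hy : y = fun q => zz ρ (A f) (B g) (ℓ q) := by
      funext q
      obtain ⟨e, he⟩ : ∃ e, ℓ q = e := ⟨_, rfl⟩
      have h1' := h1 q
      have h2' := h2 q
      have h3' := h3 q
      rw [he] at h1' h2' h3' ⊢
      -- an edge `a i - c j` with `(i, j) ∈ F` is on the left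
      have hl : ∀ i j, (e.1.1 = ρ (.a i) ∧ e.1.2 = ρ (.c j) ∨ e.1.2 = ρ (.a i) ∧
          e.1.1 = ρ (.c j)) → (i, j) ∈ F →
          (Sum.inl q : Y ⊕ Fin s) ∉ M ∧ c (.inl q) = true := by
        intro i j h hij
        obtain ⟨⟨h5, h6⟩, -⟩ := hFm _ hij
        rcases h with ⟨h7, h8⟩ | ⟨h7, h8⟩
        · have : e = ⟨(ρ (.a i), ρ (.c j)), h5⟩ := Subtype.ext (Prod.ext h7 h8)
          exact hL q (by rw [he, this]; exact h6)
        · exfalso
          have h9 := e.2
          rw [h7, h8] at h9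
          exact absurd h9 (not_lt.2 h5.le)
      have hr : ∀ i j, (e.1.1 = ρ (.b i) ∧ e.1.2 = ρ (.d j) ∨ e.1.2 = ρ (.b i) ∧
          e.1.1 = ρ (.d j)) → (i, j) ∈ F →
          (Sum.inl q : Y ⊕ Fin s) ∉ M ∧ c (.inl q) = false := by
        intro i j h hij
        obtain ⟨-, ⟨h5, h6⟩⟩ := hFm _ hij
        rcases h with ⟨h7, h8⟩ | ⟨h7, h8⟩
        · have : e = ⟨(ρ (.b i), ρ (.d j)), h5⟩ := Subtype.ext (Prod.ext h7 h8)
          exact hR q (by rw [he, this]; exact h6)
        · exfalso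
          have h9 := e.2
          rw [h7, h8] at h9
          exact absurd h9 (not_lt.2 h5.le)
      by_cases heM : (Sum.inl q : Y ⊕ Fin s) ∈ M
      · rw [h3' heM]
        apply zz_congr
        · exact fun i j _ => Iff.rfl
        · intro i j h
          constructor
          · rintro ⟨h5, -⟩
            exact absurd heM (hr i j h h5).1
          · rintro ⟨h5, -⟩
            exact absurd heM (hr i j h h5).1
      · cases hce : c (.inl q) with
        | true =>
          rw [h1' heM hce]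
          apply zz_congr
          · exact fun i j _ => Iff.rfl
          · intro i j h
            constructor
            · rintro ⟨h5, -⟩
              have := (hr i j h h5).2
              rw [hce] at this
              exact absurd this (by simp)
            · rintro ⟨h5, -⟩
              have := (hr i j h h5).2
              rw [hce] at this
              exact absurd this (by simp)
        | false =>
          rw [h2' heM hce]
          apply zz_congr
          · intro i j h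
            constructor
            · rintro ⟨h5, -⟩
              have := (hl i j h h5).2
              rw [hce] at this
              exact absurd this (by simp)
            · rintro ⟨h5, -⟩
              have := (hl i j h h5).2
              rw [hce] at this
              exact absurd this (by simp)
          · exact fun i j _ => Iff.rfl
    subst hy
    have h5 : (graphOf (zz ρ (A f) (B g))).IsHamiltonian := by
      rw [ham_zz ρ hk hp]
      exact ⟨ij.1.1, ij.1.2, ⟨ij.2, hf⟩, ⟨ij.2, hg⟩⟩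
    rw [hC] at h5
    rw [h5 u hu]
    simp
  have hfool := fooling C M c hsep (fun f q => zz ρ (A f) (B f) (ℓ q)) v out false hv1 hv2 (by
    intro f g hfg
    obtain ⟨ij, hij⟩ : ∃ ij, f ij ≠ g ij := by
      by_contra h
      push Not at h
      exact hfg (funext h)
    cases hf : f ij with
    | true =>
      have hg : g ij = false := by
        cases hg : g ij
        · rfl
        · rw [hf, hg] at hij; exact absurd rfl hij
      exact ⟨f, g, Or.inl ⟨rfl, rfl⟩, key f g ⟨ij, hf, hg⟩⟩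
    | false =>
      have hg : g ij = true := by
        cases hg : g ij
        · rw [hf, hg] at hij; exact absurd rfl hij
        · rfl
      exact ⟨g, f, Or.inr ⟨rfl, rfl⟩, key g f ⟨ij, hg, hf⟩⟩)
  have hF3 : F.card ≤ 3 * M.card := by
    rw [Fintype.card_fun, Fintype.card_bool, Fintype.card_coe] at hfool
    have h8 : (8 : ℕ) ^ M.card = 2 ^ (3 * M.card) := by
      rw [pow_mul]; norm_num
    rw [h8] at hfool
    exact (Nat.pow_le_pow_iff_right (by norm_num)).1 hfool
  have hemb : Fintype.card (Fin 4 ↪ Fin n) ≤ n ^ 4 := by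
    rw [Fintype.card_embedding_eq, Fintype.card_fin, Fintype.card_fin]
    exact Nat.descFactorial_le_pow n 4
  calc k ^ 2 * (SS L R).card = Fintype.card (Fin k × Fin k) * (SS L R).card := by
        rw [Fintype.card_prod, Fintype.card_fin, pow_two]
    _ ≤ F.card * Fintype.card (Fin 4 ↪ Fin n) := hρ
    _ ≤ 3 * M.card * n ^ 4 := Nat.mul_le_mul hF3 hemb

theorem card_pr_ham (n : ℕ) : 2 * Fintype.card (Pr n) + n = n ^ 2 := by
  classical
  have h1 : Fintype.card (Pr n) = (univ.filter (fun p : Fin n × Fin n => p.1 < p.2)).card :=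
    Fintype.card_subtype _
  have h2 : (univ.filter (fun p : Fin n × Fin n => p.1 < p.2)).card =
      (univ.filter (fun p : Fin n × Fin n => p.2 < p.1)).card := by
    apply Finset.card_bij (fun p _ => p.swap)
    · intro p hp; simpa using hp
    · intro p _ q _ h; exact Prod.swap_injective h
    · intro p hp; exact ⟨p.swap, by simpa using hp, by simp⟩
  have h3 : (univ.filter (fun p : Fin n × Fin n => p.1 = p.2)).card = n := by
    have : (univ.filter (fun p : Fin n × Fin n => p.1 = p.2)) =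
        (univ : Finset (Fin n)).image (fun a => (a, a)) := by
      ext p
      simp only [mem_filter, mem_univ, true_and, mem_image]
      constructor
      · intro h; exact ⟨p.1, Prod.ext rfl h⟩
      · rintro ⟨a, rfl⟩; rfl
    rw [this, Finset.card_image_of_injective _ (fun a b h => (Prod.ext_iff.1 h).1),
      Finset.card_univ, Fintype.card_fin]
  have h4 : (univ : Finset (Fin n × Fin n)).card = n * n := by
    rw [Finset.card_univ, Fintype.card_prod, Fintype.card_fin]
  have h5 : (univ : Finset (Fin n × Fin n)).card =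
      (univ.filter (fun p : Fin n × Fin n => p.1 < p.2)).card +
      ((univ.filter (fun p : Fin n × Fin n => p.1 = p.2)).card +
      (univ.filter (fun p : Fin n × Fin n => p.2 < p.1)).card) := by
    rw [← Finset.card_union_of_disjoint, ← Finset.card_union_of_disjoint]
    · congr 1
      ext p
      simp only [mem_univ, mem_union, mem_filter, true_and, true_iff]
      exact lt_trichotomy _ _
    · rw [Finset.disjoint_left]
      intro p hp hq
      simp only [mem_union, mem_filter, mem_univ, true_and] at hp hq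
      rcases hq with hq | hq
      · exact absurd hq hp.ne
      · exact absurd hq (not_lt.2 hp.le)
    · rw [Finset.disjoint_left]
      intro p hp hq
      simp only [mem_filter, mem_univ, true_and] at hp hq
      exact absurd hp hq.ne'
  rw [h1, pow_two]
  rw [h4, h3, ← h2] at h5
  omega

/-- **Networks for Hamiltonicity have no small separators.** -/
theorem ham_read {Y V : Type} [Fintype Y] [Fintype V] {H : SimpleGraph V} {T : ℕ}
    (hn : 2 ^ 24 ≤ n) (k : ℕ) (hk : 0 < k) (hkn : 16 ^ k ≤ n)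
    (C : Circuit Y s) (out : Y ⊕ Fin s) (ℓ : Y → Pr n)
    (hℓ : ∀ x, {y | ℓ y = x}.ncard ≤ k)
    (hC : ∀ z : Pr n → Bool, (graphOf z).IsHamiltonian ↔
      ∀ v, C.Run (fun q => z (ℓ q)) v → v out = true)
    (f : Y ⊕ Fin s → V) (hf : Placed C H T f) (w : ℕ) (hH : Halves H w) :
    n ^ 2 ≤ 10 ^ 6 * (k ^ 2 * 4 ^ k * (T * w)) := by
  classical
  by_contra hcon
  push Not at hcon
  obtain ⟨E, hE⟩ : ∃ E, E = Fintype.card (Pr n) := ⟨_, rfl⟩
  have hE2 : 2 * E + n = n ^ 2 := by rw [hE]; exact card_pr_ham n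
  have hn2 : 2 ^ 24 * n ≤ n ^ 2 := by rw [pow_two]; exact Nat.mul_le_mul_right n hn
  obtain ⟨q, hq⟩ : ∃ q, q = k ^ 2 * (T * w) := ⟨_, rfl⟩
  have hqa : k ^ 2 * 4 ^ k * (T * w) = 4 ^ k * q := by rw [hq]; ring
  rw [hqa] at hcon
  have h4k : 4 ≤ 4 ^ k := by
    calc 4 = 4 ^ 1 := by norm_num
      _ ≤ 4 ^ k := Nat.pow_le_pow_right (by norm_num) hk
  have h4q : 4 * q ≤ 4 ^ k * q := Nat.mul_le_mul_right q h4k
  obtain ⟨M, c, L, R, hsep, hM, -, -, hLM, hRM, hLR⟩ := network_separation hf ℓ k hk hℓ hH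
    univ univ E (by rw [Finset.card_univ, hE]) (by rw [Finset.card_univ, hE]) (by omega)
    (by rw [← hq]; omega)
  rw [← hq] at hM
  obtain ⟨k', p', hk', hp', hnkp, hk16⟩ : ∃ k' p', 0 < k' ∧ 0 < p' ∧ n = 15 * k' + 2 + p' ∧
      n ≤ 16 * k' :=
    ⟨(n - 3) / 15, n - 15 * ((n - 3) / 15) - 2, by omega, by omega, by omega, by omega⟩
  have h1 := sep_bound_read C out ℓ hC M c hsep L R hLM hRM hk' hp' hnkp
  have h2 := card_SS L R
  have hLE : L.card ≤ E := by rw [hE]; exact Finset.card_le_univ L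
  -- `4 ^ k` is small
  have h20 : 20 * 4 ^ k ≤ n := by
    have h3 : 4 ^ k * 4 ^ k ≤ n := by
      calc 4 ^ k * 4 ^ k = 16 ^ k := by rw [← mul_pow]; norm_num
        _ ≤ n := hkn
    rcases le_total 20 (4 ^ k) with h4 | h4
    · exact (Nat.mul_le_mul_right _ h4).trans h3
    · omega
  have h8 : 8 * 4 ^ k * n ≤ E := by
    have h3 : 20 * 4 ^ k * n ≤ n ^ 2 := by rw [pow_two]; exact Nat.mul_le_mul_right n h20
    have h4 : 20 * 4 ^ k * n = 20 * (4 ^ k * n) := by ring
    have h5 : 8 * 4 ^ k * n = 8 * (4 ^ k * n) := by ring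
    omega
  have hSS : E ^ 2 ≤ 4 * (4 ^ k * (SS L R).card) := by
    have h3 : L.card * R.card ≤ (SS L R).card + 2 * n * E :=
      h2.trans (Nat.add_le_add_left (Nat.mul_le_mul_left _ hLE) _)
    have h4 : E ^ 2 ≤ 2 * (4 ^ k * ((SS L R).card + 2 * n * E)) :=
      hLR.trans (Nat.mul_le_mul_left 2 (Nat.mul_le_mul_left _ h3))
    have h5 : 2 * (4 ^ k * ((SS L R).card + 2 * n * E)) =
        2 * (4 ^ k * (SS L R).card) + 4 * (4 ^ k * n * E) := by ring
    have h6 : 8 * (4 ^ k * n * E) ≤ E ^ 2 := by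
      calc 8 * (4 ^ k * n * E) = (8 * 4 ^ k * n) * E := by ring
        _ ≤ E * E := Nat.mul_le_mul_right E h8
        _ = E ^ 2 := by ring
    omega
  have h5E : 2 * n ^ 2 ≤ 5 * E := by omega
  have h18 : n ^ 4 * (4 * n ^ 2) ≤ n ^ 4 * (76800 * (4 ^ k * M.card)) := by
    calc n ^ 4 * (4 * n ^ 2) = n ^ 2 * (2 * n ^ 2) ^ 2 := by ring
      _ ≤ (16 * k') ^ 2 * (5 * E) ^ 2 :=
          Nat.mul_le_mul (Nat.pow_le_pow_left hk16 2) (Nat.pow_le_pow_left h5E 2)
      _ = 6400 * (k' ^ 2 * E ^ 2) := by ring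
      _ ≤ 6400 * (k' ^ 2 * (4 * (4 ^ k * (SS L R).card))) :=
          Nat.mul_le_mul_left _ (Nat.mul_le_mul_left _ hSS)
      _ = 25600 * 4 ^ k * (k' ^ 2 * (SS L R).card) := by ring
      _ ≤ 25600 * 4 ^ k * (3 * M.card * n ^ 4) := Nat.mul_le_mul_left _ h1
      _ = n ^ 4 * (76800 * (4 ^ k * M.card)) := by ring
  have hnpos : 0 < n := by omega
  have h19 : 4 * n ^ 2 ≤ 76800 * (4 ^ k * M.card) := Nat.le_of_mul_le_mul_left h18 (by positivity)
  have h22 : 4 ^ k * M.card ≤ 32 * (4 ^ k * q) := by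
    calc 4 ^ k * M.card ≤ 4 ^ k * (32 * q) := Nat.mul_le_mul_left _ hM
      _ = 32 * (4 ^ k * q) := by ring
  omega

end main

end Pool.Agent.V7H15.Tw
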