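import Pool.Agent.V7H15.Tw.Mix

/-!
# Every circuit has a run, and every function has a circuit of treewidth at most `|X| + 1`
-/

set_option autoImplicit false

namespace Pool.Agent.V7H15.Tw

open Finset

variable {X : Type} {s : ℕ}

/-- Every input has a run. -/
theorem exists_run (C : Circuit X s) (z : X → Bool) : ∃ v, C.Run z v := by
  classical
  have key : ∀ m ≤ s, ∃ v : X ⊕ Fin s → Bool, (∀ x, v (.inl x) = z x) ∧
      ∀ g : Fin s, g.val < m → C.Rule v g := by
    intro m
    induction m with
    | zero =>
      intro _
      exact ⟨Sum.elim z (fun _ => false), fun x => rfl, fun g hg => absurd hg (Nat.not_lt_zero _)⟩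
    | succ m ih =>
      intro hm
      obtain ⟨v, hv1, hv2⟩ := ih (by omega)
      let g0 : Fin s := ⟨m, by omega⟩
      let v' : X ⊕ Fin s → Bool := fun p =>
        if p = .inr g0 then xor (C.neg g0) (agg (C.kind g0) v (C.wires g0)) else v p
      have hinl : ∀ x, v' (.inl x) = v (.inl x) := by
        intro x
        simp only [v', reduceCtorEq, if_false]
      have hne : ∀ g : Fin s, g.val < m → v' (.inr g) = v (.inr g) := by
        intro g hg
        have : g ≠ g0 := by
          rintro rfl
          exact absurd hg (lt_irrefl _)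
        simp only [v', Sum.inr.injEq, this, if_false]
      have hsrc : ∀ g : Fin s, g.val ≤ m → ∀ p ∈ C.wires g, v' p.1 = v p.1 := by
        intro g hg p hp
        rcases p with ⟨x | h, b⟩
        · exact hinl x
        · have h1 := C.acyclic g h b hp
          exact hne h (by have : h.val < g.val := h1; omega)
      refine ⟨v', fun x => (hinl x).trans (hv1 x), ?_⟩
      intro g hg
      rw [rule_iff]
      rcases Nat.lt_or_ge g.val m with h1 | h1
      · rcases (rule_iff C v g).1 (hv2 g h1) with h2 | h2
        · exact Or.inl h2
        · right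
          rw [hne g h1, h2, agg_congr _ _ _ _ (fun p hp => hsrc g h1.le p hp)]
      · right
        have : g = g0 := Fin.ext (by simp only [g0]; omega)
        subst this
        rw [agg_congr _ _ _ _ (fun p hp => hsrc g0 le_rfl p hp)]
        simp only [v', if_true]
  obtain ⟨v, h1, h2⟩ := key s le_rfl
  exact ⟨v, h1, fun g => h2 g g.isLt⟩

/-- Without guess gates there is only one run. -/
theorem run_unique (C : Circuit X s) (hC : ∀ g, C.kind g ≠ .guess) (z : X → Bool)
    (v w : X ⊕ Fin s → Bool) (hv : C.Run z v) (hw : C.Run z w) : v = w := by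
  have key : ∀ m (g : Fin s), g.val < m → v (.inr g) = w (.inr g) := by
    intro m
    induction m with
    | zero => intro g hg; exact absurd hg (Nat.not_lt_zero _)
    | succ m ih =>
      intro g hg
      have h1 := (rule_iff C v g).1 (hv.2 g)
      have h2 := (rule_iff C w g).1 (hw.2 g)
      rw [or_iff_right (hC g)] at h1 h2
      rw [h1, h2]
      congr 1
      apply agg_congr
      intro p hp
      rcases p with ⟨x | h, b⟩
      · rw [hv.1, hw.1]
      · have h1 := C.acyclic g h b hp
        exact ih h (by have : h.val < g.val := h1; omega)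
  funext p
  rcases p with x | g
  · rw [hv.1, hw.1]
  · exact key (g.val + 1) g (by omega)

section dnf

variable [Fintype X] [DecidableEq X] {N : ℕ}

/-- A disjunction of conjunctions that each accept one input. -/
def dnf (a : Fin N → X → Bool) : Circuit X (N + 1) where
  kind _ := .and
  neg g := decide (g.val = N)
  wires g := if h : g.val < N then univ.image (fun x => (.inl x, !(a ⟨g.val, h⟩ x)))
    else (univ.filter (fun h : Fin (N + 1) => h.val < N)).image (fun h => (.inr h, true))
  acyclic := by
    intro g h b hb
    split_ifs at hb with h1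
    · simp at hb
    · simp only [mem_image, mem_filter, mem_univ, true_and, Prod.mk.injEq, Sum.inr.injEq] at hb
      obtain ⟨h', h2, rfl, -⟩ := hb
      rw [Fin.lt_def]
      omega

theorem dnf_run (a : Fin N → X → Bool) (z : X → Bool) (v : X ⊕ Fin (N + 1) → Bool)
    (hv : (dnf a).Run z v) : v (.inr (Fin.last N)) = true ↔ ∃ i, a i = z := by
  obtain ⟨h1, h2⟩ := hv
  have hlow : ∀ i : Fin N, v (.inr i.castSucc) = true ↔ a i = z := by
    intro i
    have h3 := h2 i.castSucc
    have hlt : i.castSucc.val < N := i.isLt
    have hn : (decide (i.castSucc.val = N)) = false := by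
      simp only [decide_eq_false_iff_not]
      omega
    simp only [Circuit.Rule, dnf, hn, dif_pos hlt, Bool.false_xor, mem_image, mem_univ, true_and,
      forall_exists_index, forall_apply_eq_imp_iff, h1] at h3
    rw [h3, decide_eq_true_eq]
    constructor
    · intro h
      funext x
      have := h x
      have e : (⟨i.castSucc.val, hlt⟩ : Fin N) = i := rfl
      rw [e] at this
      cases h4 : a i x <;> cases h5 : z x <;> simp_all
    · rintro rfl x
      have e : (⟨i.castSucc.val, hlt⟩ : Fin N) = i := rfl
      rw [e]
      cases a i x <;> rfl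
  have hlt : ¬ (Fin.last N).val < N := by simp
  have hw : (dnf a).wires (Fin.last N) = (univ.filter (fun h : Fin (N + 1) => h.val < N)).image
      (fun h => (.inr h, true)) := dif_neg hlt
  have hneg : (dnf a).neg (Fin.last N) = true := by simp [dnf]
  have hk : (dnf a).kind (Fin.last N) = .and := rfl
  have h3 := (rule_iff _ _ _).1 (h2 (Fin.last N))
  rw [hk, hneg, hw] at h3
  simp only [reduceCtorEq, false_or, agg, Bool.true_xor, mem_image, mem_filter, mem_univ, true_and, forall_exists_index,
    and_imp, forall_apply_eq_imp_iff₂] at h3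
  rw [h3]
  simp only [Bool.not_eq_true', decide_eq_false_iff_not]
  push Not
  constructor
  · rintro ⟨h, h4, h5⟩
    refine ⟨⟨h.val, h4⟩, ?_⟩
    rw [← hlow]
    have e : (⟨h.val, h4⟩ : Fin N).castSucc = h := rfl
    rw [e]
    cases h6 : v (.inr h)
    · rw [h6] at h5; exact absurd rfl h5
    · rfl
  · rintro ⟨i, hi⟩
    refine ⟨i.castSucc, i.isLt, ?_⟩
    rw [(hlow i).2 hi]
    decide

/-- The tree decomposition of the disjunction. -/
theorem dnf_tree (a : Fin N → X → Bool) :
    ∃ D : TreeDecomposition (dnf a), ∀ i, (D.bag i).card ≤ Fintype.card X + 2 := by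
  obtain ⟨T, -, hT⟩ := (SimpleGraph.connected_top (V := Fin (N + 1))).exists_isTree_le
  let bag : Fin (N + 1) → Finset (X ⊕ Fin (N + 1)) := fun i =>
    (univ.image Sum.inl) ∪ {.inr (Fin.last N), .inr i}
  have hall : ∀ S : Set (Fin (N + 1)), (∀ i, i ∈ S) → (T.induce S).Preconnected := by
    intro S hS
    rintro ⟨i, hi⟩ ⟨j, hj⟩
    let f : T →g T.induce S := { toFun := fun i => ⟨i, hS i⟩, map_rel' := fun h => h }
    exact (hT.connected i j).map f
  refine ⟨{ ι := Fin (N + 1), fin := inferInstance, tree := T, isTree := hT, bag := bag,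
            cover := ?_, wire := ?_, conn := ?_ }, ?_⟩
  · rintro (x | g)
    · exact ⟨0, by simp [bag]⟩
    · exact ⟨g, by simp [bag]⟩
  · rintro p q ⟨g, rfl, b, hb⟩
    simp only [dnf] at hb
    split_ifs at hb with h1
    · simp only [mem_image, mem_univ, true_and, Prod.mk.injEq] at hb
      obtain ⟨x, rfl, -⟩ := hb
      exact ⟨g, by simp [bag], by simp [bag]⟩
    · simp only [mem_image, mem_filter, mem_univ, true_and, Prod.mk.injEq] at hb
      obtain ⟨h, h2, rfl, -⟩ := hb
      have : g = Fin.last N := Fin.ext (by have := g.isLt; simp only [Fin.val_last]; omega)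
      subst this
      exact ⟨h, by simp [bag], by simp [bag]⟩
  · rintro (x | g)
    · exact hall _ (fun i => by simp [bag])
    · by_cases hg : g = Fin.last N
      · subst hg
        exact hall _ (fun i => by simp [bag])
      · rintro ⟨i, hi⟩ ⟨j, hj⟩
        simp only [bag, Set.mem_ofPred_eq, mem_union, mem_image, mem_univ, true_and,
          reduceCtorEq, exists_false, mem_insert, mem_singleton, Sum.inr.injEq, hg,
          false_or] at hi hj
        subst hi
        subst hj
        exact SimpleGraph.Reachable.refl _
  · intro i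
    refine (Finset.card_union_le _ _).trans ?_
    have h1 : (univ.image (Sum.inl : X → X ⊕ Fin (N + 1))).card ≤ Fintype.card X :=
      Finset.card_image_le
    have h2 : ({.inr (Fin.last N), .inr i} : Finset (X ⊕ Fin (N + 1))).card ≤ 2 :=
      Finset.card_le_two
    omega

end dnf

/-- **Upper bound.** Every function is computed by a circuit without guess gates that has a tree
decomposition into sets of at most `|X| + 2` gates. -/
theorem upper [Fintype X] [DecidableEq X] (f : (X → Bool) → Prop) :
    ∃ (s : ℕ) (C : Circuit X s) (out : X ⊕ Fin s), (∀ g, C.kind g ≠ .guess) ∧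
      (∀ z v, C.Run z v → (v out = true ↔ f z)) ∧
      ∃ D : TreeDecomposition C, ∀ i, (D.bag i).card ≤ Fintype.card X + 2 := by
  classical
  let e := Fintype.equivFin {z : X → Bool // f z}
  refine ⟨_, dnf (fun i => (e.symm i).1), .inr (Fin.last _), fun g => by simp [dnf], ?_,
    dnf_tree _⟩
  intro z v hv
  rw [dnf_run _ z v hv]
  constructor
  · rintro ⟨i, rfl⟩
    exact (e.symm i).2
  · intro h
    exact ⟨e ⟨z, h⟩, by rw [e.symm_apply_apply]⟩

end Pool.Agent.V7H15.Tw
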